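import Mathlib

/-!
# FLE-BD: entrywise bounds

`Bd A b`: all entries of `A` are bounded by `b`.
PLAN.  `Bd.mul`: `norm_sum_le`.  `Bd.inv_one_add`: use the norm `Matrix.linftyOpNormedRing` (maximal
row sum, `Matrix.linfty_opNorm_def`): `‖X‖ ≤ card ι * x ≤ 1/2`; `1 + X = 1 - (-X)` is a unit
(`Units.oneSub`, `NormedRing.tsum_geometric_of_norm_lt_one`), `‖(1 + X)⁻¹‖ ≤ 2`, and every entry is
bounded by the norm.  (Or directly: a matrix `A = 1 + X` with `∑ j, ‖X i j‖ ≤ 1/2` satisfies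
`‖A v‖_∞ ≥ ‖v‖_∞ / 2`, so it is injective, so invertible, and the columns of the inverse have norm
`≤ 2`.)
-/

set_option autoImplicit false

noncomputable section

namespace Pool.Agent.FLE

variable {ι κ μ : Type} [Fintype ι] [Fintype κ] [Fintype μ]

/-- all entries of `A` are bounded by `b` -/
def Bd (A : Matrix ι κ ℂ) (b : ℝ) : Prop := ∀ i j, ‖A i j‖ ≤ b

theorem Bd.mono {A : Matrix ι κ ℂ} {b b' : ℝ} (h : Bd A b) (hb : b ≤ b') : Bd A b' :=
  fun i j => (h i j).trans hb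

theorem Bd.add {A B : Matrix ι κ ℂ} {a b : ℝ} (hA : Bd A a) (hB : Bd B b) : Bd (A + B) (a + b) :=
  fun i j => (norm_add_le _ _).trans (add_le_add (hA i j) (hB i j))

theorem Bd.neg {A : Matrix ι κ ℂ} {a : ℝ} (hA : Bd A a) : Bd (-A) a := fun i j => by
  rw [Matrix.neg_apply, norm_neg]
  exact hA i j

theorem Bd.smul {A : Matrix ι κ ℂ} {a : ℝ} (hA : Bd A a) (z : ℂ) : Bd (z • A) (‖z‖ * a) :=
  fun i j => by
    rw [Matrix.smul_apply, smul_eq_mul, norm_mul]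
    exact mul_le_mul_of_nonneg_left (hA i j) (norm_nonneg z)

theorem Bd.mul {A : Matrix ι κ ℂ} {B : Matrix κ μ ℂ} {a b : ℝ} (hA : Bd A a) (hB : Bd B b)
    (ha : 0 ≤ a) : Bd (A * B) (Fintype.card κ * (a * b)) := by
  intro i j
  rw [Matrix.mul_apply]
  refine (norm_sum_le _ _).trans ?_
  refine (Finset.sum_le_card_nsmul _ _ (a * b) (fun k _ => ?_)).trans ?_
  · rw [norm_mul]
    exact mul_le_mul (hA i k) (hB k j) (norm_nonneg _) ha
  · rw [nsmul_eq_mul, Finset.card_univ]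

private theorem mulVec_le {X : Matrix ι ι ℂ} {x : ℝ} (h : Bd X x)
    (hx : 2 * (Fintype.card ι * x) ≤ 1) (y : ι → ℂ) : ‖X.mulVec y‖ ≤ 1 / 2 * ‖y‖ := by
  refine (pi_norm_le_iff_of_nonneg (by positivity)).mpr (fun i => ?_)
  have h1 : ‖(X.mulVec y) i‖ ≤ ∑ k, ‖X i k * y k‖ := norm_sum_le _ _
  refine h1.trans ?_
  have h2 : ∑ k, ‖X i k * y k‖ ≤ (Finset.univ : Finset ι).card • (x * ‖y‖) := by
    refine Finset.sum_le_card_nsmul _ _ _ (fun k _ => ?_)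
    rw [norm_mul]
    have hx0 : 0 ≤ x := (norm_nonneg _).trans (h i k)
    exact mul_le_mul (h i k) (norm_le_pi_norm y k) (norm_nonneg _) hx0
  refine h2.trans ?_
  rw [nsmul_eq_mul, Finset.card_univ]
  have h3 := norm_nonneg y
  nlinarith

theorem Bd.inv_one_add [DecidableEq ι] {X : Matrix ι ι ℂ} {x : ℝ} (h : Bd X x)
    (hx : 2 * (Fintype.card ι * x) ≤ 1) :
    ∃ Y : Matrix ι ι ℂ, Y * (1 + X) = 1 ∧ (1 + X) * Y = 1 ∧ Bd Y 2 := by
  have hdet : (1 + X).det ≠ 0 := by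
    intro h0
    obtain ⟨v, hv, hv0⟩ := Matrix.exists_mulVec_eq_zero_iff.mpr h0
    rw [Matrix.add_mulVec, Matrix.one_mulVec] at hv0
    have h1 : v = -(X.mulVec v) := eq_neg_of_add_eq_zero_left hv0
    have h2 : ‖v‖ ≤ 1 / 2 * ‖v‖ := by
      conv_lhs => rw [h1]
      rw [norm_neg]
      exact mulVec_le h hx v
    have h3 : 0 < ‖v‖ := norm_pos_iff.mpr hv
    linarith
  have hu : IsUnit (1 + X).det := isUnit_iff_ne_zero.mpr hdet
  have h1 : (1 + X) * (1 + X)⁻¹ = 1 := Matrix.mul_nonsing_inv _ hu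
  refine ⟨(1 + X)⁻¹, Matrix.nonsing_inv_mul _ hu, h1, fun i j => ?_⟩
  set y : ι → ℂ := fun k => (1 + X)⁻¹ k j with hy
  have h2 : y = Pi.single j 1 - X.mulVec y := by
    funext k
    have h3 := congrFun (congrFun h1 k) j
    rw [Matrix.add_mul, Matrix.one_mul, Matrix.add_apply] at h3
    rw [Pi.sub_apply]
    have h4 : (Pi.single j (1 : ℂ) : ι → ℂ) k = (1 : Matrix ι ι ℂ) k j := by
      rw [Matrix.one_apply, Pi.single_apply]
    rw [h4, ← h3]
    change (1 + X)⁻¹ k j = (1 + X)⁻¹ k j + (X * (1 + X)⁻¹) k j - (X * (1 + X)⁻¹) k j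
    ring
  have h5 : ‖y‖ ≤ 1 + 1 / 2 * ‖y‖ := by
    conv_lhs => rw [h2]
    refine (norm_sub_le _ _).trans (add_le_add ?_ (mulVec_le h hx y))
    refine (pi_norm_le_iff_of_nonneg zero_le_one).mpr (fun k => ?_)
    rw [Pi.single_apply]
    split_ifs <;> simp
  have h6 : ‖y i‖ ≤ ‖y‖ := norm_le_pi_norm y i
  change ‖y i‖ ≤ 2
  linarith

end Pool.Agent.FLE
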