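import Pool.Agent.FLE.Ins

/-!
# FLE-BLK: definitions of the blocks of the quantum Chevalley matrices

`lo`: the classical edges which change the last value; `hi`: the quantum edges which change the last
value, without the factor `q l`.
-/

set_option autoImplicit false

noncomputable section

namespace Pool.Agent.FLE

open Equiv

open Classical in
/-- the classical edges `w → w * swap a last`, from last value `v` to last value `v'` -/
def lo {m : ℕ} (h : ℕ → ℂ) (v' v : Fin (m + 1)) : Matrix (Perm (Fin m)) (Perm (Fin m)) ℂ :=
  fun u w => ∑ a : Fin m,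
    if ins v' u = ins v w * swap a.castSucc (Fin.last m) ∧ Up (ins v w) a.castSucc (Fin.last m) then
      ∑ k ∈ Finset.Ico a.val m, h k else 0

open Classical in
/-- the quantum edges `w → w * swap a last`, from last value `v` to last value `v'`, without the
factor `q l` -/
def hi {l : ℕ} (q h : ℕ → ℂ) (v' v : Fin (l + 2)) :
    Matrix (Perm (Fin (l + 1))) (Perm (Fin (l + 1))) ℂ :=
  fun u w => ∑ a : Fin (l + 1),
    if ins v' u = ins v w * swap a.castSucc (Fin.last (l + 1)) ∧
        Dn (ins v w) a.castSucc (Fin.last (l + 1)) then
      (∑ k ∈ Finset.Ico a.val (l + 1), h k) * ∏ k ∈ Finset.Ico a.val l, q k else 0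

end Pool.Agent.FLE
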