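import Pool.Agent.FLE.Blk

/-!
# FLE-BLKA: the block form of the quantum Chevalley matrices
-/

set_option autoImplicit false

noncomputable section

namespace Pool.Agent.FLE

open Equiv

private theorem ba_lt {m : ℕ} (a : Fin m) : ¬ Fin.last m < a.castSucc :=
  not_lt.mpr (Fin.le_last _)

private theorem ba_ev {m : ℕ} {v' v : Fin (m + 1)} {u w : Perm (Fin m)} {a : Fin m}
    (h : ins v' u = ins v w * swap a.castSucc (Fin.last m)) : v' = ins v w a.castSucc := by
  have h1 := congrArg (fun f : Perm (Fin (m + 1)) => f (Fin.last m)) h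
  simp only [ins_last, Perm.mul_apply, swap_apply_right] at h1
  exact h1

theorem up_ins {m : ℕ} (v : Fin (m + 1)) (w : Perm (Fin m)) (a c : Fin m) :
    Up (ins v w) a.castSucc c.castSucc ↔ Up w a c := by
  have hm := Fin.strictMono_succAbove v
  unfold Up
  rw [ins_castSucc, ins_castSucc, hm.lt_iff_lt]
  refine and_congr_right fun _ => ?_
  constructor
  · intro h b h1 h2 h3
    refine h b.castSucc (Fin.castSucc_lt_castSucc_iff.2 h1) (Fin.castSucc_lt_castSucc_iff.2 h2) ?_
    rw [ins_castSucc]
    exact ⟨hm h3.1, hm h3.2⟩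
  · intro h b
    refine Fin.lastCases ?_ (fun b => ?_) b
    · intro _ h2
      exact absurd h2 (ba_lt c)
    · intro h1 h2 h3
      rw [ins_castSucc] at h3
      exact h b (Fin.castSucc_lt_castSucc_iff.1 h1) (Fin.castSucc_lt_castSucc_iff.1 h2)
        ⟨hm.lt_iff_lt.1 h3.1, hm.lt_iff_lt.1 h3.2⟩

theorem dn_ins {m : ℕ} (v : Fin (m + 1)) (w : Perm (Fin m)) (a c : Fin m) :
    Dn (ins v w) a.castSucc c.castSucc ↔ Dn w a c := by
  have hm := Fin.strictMono_succAbove v
  unfold Dn
  rw [ins_castSucc, ins_castSucc, hm.lt_iff_lt]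
  refine and_congr_right fun _ => ?_
  constructor
  · intro h b h1 h2
    have h3 := h b.castSucc (Fin.castSucc_lt_castSucc_iff.2 h1)
      (Fin.castSucc_lt_castSucc_iff.2 h2)
    rw [ins_castSucc] at h3
    exact ⟨hm.lt_iff_lt.1 h3.1, hm.lt_iff_lt.1 h3.2⟩
  · intro h b
    refine Fin.lastCases ?_ (fun b => ?_) b
    · intro _ h2
      exact absurd h2 (ba_lt c)
    · intro h1 h2
      have h3 := h b (Fin.castSucc_lt_castSucc_iff.1 h1) (Fin.castSucc_lt_castSucc_iff.1 h2)
      rw [ins_castSucc]
      exact ⟨hm h3.1, hm h3.2⟩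

theorem block {l : ℕ} (q h : ℕ → ℂ) (v' v : Fin (l + 2)) (u w : Perm (Fin (l + 1))) :
    M (l + 2) q h (ins v' u) (ins v w) =
      (if v' = v then M (l + 1) q h u w else 0) + lo h v' v u w + q l * hi q h v' v u w := by
  classical
  have h1 : ∀ a c : Fin (l + 1),
      (if a.castSucc < c.castSucc ∧ ins v' u = ins v w * swap a.castSucc c.castSucc then
        (∑ k ∈ Finset.Ico a.castSucc.val c.castSucc.val, h k) *
          ((if Up (ins v w) a.castSucc c.castSucc then 1 else 0) +
            (if Dn (ins v w) a.castSucc c.castSucc then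
              ∏ k ∈ Finset.Ico a.castSucc.val c.castSucc.val, q k else 0))
      else 0) = if v' = v then (if a < c ∧ u = w * swap a c then
        (∑ k ∈ Finset.Ico a.val c.val, h k) *
          ((if Up w a c then 1 else 0) +
            (if Dn w a c then ∏ k ∈ Finset.Ico a.val c.val, q k else 0))
      else 0) else (0 : ℂ) := by
    intro a c
    simp only [Fin.val_castSucc, up_ins, dn_ins, ins_mul_swap, ins_inj,
      Fin.castSucc_lt_castSucc_iff]
    by_cases hv : v' = v
    · simp only [hv, true_and, if_true]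
    · simp only [hv, false_and, and_false, if_false]
  have h2 : ∀ a : Fin (l + 1),
      (if a.castSucc < Fin.last (l + 1) ∧
          ins v' u = ins v w * swap a.castSucc (Fin.last (l + 1)) then
        (∑ k ∈ Finset.Ico a.castSucc.val (Fin.last (l + 1)).val, h k) *
          ((if Up (ins v w) a.castSucc (Fin.last (l + 1)) then 1 else 0) +
            (if Dn (ins v w) a.castSucc (Fin.last (l + 1)) then
              ∏ k ∈ Finset.Ico a.castSucc.val (Fin.last (l + 1)).val, q k else 0))
      else 0) = (if ins v' u = ins v w * swap a.castSucc (Fin.last (l + 1)) ∧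
        Up (ins v w) a.castSucc (Fin.last (l + 1)) then
      ∑ k ∈ Finset.Ico a.val (l + 1), h k else 0) +
      q l * (if ins v' u = ins v w * swap a.castSucc (Fin.last (l + 1)) ∧
        Dn (ins v w) a.castSucc (Fin.last (l + 1)) then
      (∑ k ∈ Finset.Ico a.val (l + 1), h k) * ∏ k ∈ Finset.Ico a.val l, q k else (0 : ℂ)) := by
    intro a
    have h3 : a.castSucc < Fin.last (l + 1) := Fin.castSucc_lt_last a
    have h4 : ∏ k ∈ Finset.Ico a.val (l + 1), q k = (∏ k ∈ Finset.Ico a.val l, q k) * q l :=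
      Finset.prod_Ico_succ_top (by have := a.isLt; omega) _
    simp only [h3, true_and, Fin.val_castSucc, Fin.val_last, h4]
    by_cases h5 : ins v' u = ins v w * swap a.castSucc (Fin.last (l + 1))
    · simp only [h5, true_and, if_true]
      by_cases h6 : Up (ins v w) a.castSucc (Fin.last (l + 1)) <;>
        by_cases h7 : Dn (ins v w) a.castSucc (Fin.last (l + 1)) <;>
        simp only [h6, h7, if_true, if_false] <;> ring
    · simp only [h5, false_and, if_false, mul_zero, add_zero]
  unfold M lo hi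
  rw [Fintype.sum_prod_type, Fin.sum_univ_castSucc]
  have h8 : ∑ c : Fin (l + 2), (if Fin.last (l + 1) < c ∧
      ins v' u = ins v w * swap (Fin.last (l + 1)) c then
        (∑ k ∈ Finset.Ico (Fin.last (l + 1)).val c.val, h k) *
          ((if Up (ins v w) (Fin.last (l + 1)) c then 1 else 0) +
            (if Dn (ins v w) (Fin.last (l + 1)) c then
              ∏ k ∈ Finset.Ico (Fin.last (l + 1)).val c.val, q k else 0))
      else (0 : ℂ)) = 0 := by
    refine Finset.sum_eq_zero fun c _ => ?_
    rw [if_neg]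
    rintro ⟨h9, -⟩
    exact absurd h9 (not_lt.mpr (Fin.le_last _))
  refine (congrArg₂ (· + ·) rfl h8).trans ?_
  rw [add_zero, Finset.mul_sum, add_assoc, ← Finset.sum_add_distrib]
  have h10 : ∀ a : Fin (l + 1), ∑ c : Fin (l + 2), (if a.castSucc < c ∧
      ins v' u = ins v w * swap a.castSucc c then
        (∑ k ∈ Finset.Ico a.castSucc.val c.val, h k) *
          ((if Up (ins v w) a.castSucc c then 1 else 0) +
            (if Dn (ins v w) a.castSucc c then
              ∏ k ∈ Finset.Ico a.castSucc.val c.val, q k else 0))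
      else (0 : ℂ)) = (∑ c : Fin (l + 1), if v' = v then (if a < c ∧ u = w * swap a c then
        (∑ k ∈ Finset.Ico a.val c.val, h k) *
          ((if Up w a c then 1 else 0) +
            (if Dn w a c then ∏ k ∈ Finset.Ico a.val c.val, q k else 0))
      else 0) else 0) + ((if ins v' u = ins v w * swap a.castSucc (Fin.last (l + 1)) ∧
        Up (ins v w) a.castSucc (Fin.last (l + 1)) then
      ∑ k ∈ Finset.Ico a.val (l + 1), h k else 0) +
      q l * (if ins v' u = ins v w * swap a.castSucc (Fin.last (l + 1)) ∧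
        Dn (ins v w) a.castSucc (Fin.last (l + 1)) then
      (∑ k ∈ Finset.Ico a.val (l + 1), h k) * ∏ k ∈ Finset.Ico a.val l, q k else (0 : ℂ))) := by
    intro a
    rw [Fin.sum_univ_castSucc, ← h2 a]
    refine congrArg₂ (· + ·) ?_ rfl
    exact Finset.sum_congr rfl fun c _ => h1 a c
  refine (Finset.sum_congr rfl fun a _ => h10 a).trans ?_
  rw [Finset.sum_add_distrib]
  refine congrArg₂ (· + ·) ?_ rfl
  by_cases hv : v' = v
  · rw [if_pos hv, Fintype.sum_prod_type]
    refine Finset.sum_congr rfl fun a _ => Finset.sum_congr rfl fun c _ => ?_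
    rw [if_pos hv]
  · rw [if_neg hv]
    exact Finset.sum_eq_zero fun a _ => Finset.sum_eq_zero fun c _ => if_neg hv

theorem lo_eq_zero {m : ℕ} (h : ℕ → ℂ) {v' v : Fin (m + 1)} (hv : v ≤ v') : lo h v' v = 0 := by
  ext u w
  unfold lo
  refine Finset.sum_eq_zero fun a _ => if_neg ?_
  rintro ⟨h1, h2, -⟩
  rw [← ba_ev h1, ins_last] at h2
  exact absurd h2 (not_lt.mpr hv)

theorem hi_eq_zero {l : ℕ} (q h : ℕ → ℂ) {v' v : Fin (l + 2)} (hv : v' ≤ v) : hi q h v' v = 0 := by
  ext u w
  unfold hi
  refine Finset.sum_eq_zero fun a _ => if_neg ?_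
  rintro ⟨h1, h2, -⟩
  rw [← ba_ev h1, ins_last] at h2
  exact absurd h2 (not_lt.mpr hv)

end Pool.Agent.FLE
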