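import Pool.Agent.FLE.Blk

/-!
# FLE-BLKB: the classical edges which lower the last value by one

Only the summand `a = w⁻¹ v` survives.
-/

set_option autoImplicit false

noncomputable section

namespace Pool.Agent.FLE

open Equiv

private theorem p_pinv {α : Type} (w : Perm α) (x : α) : w (w⁻¹ x) = x :=
  Equiv.apply_symm_apply w x

private theorem pinv_p {α : Type} (w : Perm α) (x : α) : w⁻¹ (w x) = x :=
  Equiv.symm_apply_apply w x

private theorem mul_swap_low {m : ℕ} (v : Fin m) (w : Perm (Fin m)) :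
    ins v.succ w * swap (w⁻¹ v).castSucc (Fin.last m) = ins v.castSucc w := by
  refine Equiv.ext fun i => ?_
  refine Fin.lastCases ?_ (fun i => ?_) i
  · rw [Perm.mul_apply, swap_apply_right, ins_castSucc, ins_last, p_pinv,
      Fin.succAbove_succ_self]
  · rw [Perm.mul_apply, ins_castSucc]
    by_cases hi : i = w⁻¹ v
    · subst hi
      rw [swap_apply_left, ins_last, p_pinv, Fin.succAbove_castSucc_self]
    · have h1 : i.castSucc ≠ (w⁻¹ v).castSucc := fun h => hi (Fin.castSucc_injective _ h)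
      have h2 : i.castSucc ≠ Fin.last m := (Fin.castSucc_lt_last i).ne
      rw [swap_apply_of_ne_of_ne h1 h2, ins_castSucc]
      have h3 : w i ≠ v := fun h => hi (by rw [← h, pinv_p])
      have h4 : (w i).val ≠ v.val := fun h => h3 (Fin.ext h)
      ext
      simp only [Fin.succAbove, Fin.lt_def, Fin.val_castSucc, Fin.val_succ]
      split_ifs <;> simp only [Fin.val_castSucc, Fin.val_succ] <;> omega

private theorem key_low {m : ℕ} (v : Fin m) (u w : Perm (Fin m)) (a : Fin m) :
    (ins v.castSucc u = ins v.succ w * swap a.castSucc (Fin.last m) ∧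
      Up (ins v.succ w) a.castSucc (Fin.last m)) ↔ a = w⁻¹ v ∧ u = w := by
  constructor
  · rintro ⟨h, _⟩
    have h1 := congrArg (fun e : Perm (Fin (m + 1)) => e (Fin.last m)) h
    simp only [ins_last, Perm.mul_apply, swap_apply_right, ins_castSucc] at h1
    rw [← Fin.succAbove_succ_self] at h1
    have h2 : v = w a := Fin.succAbove_right_injective h1
    have h3 : a = w⁻¹ v := by rw [h2, pinv_p]
    refine ⟨h3, ?_⟩
    rw [h3, mul_swap_low] at h
    exact (ins_inj.mp h).2
  · rintro ⟨rfl, rfl⟩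
    refine ⟨(mul_swap_low v u).symm, ?_, ?_⟩
    · rw [ins_castSucc, ins_last, p_pinv, Fin.succAbove_succ_self]
      exact Fin.castSucc_lt_succ
    · intro b _ _
      rw [ins_castSucc, ins_last, p_pinv, Fin.succAbove_succ_self]
      rintro ⟨h1, h2⟩
      rw [Fin.lt_def] at h1 h2
      simp only [Fin.val_castSucc, Fin.val_succ] at h1 h2
      omega

theorem lo_succ {m : ℕ} (h : ℕ → ℂ) (v : Fin m) (u w : Perm (Fin m)) :
    lo h v.castSucc v.succ u w = if u = w then ∑ k ∈ Finset.Ico (w⁻¹ v).val m, h k else 0 := by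
  unfold lo
  simp only [key_low]
  rw [Finset.sum_eq_single (w⁻¹ v)]
  · by_cases huw : u = w
    · rw [if_pos ⟨rfl, huw⟩, if_pos huw]
    · rw [if_neg (fun h => huw h.2), if_neg huw]
  · intro b _ hb
    rw [if_neg (fun h => hb h.1)]
  · intro h
    exact absurd (Finset.mem_univ _) h

theorem lo_ind {l : ℕ} (v : Fin (l + 1)) : lo (ind l) v.castSucc v.succ = 1 := by
  ext u w
  rw [lo_succ, Matrix.one_apply]
  have h1 : ∑ k ∈ Finset.Ico (w⁻¹ v).val (l + 1), ind l k = 1 := by
    unfold ind
    rw [Finset.sum_ite_eq', if_pos]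
    have := (w⁻¹ v).isLt
    rw [Finset.mem_Ico]
    omega
  rw [h1]

private theorem sum_tri (n : ℕ) :
    ∑ a ∈ Finset.range n, ∑ _k ∈ Finset.Ico a n, (2 : ℂ) = n * (n + 1) := by
  induction n with
  | zero => simp
  | succ n ih =>
    rw [Finset.sum_range_succ]
    have h1 : ∀ a ∈ Finset.range n, ∑ _k ∈ Finset.Ico a (n + 1), (2 : ℂ) =
        ∑ _k ∈ Finset.Ico a n, (2 : ℂ) + 2 := by
      intro a ha
      rw [Finset.sum_Ico_succ_top (Finset.mem_range.1 ha).le]
    rw [Finset.sum_congr rfl h1, Finset.sum_add_distrib, ih, Finset.sum_const, Finset.card_range,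
      Finset.sum_const, Nat.card_Ico]
    simp only [Nat.add_sub_cancel_left, one_smul, nsmul_eq_mul]
    push_cast
    ring

theorem lo_two_sum (l : ℕ) :
    ∑ v : Fin (l + 1), lo two v.castSucc v.succ = (((l : ℂ) + 1) * (l + 2)) • 1 := by
  ext u w
  rw [Matrix.sum_apply, Matrix.smul_apply, Matrix.one_apply]
  simp only [lo_succ]
  by_cases huw : u = w
  · simp only [if_pos huw, smul_eq_mul, mul_one]
    have h1 := Equiv.sum_comp (w⁻¹ : Perm (Fin (l + 1)))
      (fun a : Fin (l + 1) => ∑ k ∈ Finset.Ico a.val (l + 1), two k)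
    rw [h1, Fin.sum_univ_eq_sum_range (fun a => ∑ k ∈ Finset.Ico a (l + 1), two k) (l + 1)]
    have h2 := sum_tri (l + 1)
    unfold two
    rw [h2]
    push_cast
    ring
  · simp only [if_neg huw, Finset.sum_const_zero, smul_zero]

end Pool.Agent.FLE
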