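import Pool.Agent.FLE.Blk

/-!
# FLE-BLKC: the quantum edges from last value `0` to the largest value, and the matrix `T`

Only the summand with `a = w⁻¹ (last l)` survives.
-/

set_option autoImplicit false

noncomputable section

namespace Pool.Agent.FLE

open Equiv

private theorem p_pinv {α : Type} (w : Perm α) (x : α) : w (w⁻¹ x) = x :=
  Equiv.apply_symm_apply w x

private theorem pinv_p {α : Type} (w : Perm α) (x : α) : w⁻¹ (w x) = x :=
  Equiv.symm_apply_apply w x

private theorem mul_swap_cor {l : ℕ} (w : Perm (Fin (l + 1))) :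
    ins 0 w * swap (w⁻¹ (Fin.last l)).castSucc (Fin.last (l + 1)) =
      ins (Fin.last (l + 1)) (finRotate (l + 1) * w) := by
  refine Equiv.ext fun i => ?_
  refine Fin.lastCases ?_ (fun i => ?_) i
  · rw [Perm.mul_apply, swap_apply_right, ins_castSucc, ins_last, p_pinv,
      Fin.zero_succAbove, Fin.succ_last]
  · rw [Perm.mul_apply, ins_castSucc, Fin.succAbove_last, Perm.mul_apply]
    by_cases hi : i = w⁻¹ (Fin.last l)
    · subst hi
      rw [swap_apply_left, ins_last, p_pinv, finRotate_last]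
      rfl
    · have h1 : i.castSucc ≠ (w⁻¹ (Fin.last l)).castSucc := fun h =>
        hi (Fin.castSucc_injective _ h)
      have h2 : i.castSucc ≠ Fin.last (l + 1) := (Fin.castSucc_lt_last i).ne
      rw [swap_apply_of_ne_of_ne h1 h2, ins_castSucc, Fin.zero_succAbove]
      have h3 : w i ≠ Fin.last l := fun h => hi (by rw [← h, pinv_p])
      ext
      rw [Fin.val_succ, Fin.val_castSucc, coe_finRotate_of_ne_last h3]

private theorem key_cor {l : ℕ} (u w : Perm (Fin (l + 1))) (a : Fin (l + 1)) :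
    (ins (Fin.last (l + 1)) u = ins 0 w * swap a.castSucc (Fin.last (l + 1)) ∧
      Dn (ins 0 w) a.castSucc (Fin.last (l + 1))) ↔
      a = w⁻¹ (Fin.last l) ∧ u = finRotate (l + 1) * w := by
  constructor
  · rintro ⟨h, _⟩
    have h1 := congrArg (fun e : Perm (Fin (l + 2)) => e (Fin.last (l + 1))) h
    simp only [ins_last, Perm.mul_apply, swap_apply_right, ins_castSucc] at h1
    rw [Fin.zero_succAbove, ← Fin.succ_last] at h1
    have h2 : Fin.last l = w a := Fin.succ_injective _ h1
    have h3 : a = w⁻¹ (Fin.last l) := by rw [h2, pinv_p]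
    refine ⟨h3, ?_⟩
    rw [h3, mul_swap_cor] at h
    exact (ins_inj.mp h).2
  · rintro ⟨rfl, rfl⟩
    refine ⟨(mul_swap_cor w).symm, ?_, ?_⟩
    · rw [ins_castSucc, ins_last, p_pinv, Fin.zero_succAbove]
      exact Fin.succ_pos _
    · intro b hb hb2
      rw [ins_castSucc, ins_last, p_pinv, Fin.zero_succAbove]
      obtain ⟨i, rfl⟩ : ∃ i : Fin (l + 1), i.castSucc = b :=
        ⟨b.castPred hb2.ne, Fin.castSucc_castPred _ _⟩
      rw [ins_castSucc, Fin.zero_succAbove]
      refine ⟨Fin.succ_pos _, ?_⟩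
      rw [Fin.succ_lt_succ_iff]
      refine lt_of_le_of_ne (Fin.le_last _) ?_
      intro h
      have h1 : i = w⁻¹ (Fin.last l) := by rw [← h, pinv_p]
      rw [h1] at hb
      exact lt_irrefl _ hb

theorem hi_corner {l : ℕ} (q h : ℕ → ℂ) (u w : Perm (Fin (l + 1))) :
    hi q h (Fin.last (l + 1)) 0 u w = if u = finRotate (l + 1) * w then
      (∑ k ∈ Finset.Ico (w⁻¹ (Fin.last l)).val (l + 1), h k) *
        ∏ k ∈ Finset.Ico (w⁻¹ (Fin.last l)).val l, q k else 0 := by
  unfold hi
  simp only [key_cor]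
  rw [Finset.sum_eq_single (w⁻¹ (Fin.last l))]
  · by_cases huw : u = finRotate (l + 1) * w
    · rw [if_pos ⟨rfl, huw⟩, if_pos huw]
    · rw [if_neg (fun h => huw h.2), if_neg huw]
  · intro b _ hb
    rw [if_neg (fun h => hb h.1)]
  · intro h
    exact absurd (Finset.mem_univ _) h

theorem hi_ind {l : ℕ} (q : ℕ → ℂ) : hi q (ind l) (Fin.last (l + 1)) 0 = T l q := by
  ext u w
  rw [hi_corner]
  have h1 : ∑ k ∈ Finset.Ico (w⁻¹ (Fin.last l)).val (l + 1), ind l k = 1 := by
    unfold ind
    rw [Finset.sum_ite_eq', if_pos]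
    have := (w⁻¹ (Fin.last l)).isLt
    rw [Finset.mem_Ico]
    omega
  rw [h1, one_mul]
  rfl

theorem t_block {l : ℕ} (q : ℕ → ℂ) (v' v : Fin (l + 2)) (u w : Perm (Fin (l + 1))) :
    T (l + 1) q (ins v' u) (ins v w) =
      (if v'.val = v.val + 1 then q l * T l q u w else 0) +
        (if v = Fin.last (l + 1) ∧ v' = 0 ∧ u = w then 1 else 0) := by
  show (if ins v' u = finRotate (l + 2) * ins v w then
    ∏ k ∈ Finset.Ico ((ins v w)⁻¹ (Fin.last (l + 1))).val (l + 1), q k else 0) = _
  induction v using Fin.lastCases with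
  | last =>
    have h1 : (ins (Fin.last (l + 1)) w)⁻¹ (Fin.last (l + 1)) = Fin.last (l + 1) := by
      rw [Perm.inv_eq_iff_eq, ins_last]
    rw [rot_ins_last, h1, Fin.val_last, Finset.Ico_self, Finset.prod_empty]
    have h2 : ¬ v'.val = l + 1 + 1 := by
      have := v'.isLt
      omega
    rw [if_neg h2, zero_add]
    simp only [ins_inj, true_and]
  | cast v =>
    have h1 : (ins v.castSucc w)⁻¹ (Fin.last (l + 1)) = (w⁻¹ (Fin.last l)).castSucc := by
      rw [Perm.inv_eq_iff_eq, ins_castSucc, p_pinv]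
      rw [Fin.succAbove_of_le_castSucc _ _ (Fin.castSucc_le_castSucc_iff.mpr (Fin.le_last v)),
        Fin.succ_last]
    have h2 : ¬ (v.castSucc = Fin.last (l + 1) ∧ v' = 0 ∧ u = w) := fun h =>
      (Fin.castSucc_lt_last v).ne h.1
    rw [rot_ins_castSucc, h1, if_neg h2, add_zero, Fin.val_castSucc, Fin.val_castSucc,
      Finset.prod_Ico_succ_top (Nat.lt_succ_iff.mp (w⁻¹ (Fin.last l)).isLt)]
    have h3 : v' = v.succ ↔ v'.val = v.val + 1 := by
      rw [Fin.ext_iff, Fin.val_succ]
    simp only [ins_inj, h3]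
    show _ = if v'.val = v.val + 1 then q l * (if u = finRotate (l + 1) * w then
      ∏ k ∈ Finset.Ico (w⁻¹ (Fin.last l)).val l, q k else 0) else 0
    by_cases hv : v'.val = v.val + 1
    · by_cases hu : u = finRotate (l + 1) * w
      · rw [if_pos ⟨hv, hu⟩, if_pos hv, if_pos hu, mul_comm]
      · rw [if_neg (fun h => hu h.2), if_pos hv, if_neg hu, mul_zero]
    · rw [if_neg (fun h => hv h.1), if_neg hv]

end Pool.Agent.FLE
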