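import Pool.Agent.FLE.ComB

/-!
# FLE-CMP: the leading coefficients on the eigenlines

PLAN.  `P' * P = 1` gives `P * P' = 1` (`Matrix.mul_eq_one_comm`), so `E = P * diagonal c * P'`,
`P' * E = diagonal c * P'`, `E * P = P * diagonal c`, the same for `T`.  For every matrix `X` the
diagonal entries of `P' * (E * X) * P` and of `P' * (X * E) * P` agree (both are
`c J * (P' * X * P) J J`).  Put `b v = (P' * lo two v.castSucc v.succ * P) J J`, `v : Fin (l+1)`.
`com2` gives `b v.castSucc = b v.succ` for `v : Fin l`, so `b` is constant (`Fin.induction` or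
`Fin.lastCases`); `lo_two_sum` gives `∑ v, b v = (l+1)(l+2)`, so `b v = l + 2` (`cmp_lo`).
`com3`: `b (last l) * a J = (P' * hi q two last 0 * P) J J` (`cmp_hi`).
-/

set_option autoImplicit false

noncomputable section

namespace Pool.Agent.FLE

open Equiv

variable {l : ℕ} {P P' : Matrix (Perm (Fin (l + 1))) (Perm (Fin (l + 1))) ℂ}
  {c a : Perm (Fin (l + 1)) → ℂ}

private theorem conj_left (hP : P' * P = 1) {A : Matrix (Perm (Fin (l + 1))) (Perm (Fin (l + 1))) ℂ}
    (hA : P' * A * P = Matrix.diagonal c)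
    (X : Matrix (Perm (Fin (l + 1))) (Perm (Fin (l + 1))) ℂ) (J : Perm (Fin (l + 1))) :
    (P' * (A * X) * P) J J = c J * (P' * X * P) J J := by
  have h1 : P * P' = 1 := mul_eq_one_comm.mp hP
  have h2 : P' * A = Matrix.diagonal c * P' := by
    rw [← hA, Matrix.mul_assoc, h1, Matrix.mul_one]
  rw [← Matrix.mul_assoc, h2, Matrix.mul_assoc, Matrix.mul_assoc, Matrix.diagonal_mul,
    ← Matrix.mul_assoc]

private theorem conj_right (hP : P' * P = 1)
    {A : Matrix (Perm (Fin (l + 1))) (Perm (Fin (l + 1))) ℂ}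
    (hA : P' * A * P = Matrix.diagonal c)
    (X : Matrix (Perm (Fin (l + 1))) (Perm (Fin (l + 1))) ℂ) (J : Perm (Fin (l + 1))) :
    (P' * (X * A) * P) J J = (P' * X * P) J J * c J := by
  have h1 : P * P' = 1 := mul_eq_one_comm.mp hP
  have h2 : A * P = P * Matrix.diagonal c := by
    rw [← hA, Matrix.mul_assoc, ← Matrix.mul_assoc P, h1, Matrix.one_mul]
  rw [← Matrix.mul_assoc, Matrix.mul_assoc (P' * X), h2, ← Matrix.mul_assoc, Matrix.mul_diagonal]

theorem cmp_lo (hc : ∀ q h h' : ℕ → ℂ, M (l + 2) q h * M (l + 2) q h' =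
    M (l + 2) q h' * M (l + 2) q h) (q : ℕ → ℂ) (hP : P' * P = 1)
    (hE : P' * E l q * P = Matrix.diagonal c) (v : Fin (l + 1)) (J : Perm (Fin (l + 1))) :
    (P' * lo two v.castSucc v.succ * P) J J = l + 2 := by
  set b : Fin (l + 1) → ℂ := fun v => (P' * lo two v.castSucc v.succ * P) J J with hb
  have hstep : ∀ v : Fin l, b v.castSucc = b v.succ := by
    intro v
    have h1 := com2 hc q v
    have h2 := congrArg (fun X => (P' * X * P) J J) h1
    simp only [Matrix.mul_add, Matrix.add_mul, Matrix.add_apply] at h2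
    rw [conj_left hP hE, conj_right hP hE] at h2
    simp only [hb]
    linear_combination h2
  have hconst : ∀ v : Fin (l + 1), b v = b 0 := by
    intro v
    induction v using Fin.induction with
    | zero => rfl
    | succ i ih => rw [← hstep i, ih]
  have hsum : ∑ v, b v = ((l : ℂ) + 1) * (l + 2) := by
    have h3 : ∑ v, b v = (P' * (∑ v : Fin (l + 1), lo two v.castSucc v.succ) * P) J J := by
      rw [Finset.mul_sum, Finset.sum_mul, Matrix.sum_apply]
    rw [h3, lo_two_sum, Matrix.mul_smul, Matrix.smul_mul, Matrix.mul_one, hP, Matrix.smul_apply,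
      Matrix.one_apply_eq, smul_eq_mul, mul_one]
  rw [Finset.sum_congr rfl (fun v _ => hconst v), Finset.sum_const, Finset.card_univ,
    Fintype.card_fin, nsmul_eq_mul] at hsum
  have h4 : ((l : ℂ) + 1) ≠ 0 := by exact_mod_cast Nat.succ_ne_zero l
  push_cast at hsum
  have h5 := mul_left_cancel₀ h4 hsum
  change b v = _
  rw [hconst v, h5]

theorem cmp_hi (hc : ∀ q h h' : ℕ → ℂ, M (l + 2) q h * M (l + 2) q h' =
    M (l + 2) q h' * M (l + 2) q h) (q : ℕ → ℂ) (hP : P' * P = 1)
    (hE : P' * E l q * P = Matrix.diagonal c) (hT : P' * T l q * P = Matrix.diagonal a)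
    (J : Perm (Fin (l + 1))) :
    (P' * hi q two (Fin.last (l + 1)) 0 * P) J J = (l + 2) * a J := by
  have h1 := com3 hc q
  have h2 := congrArg (fun X => (P' * X * P) J J) h1
  simp only [Matrix.mul_add, Matrix.add_mul, Matrix.add_apply] at h2
  rw [conj_left hP hE, conj_right hP hE, conj_right hP hT, cmp_lo hc q hP hE] at h2
  linear_combination -h2

end Pool.Agent.FLE
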