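import Pool.Agent.FLE.ComT
import Pool.Agent.FLE.BlkC

/-!
# FLE-COMA: commutativity at level `l + 1`, and `E` commutes with `T`

PLAN.  `lo h x y ≠ 0` only for `x < y` (`lo_eq_zero`), `hi q h x y ≠ 0` only for `y < x`.
* `com0`: `com_const` for `v' = v = 0` (or any `v`): only `x = v` contributes and
  `dlo q h v v = M (l+1) q h`.
* `com1`: `com_lin` with `h = two`, `h' = ind l`, `v' = last (l+1)`, `v = 0`:
  `dlo q h (last) x = 0` unless `x = last`; `dlo q h x 0 = 0` unless `x = 0`;
  `M (l+1) q (ind l) = 0` (`m_ind`), so it reads `E l q * hi q (ind l) last 0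
  = hi q (ind l) last 0 * E l q`; then `hi_ind`.
-/

set_option autoImplicit false

noncomputable section

namespace Pool.Agent.FLE

open Equiv

private theorem dlo_zero {l : ℕ} (q h : ℕ → ℂ) (x : Fin (l + 2)) :
    dlo q h x 0 = if x = 0 then M (l + 1) q h else 0 := by
  unfold dlo
  rw [lo_eq_zero h (Fin.zero_le x), add_zero]

private theorem dlo_last {l : ℕ} (q h : ℕ → ℂ) (x : Fin (l + 2)) :
    dlo q h (Fin.last (l + 1)) x = if Fin.last (l + 1) = x then M (l + 1) q h else 0 := by
  unfold dlo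
  rw [lo_eq_zero h (Fin.le_last x), add_zero]

theorem com0 {l : ℕ} (hc : ∀ q h h' : ℕ → ℂ, M (l + 2) q h * M (l + 2) q h' =
    M (l + 2) q h' * M (l + 2) q h) (q h h' : ℕ → ℂ) :
    M (l + 1) q h * M (l + 1) q h' = M (l + 1) q h' * M (l + 1) q h := by
  have h1 := com_const hc q h h' 0 0
  simp only [dlo_zero, mul_ite, mul_zero, Finset.sum_ite_eq', Finset.mem_univ, if_true] at h1
  exact h1

theorem com1 {l : ℕ} (hc : ∀ q h h' : ℕ → ℂ, M (l + 2) q h * M (l + 2) q h' =
    M (l + 2) q h' * M (l + 2) q h) (q : ℕ → ℂ) : E l q * T l q = T l q * E l q := by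
  have h1 := com_lin hc q two (ind l) (Fin.last (l + 1)) 0
  simp only [dlo_zero, dlo_last, m_ind, mul_ite, ite_mul, mul_zero, zero_mul, ite_self, add_zero,
    zero_add, Finset.sum_ite_eq', Finset.sum_ite_eq, Finset.mem_univ, if_true, hi_ind] at h1
  exact h1

end Pool.Agent.FLE
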