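import Pool.Agent.FLE.ComT
import Pool.Agent.FLE.BlkB
import Pool.Agent.FLE.BlkC

/-!
# FLE-COMB: the second order consequences of the commutativity
-/

set_option autoImplicit false

noncomputable section

namespace Pool.Agent.FLE

open Equiv

private theorem dlo_ind {l : ℕ} (q : ℕ → ℂ) (x y : Fin (l + 2)) :
    dlo q (ind l) x y = lo (ind l) x y := by
  unfold dlo
  rw [m_ind, ite_self, zero_add]

private theorem dlo_self {l : ℕ} (q : ℕ → ℂ) (x : Fin (l + 2)) :
    dlo q two x x = E l q := by
  unfold dlo
  rw [if_pos rfl, lo_eq_zero two (le_refl x), add_zero]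
  rfl

private theorem dlo_ne {l : ℕ} (q : ℕ → ℂ) {x y : Fin (l + 2)} (h : x ≠ y) :
    dlo q two x y = lo two x y := by
  unfold dlo
  rw [if_neg h, zero_add]

private theorem dlo_lt {l : ℕ} (q : ℕ → ℂ) {x y : Fin (l + 2)} (h : y < x) :
    dlo q two x y = 0 := by
  rw [dlo_ne q (ne_of_gt h), lo_eq_zero two h.le]

theorem com2 {l : ℕ} (hc : ∀ q h h' : ℕ → ℂ, M (l + 2) q h * M (l + 2) q h' =
    M (l + 2) q h' * M (l + 2) q h) (q : ℕ → ℂ) (v : Fin l) :
    E l q * lo (ind l) v.castSucc.castSucc v.succ.succ + lo two v.castSucc.castSucc v.castSucc.succ =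
      lo (ind l) v.castSucc.castSucc v.succ.succ * E l q + lo two v.succ.castSucc v.succ.succ := by
  have h := com_const hc q two (ind l) v.castSucc.castSucc v.succ.succ
  have hv1 : v.castSucc.succ = v.succ.castSucc := by ext; simp
  have h01 : v.castSucc.castSucc ≠ v.succ.castSucc := by
    intro h
    have := congrArg Fin.val h
    simp at this
  have h12 : v.succ.castSucc ≠ v.succ.succ := by
    intro h
    have := congrArg Fin.val h
    simp at this
  have hL : ∑ x, dlo q two v.castSucc.castSucc x * dlo q (ind l) x v.succ.succ =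
      E l q * lo (ind l) v.castSucc.castSucc v.succ.succ +
        lo two v.castSucc.castSucc v.succ.castSucc := by
    rw [Fintype.sum_eq_add v.castSucc.castSucc v.succ.castSucc h01, dlo_self, dlo_ind,
      dlo_ne q h01, dlo_ind, lo_ind v.succ, mul_one]
    rintro x ⟨hx0, hx1⟩
    rcases lt_or_ge x v.castSucc.castSucc with hx | hx
    · rw [dlo_lt q hx, zero_mul]
    · have hx2 : v.succ.succ ≤ x := by
        rw [Fin.le_def] at hx ⊢
        have e0 : x.val ≠ (v.castSucc.castSucc).val := fun h => hx0 (Fin.ext h)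
        have e1 : x.val ≠ (v.succ.castSucc).val := fun h => hx1 (Fin.ext h)
        simp only [Fin.val_castSucc, Fin.val_succ] at hx e0 e1 ⊢
        omega
      rw [dlo_ind, lo_eq_zero (ind l) hx2, mul_zero]
  have hR : ∑ x, dlo q (ind l) v.castSucc.castSucc x * dlo q two x v.succ.succ =
      lo two v.succ.castSucc v.succ.succ +
        lo (ind l) v.castSucc.castSucc v.succ.succ * E l q := by
    rw [Fintype.sum_eq_add v.succ.castSucc v.succ.succ h12, dlo_self, dlo_ind,
      dlo_ne q h12, dlo_ind, ← hv1, lo_ind v.castSucc, one_mul]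
    rintro x ⟨hx1, hx2⟩
    rcases lt_or_ge v.succ.succ x with hx | hx
    · rw [dlo_lt q hx, mul_zero]
    · have hx0 : x ≤ v.castSucc.castSucc := by
        rw [Fin.le_def] at hx ⊢
        have e1 : x.val ≠ (v.succ.castSucc).val := fun h => hx1 (Fin.ext h)
        have e2 : x.val ≠ (v.succ.succ).val := fun h => hx2 (Fin.ext h)
        simp only [Fin.val_castSucc, Fin.val_succ] at hx e1 e2 ⊢
        omega
      rw [dlo_ind, lo_eq_zero (ind l) hx0, zero_mul]
  rw [hL, hR] at h
  rw [hv1, h]
  exact add_comm _ _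

theorem com3 {l : ℕ} (hc : ∀ q h h' : ℕ → ℂ, M (l + 2) q h * M (l + 2) q h' =
    M (l + 2) q h' * M (l + 2) q h) (q : ℕ → ℂ) :
    E l q * hi q (ind l) (Fin.last l).castSucc 0 +
        lo two (Fin.last l).castSucc (Fin.last l).succ * T l q =
      hi q (ind l) (Fin.last l).castSucc 0 * E l q + hi q two (Fin.last (l + 1)) 0 := by
  have h := com_lin hc q two (ind l) (Fin.last l).castSucc 0
  have hls : (Fin.last l).succ = Fin.last (l + 1) := Fin.succ_last l
  have hne : (Fin.last l).castSucc ≠ (Fin.last l).succ := by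
    intro h
    have := congrArg Fin.val h
    simp at this
  have hL : ∑ x, (dlo q two (Fin.last l).castSucc x * hi q (ind l) x 0 +
      hi q two (Fin.last l).castSucc x * dlo q (ind l) x 0) =
      E l q * hi q (ind l) (Fin.last l).castSucc 0 +
        lo two (Fin.last l).castSucc (Fin.last l).succ * T l q := by
    have e : ∀ x : Fin (l + 2), dlo q two (Fin.last l).castSucc x * hi q (ind l) x 0 +
      hi q two (Fin.last l).castSucc x * dlo q (ind l) x 0 =
      dlo q two (Fin.last l).castSucc x * hi q (ind l) x 0 := fun x => by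
      rw [dlo_ind, lo_eq_zero (ind l) (Fin.zero_le x), mul_zero, add_zero]
    rw [Finset.sum_congr rfl fun x _ => e x,
      Fintype.sum_eq_add (Fin.last l).castSucc (Fin.last l).succ hne, dlo_self,
      dlo_ne q hne, hls, hi_ind]
    rintro x ⟨hx0, hx1⟩
    have hx : x < (Fin.last l).castSucc := by
      rw [Fin.lt_def]
      have e0 : x.val ≠ (Fin.last l).castSucc.val := fun h => hx0 (Fin.ext h)
      have e1 : x.val ≠ (Fin.last l).succ.val := fun h => hx1 (Fin.ext h)
      have e2 := x.isLt
      simp only [Fin.val_castSucc, Fin.val_succ, Fin.val_last] at e0 e1 ⊢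
      omega
    rw [dlo_lt q hx, zero_mul]
  have hR : ∑ x, (dlo q (ind l) (Fin.last l).castSucc x * hi q two x 0 +
      hi q (ind l) (Fin.last l).castSucc x * dlo q two x 0) =
      hi q two (Fin.last (l + 1)) 0 + hi q (ind l) (Fin.last l).castSucc 0 * E l q := by
    rw [Finset.sum_add_distrib, Fintype.sum_eq_single (Fin.last l).succ,
      Fintype.sum_eq_single (0 : Fin (l + 2)), dlo_self, dlo_ind, lo_ind (Fin.last l), one_mul, hls]
    · intro x hx
      rw [dlo_lt q (Fin.pos_of_ne_zero hx), mul_zero]
    · intro x hx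
      have hx1 : x ≤ (Fin.last l).castSucc := by
        rw [Fin.le_def]
        have e1 : x.val ≠ (Fin.last l).succ.val := fun h => hx (Fin.ext h)
        have e2 := x.isLt
        simp only [Fin.val_castSucc, Fin.val_succ, Fin.val_last] at e1 ⊢
        omega
      rw [dlo_ind, lo_eq_zero (ind l) hx1, zero_mul]
  rw [hL, hR] at h
  rw [h]
  exact add_comm _ _

end Pool.Agent.FLE
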