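import Pool.Agent.FLE.BlkA

/-!
# FLE-COMT: consequences of the commutativity at level `l + 2` for the blocks, general form

PLAN.  `q` is arbitrary in `hc`, so replace it by `Function.update q l t`, `t : ℂ`; the blocks
`M (l+1) q h`, `lo`, `hi` do not depend on `q l` (`m_congr`, `hi_congr`).  With `sum_perm` and
`block`, the entry `(ins v' u, ins v w)` of the product `M (l+2) q h * M (l+2) q h'` is the entry
`(u, w)` of `∑ x, A v' x * A' x v`, `A x y = dlo q h x y + t • hi q h x y`.  So for all `t` the matrix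
`∑ x, (A v' x * A' x v - A' v' x * A x v)` is `0`.  It is a polynomial `X + t Y + t ^ 2 Z` in `t`:
`t = 0` gives `X = 0` (`com_const`), `t = 1` and `t = -1` give `Y = 0` (`com_lin`).
-/

set_option autoImplicit false

noncomputable section

namespace Pool.Agent.FLE

open Equiv

theorem m_congr {n : ℕ} {q q' h h' : ℕ → ℂ} (hq : ∀ k, k + 1 < n → q k = q' k)
    (hh : ∀ k, k + 1 < n → h k = h' k) : M n q h = M n q' h' := by
  ext u w
  unfold M
  refine Finset.sum_congr rfl fun p _ => ?_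
  have h1 : ∑ k ∈ Finset.Ico p.1.val p.2.val, h k = ∑ k ∈ Finset.Ico p.1.val p.2.val, h' k :=
    Finset.sum_congr rfl fun k hk => hh k (by have := Finset.mem_Ico.1 hk; omega)
  have h2 : ∏ k ∈ Finset.Ico p.1.val p.2.val, q k = ∏ k ∈ Finset.Ico p.1.val p.2.val, q' k :=
    Finset.prod_congr rfl fun k hk => hq k (by have := Finset.mem_Ico.1 hk; omega)
  rw [h1, h2]

theorem hi_congr {l : ℕ} {q q' : ℕ → ℂ} (h : ℕ → ℂ) (hq : ∀ k, k < l → q k = q' k)
    (v' v : Fin (l + 2)) : hi q h v' v = hi q' h v' v := by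
  ext u w
  unfold hi
  refine Finset.sum_congr rfl fun a _ => ?_
  have h2 : ∏ k ∈ Finset.Ico a.val l, q k = ∏ k ∈ Finset.Ico a.val l, q' k :=
    Finset.prod_congr rfl fun k hk => hq k (Finset.mem_Ico.1 hk).2
  rw [h2]

theorem t_congr {l : ℕ} {q q' : ℕ → ℂ} (hq : ∀ k, k < l → q k = q' k) : T l q = T l q' := by
  ext u w
  unfold T
  have h2 : ∏ k ∈ Finset.Ico (w⁻¹ (Fin.last l)).val l, q k =
      ∏ k ∈ Finset.Ico (w⁻¹ (Fin.last l)).val l, q' k :=
    Finset.prod_congr rfl fun k hk => hq k (Finset.mem_Ico.1 hk).2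
  rw [h2]

theorem m_ind {l : ℕ} (q : ℕ → ℂ) : M (l + 1) q (ind l) = 0 := by
  ext u w
  unfold M
  rw [Matrix.zero_apply]
  refine Finset.sum_eq_zero fun p _ => ?_
  have h1 : ∑ k ∈ Finset.Ico p.1.val p.2.val, ind l k = 0 :=
    Finset.sum_eq_zero fun k hk => by
      unfold ind
      rw [if_neg]
      have := Finset.mem_Ico.1 hk
      omega
  rw [h1, zero_mul, ite_self]

/-- the blocks for `q l = 0` -/
def dlo {l : ℕ} (q h : ℕ → ℂ) (x y : Fin (l + 2)) :
    Matrix (Perm (Fin (l + 1))) (Perm (Fin (l + 1))) ℂ :=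
  (if x = y then M (l + 1) q h else 0) + lo h x y

private theorem ct_block {l : ℕ} (q h : ℕ → ℂ) (t : ℂ) (v' v : Fin (l + 2))
    (u w : Perm (Fin (l + 1))) : M (l + 2) (Function.update q l t) h (ins v' u) (ins v w) =
      (dlo q h v' v + t • hi q h v' v) u w := by
  have h1 : ∀ k, k ≠ l → Function.update q l t k = q k := fun k hk => Function.update_of_ne hk _ _
  rw [block, Function.update_self, m_congr (q' := q) (h' := h) (fun k hk => h1 k (by omega)) (fun _ _ => rfl),
    hi_congr (q' := q) h (fun k hk => h1 k (by omega))]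
  unfold dlo
  rw [Matrix.add_apply, Matrix.add_apply, Matrix.smul_apply, smul_eq_mul]
  congr 2
  by_cases hv : v' = v
  · rw [if_pos hv, if_pos hv]
  · rw [if_neg hv, if_neg hv, Matrix.zero_apply]

private theorem ct_mul {l : ℕ} (q h h' : ℕ → ℂ) (t : ℂ) (v' v : Fin (l + 2))
    (u w : Perm (Fin (l + 1))) :
    (M (l + 2) (Function.update q l t) h * M (l + 2) (Function.update q l t) h') (ins v' u) (ins v w) =
      (∑ x, (dlo q h v' x + t • hi q h v' x) * (dlo q h' x v + t • hi q h' x v)) u w := by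
  rw [Matrix.mul_apply, sum_perm, Matrix.sum_apply]
  refine Finset.sum_congr rfl fun x _ => ?_
  rw [Matrix.mul_apply]
  refine Finset.sum_congr rfl fun y _ => ?_
  rw [ct_block, ct_block]

private theorem ct_expand {l : ℕ} (q h h' : ℕ → ℂ) (t : ℂ) (v' v : Fin (l + 2)) :
    ∑ x, (dlo q h v' x + t • hi q h v' x) * (dlo q h' x v + t • hi q h' x v) =
      ∑ x, dlo q h v' x * dlo q h' x v +
        (t • ∑ x, (dlo q h v' x * hi q h' x v + hi q h v' x * dlo q h' x v) +
          (t * t) • ∑ x, hi q h v' x * hi q h' x v) := by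
  rw [Finset.smul_sum, Finset.smul_sum, ← Finset.sum_add_distrib, ← Finset.sum_add_distrib]
  refine Finset.sum_congr rfl fun x _ => ?_
  rw [add_mul, mul_add, mul_add, smul_add, Matrix.mul_smul, Matrix.smul_mul, Matrix.smul_mul,
    Matrix.mul_smul, smul_smul]
  abel

private theorem ct_key {l : ℕ} (hc : ∀ q h h' : ℕ → ℂ, M (l + 2) q h * M (l + 2) q h' =
    M (l + 2) q h' * M (l + 2) q h) (q h h' : ℕ → ℂ) (v' v : Fin (l + 2)) (t : ℂ) :
    ∑ x, dlo q h v' x * dlo q h' x v +
        (t • ∑ x, (dlo q h v' x * hi q h' x v + hi q h v' x * dlo q h' x v) +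
          (t * t) • ∑ x, hi q h v' x * hi q h' x v) =
      ∑ x, dlo q h' v' x * dlo q h x v +
        (t • ∑ x, (dlo q h' v' x * hi q h x v + hi q h' v' x * dlo q h x v) +
          (t * t) • ∑ x, hi q h' v' x * hi q h x v) := by
  rw [← ct_expand, ← ct_expand]
  ext u w
  rw [← ct_mul, ← ct_mul, hc]

theorem com_const {l : ℕ} (hc : ∀ q h h' : ℕ → ℂ, M (l + 2) q h * M (l + 2) q h' =
    M (l + 2) q h' * M (l + 2) q h) (q h h' : ℕ → ℂ) (v' v : Fin (l + 2)) :
    ∑ x, dlo q h v' x * dlo q h' x v = ∑ x, dlo q h' v' x * dlo q h x v := by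
  have h0 := ct_key hc q h h' v' v 0
  simpa only [zero_smul, mul_zero, add_zero] using h0

theorem com_lin {l : ℕ} (hc : ∀ q h h' : ℕ → ℂ, M (l + 2) q h * M (l + 2) q h' =
    M (l + 2) q h' * M (l + 2) q h) (q h h' : ℕ → ℂ) (v' v : Fin (l + 2)) :
    ∑ x, (dlo q h v' x * hi q h' x v + hi q h v' x * dlo q h' x v) =
      ∑ x, (dlo q h' v' x * hi q h x v + hi q h' v' x * dlo q h x v) := by
  have h1 := ct_key hc q h h' v' v 1
  have h2 := ct_key hc q h h' v' v (-1)
  rw [com_const hc q h h' v' v] at h1 h2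
  have h1' := add_left_cancel h1
  have h2' := add_left_cancel h2
  simp only [one_smul, mul_one, neg_smul, mul_neg, neg_neg] at h1' h2'
  generalize ∑ x, (dlo q h v' x * hi q h' x v + hi q h v' x * dlo q h' x v) = Y at h1' h2' ⊢
  generalize ∑ x, (dlo q h' v' x * hi q h x v + hi q h' v' x * dlo q h x v) = Y' at h1' h2' ⊢
  generalize ∑ x, hi q h v' x * hi q h' x v = Z at h1' h2'
  generalize ∑ x, hi q h' v' x * hi q h x v = Z' at h1' h2'
  ext u w
  have e1 := congrFun (congrFun h1' u) w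
  have e2 := congrFun (congrFun h2' u) w
  simp only [Matrix.add_apply, Matrix.neg_apply] at e1 e2
  linear_combination (e1 - e2) / 2

end Pool.Agent.FLE
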