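import Mathlib

/-!
# FLE-CONT: continuity of an isolated eigenvalue

PLAN.  Let `G = {(x, u) : (A x - u • 1).det = 0 ∧ ‖u - b x‖ ≤ ε}`; it is closed in `X × ℂ`, and it is
the graph of `U` (`Matrix.exists_mulVec_eq_zero_iff` relates eigenvectors and the determinant).
Continuity at `x₀`: if it fails there is `η > 0` such that `U x` is frequently at distance `≥ η` from
`U x₀` as `x → x₀`; near `x₀` the values `U x` stay in a compact ball, so there is a cluster point
`u₁` (along an ultrafilter on `X` below `𝓝 x₀`, `isCompact_closedBall`), `(x₀, u₁) ∈ G` (closed), so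
`u₁ = U x₀`, contradiction.  (Use ultrafilters: `continuousAt` iff for every ultrafilter
`F ≤ 𝓝 x₀`, `Tendsto U F (𝓝 (U x₀))`, `tendsto_iff_ultrafilter`; the map of `F` under `U` is
an ultrafilter containing a compact set, so it converges to some `u₁`.)
-/

set_option autoImplicit false

noncomputable section

namespace Pool.Agent.FLE

open Filter Topology

private lemma det_eig {ι : Type} [Fintype ι] [DecidableEq ι] (M : Matrix ι ι ℂ) (u : ℂ) :
    (∃ v : ι → ℂ, v ≠ 0 ∧ M.mulVec v = u • v) ↔ (M - u • (1 : Matrix ι ι ℂ)).det = 0 := by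
  rw [← Matrix.exists_mulVec_eq_zero_iff]
  refine exists_congr fun v => and_congr_right fun _ => ?_
  rw [Matrix.sub_mulVec, Matrix.smul_mulVec, Matrix.one_mulVec, sub_eq_zero]

theorem cont_eig {X ι : Type} [TopologicalSpace X] [Fintype ι] [DecidableEq ι]
    {A : X → Matrix ι ι ℂ} (hA : Continuous A) {b : X → ℂ} (hb : Continuous b) {ε : ℝ} {U : X → ℂ}
    (hU : ∀ x, ∃ v : ι → ℂ, v ≠ 0 ∧ (A x).mulVec v = U x • v) (hUb : ∀ x, ‖U x - b x‖ ≤ ε)
    (huniq : ∀ x u, (∃ v : ι → ℂ, v ≠ 0 ∧ (A x).mulVec v = u • v) → ‖u - b x‖ ≤ ε → u = U x) :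
    Continuous U := by
  rw [continuous_iff_ultrafilter]
  intro x₀ F hF
  have hbF : Tendsto b F (𝓝 (b x₀)) := (hb.tendsto x₀).mono_left hF
  have hAF : Tendsto A F (𝓝 (A x₀)) := (hA.tendsto x₀).mono_left hF
  have h1 : ∀ᶠ x in (F : Filter X), ‖b x - b x₀‖ < 1 := by
    have h := hbF.eventually (Metric.ball_mem_nhds (b x₀) one_pos)
    filter_upwards [h] with x hx
    rwa [← dist_eq_norm]
  have h2 : ∀ᶠ x in (F : Filter X), U x ∈ Metric.closedBall (b x₀) (ε + 1) := by
    filter_upwards [h1] with x hx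
    rw [Metric.mem_closedBall, dist_eq_norm]
    calc ‖U x - b x₀‖ = ‖(U x - b x) + (b x - b x₀)‖ := by congr 1; ring
      _ ≤ ‖U x - b x‖ + ‖b x - b x₀‖ := norm_add_le _ _
      _ ≤ ε + 1 := add_le_add (hUb x) hx.le
  obtain ⟨u₁, -, hu₁⟩ := (isCompact_closedBall (b x₀) (ε + 1)).ultrafilter_le_nhds (F.map U) (by
    rw [le_principal_iff]
    exact h2)
  have hUF : Tendsto U F (𝓝 u₁) := hu₁
  have h3 : Tendsto (fun x => (A x - U x • (1 : Matrix ι ι ℂ)).det) F
      (𝓝 (A x₀ - u₁ • (1 : Matrix ι ι ℂ)).det) := by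
    have h4 : Tendsto (fun x => A x - U x • (1 : Matrix ι ι ℂ)) F
        (𝓝 (A x₀ - u₁ • (1 : Matrix ι ι ℂ))) := hAF.sub (hUF.smul tendsto_const_nhds)
    have h5 : Continuous (fun M : Matrix ι ι ℂ => M.det) := continuous_id.matrix_det
    exact (h5.tendsto _).comp h4
  have h4 : (A x₀ - u₁ • (1 : Matrix ι ι ℂ)).det = 0 := by
    have h5 : (fun x => (A x - U x • (1 : Matrix ι ι ℂ)).det) = fun _ => 0 := by
      funext x
      exact (det_eig _ _).1 (hU x)
    rw [h5] at h3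
    exact tendsto_nhds_unique h3 tendsto_const_nhds
  have h5 : ‖u₁ - b x₀‖ ≤ ε :=
    le_of_tendsto (hUF.sub hbF).norm (Eventually.of_forall hUb)
  rw [← huniq x₀ u₁ ((det_eig _ _).2 h4) h5]
  exact hUF

end Pool.Agent.FLE
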