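import Mathlib

/-!
# FLE-Defs: quantum Chevalley matrices of the complete flag varieties

`Perm (Fin n)` indexes the Schubert basis of `H^*(Fl_n)`; positions are `0, ..., n - 1`, the quantum
parameter `q k` and the fundamental weight `k` belong to the simple transposition of the positions
`k` and `k + 1` (`k < n - 1`).
-/

set_option autoImplicit false

noncomputable section

namespace Pool.Agent.FLE

open Equiv

/-- the number of inversions -/
def inv {n : ℕ} (w : Perm (Fin n)) : ℕ :=
  (Finset.univ.filter (fun p : Fin n × Fin n => p.1 < p.2 ∧ w p.2 < w p.1)).card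

/-- The matrix of the quantum multiplication by `∑ h k ω_k` (quantum Chevalley formula, in terms of
lengths). -/
def qc (n : ℕ) (q h : ℕ → ℂ) : Matrix (Perm (Fin n)) (Perm (Fin n)) ℂ := fun u w =>
  ∑ p : Fin n × Fin n, if p.1 < p.2 ∧ u = w * swap p.1 p.2 then
    (∑ k ∈ Finset.Ico p.1.val p.2.val, h k) *
      ((if inv u = inv w + 1 then 1 else 0) +
        (if inv u + 2 * (p.2.val - p.1.val) = inv w + 1 then
          ∏ k ∈ Finset.Ico p.1.val p.2.val, q k else 0))
    else 0

/-- `w < w * swap a c` is a cover of the Bruhat order (for `a < c`) -/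
def Up {n : ℕ} (w : Perm (Fin n)) (a c : Fin n) : Prop :=
  w a < w c ∧ ∀ b, a < b → b < c → ¬(w a < w b ∧ w b < w c)

/-- `w → w * swap a c` is a quantum edge (for `a < c`) -/
def Dn {n : ℕ} (w : Perm (Fin n)) (a c : Fin n) : Prop :=
  w c < w a ∧ ∀ b, a < b → b < c → w c < w b ∧ w b < w a

open Classical in
/-- The matrix of the quantum multiplication by `∑ h k ω_k`, local form. -/
def M (n : ℕ) (q h : ℕ → ℂ) : Matrix (Perm (Fin n)) (Perm (Fin n)) ℂ := fun u w =>
  ∑ p : Fin n × Fin n, if p.1 < p.2 ∧ u = w * swap p.1 p.2 then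
    (∑ k ∈ Finset.Ico p.1.val p.2.val, h k) *
      ((if Up w p.1 p.2 then 1 else 0) +
        (if Dn w p.1 p.2 then ∏ k ∈ Finset.Ico p.1.val p.2.val, q k else 0))
    else 0

/-- the weight `c_1 = 2 ρ` -/
def two : ℕ → ℂ := fun _ => 2

/-- the last fundamental weight of `Fl_(l+2)` -/
def ind (l : ℕ) : ℕ → ℂ := fun k => if k = l then 1 else 0

/-- the matrix of `c_1` on `Fl_(l+1)` -/
def E (l : ℕ) (q : ℕ → ℂ) : Matrix (Perm (Fin (l + 1))) (Perm (Fin (l + 1))) ℂ :=
  M (l + 1) q two

/-- The quantum multiplication by the class of the long cycle: `w ↦ q_a ... q_(l-1) (c w)`, where `a`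
is the position of the largest value and `c` is the cycle `i ↦ i + 1`. -/
def T (l : ℕ) (q : ℕ → ℂ) : Matrix (Perm (Fin (l + 1))) (Perm (Fin (l + 1))) ℂ := fun u w =>
  if u = finRotate (l + 1) * w then ∏ k ∈ Finset.Ico (w⁻¹ (Fin.last l)).val l, q k else 0

/-- the permutation with last value `v` whose other values have the relative order of `w` -/
def ins {m : ℕ} (v : Fin (m + 1)) (w : Perm (Fin m)) : Perm (Fin (m + 1)) :=
  (finSuccEquiv' (Fin.last m)).trans ((optionCongr w).trans (finSuccEquiv' v).symm)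

end Pool.Agent.FLE
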