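import Pool.Agent.FLE.Bd

/-!
# FLE-FDEFS: definitions for the Fourier transform
-/

set_option autoImplicit false

noncomputable section

namespace Pool.Agent.FLE

variable {l : ℕ} {W : Type}

/-- the columns `(r, J)` are `∑ v, ω r J ^ v e_v ⊗ P J` -/
def V0 (ω : Fin (l + 2) → W → ℂ) (P : Matrix W W ℂ) :
    Matrix (Fin (l + 2) × W) (Fin (l + 2) × W) ℂ :=
  fun p r => ω r.1 r.2 ^ p.1.val * P p.2 r.2

/-- the inverse of `V0` -/
def W0 (ω : Fin (l + 2) → W → ℂ) (P' : Matrix W W ℂ) :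
    Matrix (Fin (l + 2) × W) (Fin (l + 2) × W) ℂ :=
  fun r p => ((l : ℂ) + 2)⁻¹ * ((ω r.1 r.2)⁻¹ ^ p.1.val * P' r.2 p.2)

/-- block diagonal matrix with equal blocks -/
def dg (l : ℕ) (X : Matrix W W ℂ) : Matrix (Fin (l + 2) × W) (Fin (l + 2) × W) ℂ :=
  fun p r => if p.1 = r.1 then X p.2 r.2 else 0

/-- the blocks `X v` from `v + 1` to `v` and the block `Y` from `0` to the last one -/
def kk (X : Fin (l + 1) → Matrix W W ℂ) (Y : Matrix W W ℂ) :
    Matrix (Fin (l + 2) × W) (Fin (l + 2) × W) ℂ :=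
  fun p r => (∑ v : Fin (l + 1), if p.1 = v.castSucc ∧ r.1 = v.succ then X v p.2 r.2 else 0) +
    (if p.1 = Fin.last (l + 1) ∧ r.1 = 0 then Y p.2 r.2 else 0)

open Classical in
/-- the blocks `κ T` from `v` to `v + 1` and the identity from the last one to `0` -/
def tt (l : ℕ) (κ : ℂ) (T : Matrix W W ℂ) : Matrix (Fin (l + 2) × W) (Fin (l + 2) × W) ℂ :=
  fun p r => (if p.1.val = r.1.val + 1 then κ * T p.2 r.2 else 0) +
    (if r.1 = Fin.last (l + 1) ∧ p.1 = 0 ∧ p.2 = r.2 then 1 else 0)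

end Pool.Agent.FLE
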