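import Mathlib

/-!
# FLE-ROOTS: roots of unity

PLAN.  `ζ = exp (2 π i / n)` is a primitive `n`-th root of unity (`Complex.isPrimitiveRoot_exp`).
`roots_exist`: choose `η` with `η ^ n = z` (`IsAlgClosed.exists_pow_nat_eq`), `‖η‖ = 1`, put
`ω r = η * ζ ^ r`; if `η' ^ n = z` then `(η' / η) ^ n = 1`, so `η' / η = ζ ^ r` for some `r < n`
(`IsPrimitiveRoot.eq_pow_of_pow_eq_one`).
`roots_gap`: the finite set of the `n`-th roots of unity different from `1`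
(`Polynomial.nthRoots`/`rootsOfUnity` finite, or `{ζ ^ r : 0 < r < n}`) has a positive distance `μ`
from `1`; `‖z - z'‖ = ‖z' / z - 1‖` as `‖z‖ = 1`.
`geo`: `ζ := x⁻¹ * y` satisfies `ζ ^ n = 1`, `ζ ≠ 1`; `Fin.sum_univ_eq_sum_range`, `geom_sum_eq` or
`mul_geom_sum`.
-/

set_option autoImplicit false

noncomputable section

namespace Pool.Agent.FLE

theorem roots_exist {n : ℕ} (hn : 0 < n) {z : ℂ} (hz : ‖z‖ = 1) :
    ∃ ω : Fin n → ℂ, (∀ r, ω r ^ n = z) ∧ (∀ r, ‖ω r‖ = 1) ∧ Function.Injective ω ∧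
      ∀ η, η ^ n = z → ∃ r, ω r = η := by
  obtain ⟨η, hη⟩ := IsAlgClosed.exists_pow_nat_eq z hn
  have hn0 : n ≠ 0 := hn.ne'
  set ζ : ℂ := Complex.exp (2 * Real.pi * Complex.I / n) with hζ
  have hp : IsPrimitiveRoot ζ n := Complex.isPrimitiveRoot_exp n hn0
  have hη1 : ‖η‖ = 1 := by
    have h1 : ‖η‖ ^ n = 1 := by rw [← norm_pow, hη, hz]
    exact (pow_eq_one_iff_of_nonneg (norm_nonneg _) hn0).1 h1
  have hζ1 : ‖ζ‖ = 1 := by
    have h1 : ‖ζ‖ ^ n = 1 := by rw [← norm_pow, hp.pow_eq_one, norm_one]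
    exact (pow_eq_one_iff_of_nonneg (norm_nonneg _) hn0).1 h1
  have hη0 : η ≠ 0 := by
    intro h
    rw [h, norm_zero] at hη1
    exact zero_ne_one hη1
  refine ⟨fun r => η * ζ ^ (r : ℕ), ?_, ?_, ?_, ?_⟩
  · intro r
    show (η * ζ ^ (r : ℕ)) ^ n = z
    rw [mul_pow, hη, ← pow_mul, mul_comm (r : ℕ) n, pow_mul, hp.pow_eq_one, one_pow, mul_one]
  · intro r
    show ‖η * ζ ^ (r : ℕ)‖ = 1
    rw [norm_mul, norm_pow, hη1, hζ1, one_pow, mul_one]
  · intro r r' h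
    have h1 : ζ ^ (r : ℕ) = ζ ^ (r' : ℕ) := mul_left_cancel₀ hη0 h
    exact Fin.ext (hp.pow_inj r.2 r'.2 h1)
  · intro η' h'
    have h1 : (η' / η) ^ n = 1 := by
      rw [div_pow, h', hη]
      have hz0 : z ≠ 0 := by
        intro h
        rw [h, norm_zero] at hz
        exact zero_ne_one hz
      exact div_self hz0
    have : NeZero n := ⟨hn0⟩
    obtain ⟨r, hr, h2⟩ := hp.eq_pow_of_pow_eq_one h1
    refine ⟨⟨r, hr⟩, ?_⟩
    show η * ζ ^ r = η'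
    rw [h2, mul_div_cancel₀ _ hη0]

theorem roots_gap (n : ℕ) : ∃ μ > 0, ∀ z z' : ℂ, ‖z‖ = 1 → z ^ n = z' ^ n → z ≠ z' → 0 < n →
    μ ≤ ‖z - z'‖ := by
  classical
  rcases Nat.eq_zero_or_pos n with hn | hn
  · exact ⟨1, one_pos, fun z z' _ _ _ h => absurd h (by omega)⟩
  have hfin : ∀ S : Finset ℂ, (∀ w ∈ S, w ≠ 1) → ∃ μ > 0, ∀ w ∈ S, μ ≤ ‖1 - w‖ := by
    intro S
    induction S using Finset.induction_on with
    | empty =>
      intro _
      exact ⟨1, one_pos, fun w hw => absurd hw (Finset.notMem_empty w)⟩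
    | insert a S ha ih =>
      intro h
      obtain ⟨μ, hμ, h1⟩ := ih fun w hw => h w (Finset.mem_insert_of_mem hw)
      have ha1 : a ≠ 1 := h a (Finset.mem_insert_self _ _)
      have h2 : 0 < ‖1 - a‖ := norm_pos_iff.2 (sub_ne_zero.2 ha1.symm)
      refine ⟨min μ ‖1 - a‖, lt_min hμ h2, fun w hw => ?_⟩
      rcases Finset.mem_insert.1 hw with rfl | hw
      · exact min_le_right _ _
      · exact (min_le_left _ _).trans (h1 w hw)
  obtain ⟨μ, hμ, h1⟩ := hfin ((Polynomial.nthRootsFinset n (1 : ℂ)).erase 1)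
    (fun w hw => Finset.ne_of_mem_erase hw)
  refine ⟨μ, hμ, fun z z' hz h hne _ => ?_⟩
  have hz0 : z ≠ 0 := by
    intro h0
    rw [h0, norm_zero] at hz
    exact zero_ne_one hz
  have h2 : (z' / z) ^ n = 1 := by
    rw [div_pow, ← h]
    exact div_self (pow_ne_zero _ hz0)
  have h3 : z' / z ≠ 1 := by
    intro h4
    rw [div_eq_one_iff_eq hz0] at h4
    exact hne h4.symm
  have h4 := h1 (z' / z) (Finset.mem_erase.2 ⟨h3, (Polynomial.mem_nthRootsFinset hn (1 : ℂ)).2 h2⟩)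
  have h5 : ‖z - z'‖ = ‖1 - z' / z‖ := by
    have h6 : z - z' = z * (1 - z' / z) := by
      field_simp
    rw [h6, norm_mul, hz, one_mul]
  rw [h5]
  exact h4

theorem geo {n : ℕ} {x y : ℂ} (hx : x ≠ 0) (h : x ^ n = y ^ n) (hxy : x ≠ y) :
    ∑ v : Fin n, x⁻¹ ^ v.val * y ^ v.val = 0 := by
  have h1 : ∀ v : Fin n, x⁻¹ ^ v.val * y ^ v.val = (x⁻¹ * y) ^ v.val := fun v => (mul_pow _ _ _).symm
  rw [Finset.sum_congr rfl fun v _ => h1 v, Fin.sum_univ_eq_sum_range (fun k => (x⁻¹ * y) ^ k) n]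
  have h2 : (x⁻¹ * y) ^ n = 1 := by
    rw [mul_pow, ← h, ← mul_pow, inv_mul_cancel₀ hx, one_pow]
  have h3 : x⁻¹ * y - 1 ≠ 0 := by
    intro h4
    have h5 : x⁻¹ * y = 1 := sub_eq_zero.1 h4
    apply hxy
    have h6 : x * (x⁻¹ * y) = x * 1 := by rw [h5]
    rw [mul_one, mul_inv_cancel_left₀ hx] at h6
    exact h6.symm
  have h4 := geom_sum_mul (x⁻¹ * y) n
  rw [h2, sub_self] at h4
  exact (mul_eq_zero.1 h4).resolve_right h3

end Pool.Agent.FLE
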