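import Pool.Agent.FLE.FDefs
import Pool.Agent.FLE.Roots

/-!
# FLE-FOURA: the Fourier transform, part 1
-/

set_option autoImplicit false

noncomputable section

namespace Pool.Agent.FLE

variable {l : ℕ} {W : Type} [Fintype W] [DecidableEq W] {ω : Fin (l + 2) → W → ℂ} {z c : W → ℂ}
  {P P' : Matrix W W ℂ}

theorem four_gen (ω : Fin (l + 2) → W → ℂ) (P P' : Matrix W W ℂ)
    (B : Fin (l + 2) → Fin (l + 2) → Matrix W W ℂ) (X : Matrix (Fin (l + 2) × W) (Fin (l + 2) × W) ℂ)
    (hX : ∀ p r, X p r = B p.1 r.1 p.2 r.2) (r r' : Fin (l + 2)) (J J' : W) :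
    (W0 ω P' * X * V0 ω P) (r, J) (r', J') = ((l : ℂ) + 2)⁻¹ * ∑ v', ∑ v,
      (ω r J)⁻¹ ^ (v' : Fin (l + 2)).val * ω r' J' ^ (v : Fin (l + 2)).val *
        (P' * B v' v * P) J J' := by
  simp only [Matrix.mul_apply, Fintype.sum_prod_type, hX, W0, V0, Finset.sum_mul, Finset.mul_sum]
  conv_rhs => rw [Finset.sum_comm]
  refine Finset.sum_congr rfl fun v _ => ?_
  rw [Finset.sum_comm]
  refine Finset.sum_congr rfl fun v' _ => ?_
  refine Finset.sum_congr rfl fun k' _ => ?_
  refine Finset.sum_congr rfl fun k _ => ?_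
  ring

theorem four_dg (hω : ∀ r J, ω r J ^ (l + 2) = z J) (h0 : ∀ r J, ω r J ≠ 0)
    (hi : ∀ J r r', r ≠ r' → ω r J ≠ ω r' J) {X : Matrix W W ℂ}
    (hX : P' * X * P = Matrix.diagonal c) :
    W0 ω P' * dg l X * V0 ω P = Matrix.diagonal (fun p => c p.2) := by
  ext ⟨r, J⟩ ⟨r', J'⟩
  rw [four_gen ω P P' (fun v' v => if v' = v then X else 0) (dg l X)]
  · have e : ∀ v' v : Fin (l + 2), (P' * (if v' = v then X else 0) * P) J J' =
        if v' = v then (if J = J' then c J else 0) else 0 := by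
      intro v' v
      by_cases hv : v' = v
      · rw [if_pos hv, if_pos hv, hX, Matrix.diagonal_apply]
      · rw [if_neg hv, if_neg hv]
        simp
    simp only [e]
    simp only [mul_ite, mul_zero]
    simp only [Finset.sum_ite_eq, Finset.mem_univ, if_true]
    rw [Matrix.diagonal_apply]
    by_cases hJ : J = J'
    · subst hJ
      simp only [if_true]
      rw [← Finset.sum_mul]
      by_cases hr : r = r'
      · subst hr
        rw [if_pos rfl]
        have e2 : ∀ v : Fin (l + 2), (ω r J)⁻¹ ^ v.val * ω r J ^ v.val = 1 := by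
          intro v
          rw [← mul_pow, inv_mul_cancel₀ (h0 r J), one_pow]
        simp only [e2]
        have h2 : ((l : ℂ) + 2) ≠ 0 := by
          have : ((l + 2 : ℕ) : ℂ) ≠ 0 := by exact_mod_cast (by omega : l + 2 ≠ 0)
          push_cast at this
          exact this
        simp only [Finset.sum_const, Finset.card_univ, Fintype.card_fin, nsmul_eq_mul, mul_one]
        push_cast
        rw [← mul_assoc, inv_mul_cancel₀ h2, one_mul]
      · have hg := geo (h0 r J) (x := ω r J) (y := ω r' J) (n := l + 2)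
          (by rw [hω, hω]) (hi J r r' hr)
        rw [hg, zero_mul, mul_zero, if_neg]
        intro e3
        exact hr (congrArg Prod.fst e3)
    · simp only [if_neg hJ, Finset.sum_const_zero, mul_zero]
      rw [if_neg]
      intro e3
      exact hJ (congrArg Prod.snd e3)
  · intro p q
    by_cases h : p.1 = q.1
    · simp [dg, h]
    · simp [dg, h]

theorem four_one (hω : ∀ r J, ω r J ^ (l + 2) = z J) (h0 : ∀ r J, ω r J ≠ 0)
    (hi : ∀ J r r', r ≠ r' → ω r J ≠ ω r' J) (hP : P' * P = 1) :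
    W0 ω P' * V0 ω P = 1 := by
  have h1 : dg l (1 : Matrix W W ℂ) = 1 := by
    ext ⟨p1, p2⟩ ⟨q1, q2⟩
    simp only [dg, Matrix.one_apply, Prod.mk.injEq]
    by_cases h : p1 = q1
    · by_cases h' : p2 = q2
      · simp [h, h']
      · simp [h, h']
    · simp [h]
  have h2 : P' * (1 : Matrix W W ℂ) * P = Matrix.diagonal (fun _ => (1 : ℂ)) := by
    rw [Matrix.mul_one, hP, Matrix.diagonal_one]
  have h3 := four_dg (ω := ω) (z := z) hω h0 hi h2
  rw [h1, Matrix.mul_one] at h3
  rw [h3]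
  exact Matrix.diagonal_one

theorem four_bd (h1 : ∀ r J, ‖ω r J‖ = 1) {b : ℝ} (hb : Bd P b) (hb' : Bd P' b) :
    Bd (V0 ω P) b ∧ Bd (W0 ω P') b := by
  constructor
  · intro p q
    rw [V0, norm_mul, norm_pow, h1, one_pow, one_mul]
    exact hb _ _
  · intro p q
    rw [W0, norm_mul, norm_mul, norm_pow, norm_inv, norm_inv, h1, inv_one, one_pow, one_mul]
    have h3 : ‖((l : ℂ) + 2)‖ = (l : ℝ) + 2 := by
      have : ((l : ℂ) + 2) = ((l + 2 : ℕ) : ℂ) := by push_cast; ring
      rw [this, Complex.norm_natCast]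
      push_cast
      ring
    rw [h3]
    have h4 : ((l : ℝ) + 2)⁻¹ ≤ 1 := by
      apply inv_le_one_of_one_le₀
      have : (0 : ℝ) ≤ l := Nat.cast_nonneg l
      linarith
    calc ((l : ℝ) + 2)⁻¹ * ‖P' p.2 q.2‖ ≤ 1 * ‖P' p.2 q.2‖ :=
          mul_le_mul_of_nonneg_right h4 (norm_nonneg _)
      _ = ‖P' p.2 q.2‖ := one_mul _
      _ ≤ b := hb' _ _

end Pool.Agent.FLE
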