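import Pool.Agent.FLE.FourA

/-!
# FLE-FOURB: the Fourier transform, part 2
-/

set_option autoImplicit false

noncomputable section

namespace Pool.Agent.FLE

variable {l : ℕ} {W : Type} [Fintype W] [DecidableEq W] {ω : Fin (l + 2) → W → ℂ} {z c : W → ℂ}
  {P P' : Matrix W W ℂ}

private theorem dbl {n : ℕ} (F : Fin n → Fin n → ℂ) (α β : Fin n) (x : ℂ) :
    ∑ v', ∑ v, F v' v * (if v' = α ∧ v = β then x else 0) = F α β * x := by
  rw [Finset.sum_eq_single α]
  · rw [Finset.sum_eq_single β]
    · simp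
    · intro v _ hv
      simp [hv]
    · intro h
      exact absurd (Finset.mem_univ _) h
  · intro v _ hv
    refine Finset.sum_eq_zero fun w _ => ?_
    simp [hv]
  · intro h
    exact absurd (Finset.mem_univ _) h

private theorem dbl_sum {n m : ℕ} (F : Fin n → Fin n → ℂ) (α β : Fin m → Fin n) (x : Fin m → ℂ)
    (α' β' : Fin n) (x' : ℂ) :
    ∑ v', ∑ v, F v' v * ((∑ u, if v' = α u ∧ v = β u then x u else 0) +
      (if v' = α' ∧ v = β' then x' else 0)) = ∑ u, F (α u) (β u) * x u + F α' β' * x' := by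
  have h : ∀ v' v, F v' v * ((∑ u, if v' = α u ∧ v = β u then x u else 0) +
      (if v' = α' ∧ v = β' then x' else 0)) =
      (∑ u, F v' v * (if v' = α u ∧ v = β u then x u else 0)) +
        F v' v * (if v' = α' ∧ v = β' then x' else 0) := by
    intro v' v
    rw [mul_add, Finset.mul_sum]
  simp only [h, Finset.sum_add_distrib, dbl]
  congr 1
  have h2 : ∀ v', ∑ v, ∑ u, F v' v * (if v' = α u ∧ v = β u then x u else 0) =
      ∑ u, ∑ v, F v' v * (if v' = α u ∧ v = β u then x u else 0) := fun v' => Finset.sum_comm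
  simp only [h2]
  rw [Finset.sum_comm]
  refine Finset.sum_congr rfl fun u _ => ?_
  exact dbl F (α u) (β u) (x u)

private theorem ne_two (l : ℕ) : ((l : ℂ) + 2) ≠ 0 := by
  have : ((l + 2 : ℕ) : ℂ) ≠ 0 := by exact_mod_cast (by omega : l + 2 ≠ 0)
  push_cast at this
  exact this

private theorem geo_all (hω : ∀ r J, ω r J ^ (l + 2) = z J) (h0 : ∀ r J, ω r J ≠ 0)
    (hi : ∀ J r r', r ≠ r' → ω r J ≠ ω r' J) (r r' : Fin (l + 2)) (J : W) :
    ∑ v : Fin (l + 2), (ω r J)⁻¹ ^ v.val * ω r' J ^ v.val = if r = r' then (l : ℂ) + 2 else 0 := by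
  by_cases hr : r = r'
  · subst hr
    rw [if_pos rfl]
    have e2 : ∀ v : Fin (l + 2), (ω r J)⁻¹ ^ v.val * ω r J ^ v.val = 1 := by
      intro v
      rw [← mul_pow, inv_mul_cancel₀ (h0 r J), one_pow]
    simp only [e2]
    simp only [Finset.sum_const, Finset.card_univ, Fintype.card_fin, nsmul_eq_mul, mul_one]
    push_cast
    ring
  · rw [if_neg hr]
    exact geo (h0 r J) (x := ω r J) (y := ω r' J) (n := l + 2) (by rw [hω, hω]) (hi J r r' hr)

theorem four_kk (hω : ∀ r J, ω r J ^ (l + 2) = z J) (h0 : ∀ r J, ω r J ≠ 0)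
    (hi : ∀ J r r', r ≠ r' → ω r J ≠ ω r' J) {X : Fin (l + 1) → Matrix W W ℂ} {Y : Matrix W W ℂ}
    (hX : ∀ v J, (P' * X v * P) J J = l + 2) (hY : ∀ J, (P' * Y * P) J J = (l + 2) * z J)
    (r r' : Fin (l + 2)) (J : W) :
    (W0 ω P' * kk X Y * V0 ω P) (r, J) (r', J) = if r = r' then (l + 2) * ω r J else 0 := by
  rw [four_gen ω P P' (fun v' v => (∑ u : Fin (l + 1), if v' = u.castSucc ∧ v = u.succ then X u
    else 0) + (if v' = Fin.last (l + 1) ∧ v = 0 then Y else 0)) (kk X Y)]
  · have e : ∀ v' v : Fin (l + 2), (P' * ((∑ u : Fin (l + 1),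
        if v' = u.castSucc ∧ v = u.succ then X u else 0) +
        (if v' = Fin.last (l + 1) ∧ v = 0 then Y else 0)) * P) J J =
        (∑ u : Fin (l + 1), if v' = u.castSucc ∧ v = u.succ then ((l : ℂ) + 2) else 0) +
        (if v' = Fin.last (l + 1) ∧ v = 0 then ((l : ℂ) + 2) * z J else 0) := by
      intro v' v
      rw [Matrix.mul_add, Matrix.add_mul, Matrix.add_apply, Matrix.mul_sum, Matrix.sum_mul,
        Matrix.sum_apply]
      congr 1
      · refine Finset.sum_congr rfl fun u _ => ?_
        by_cases hu : v' = u.castSucc ∧ v = u.succ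
        · rw [if_pos hu, if_pos hu, hX]
        · rw [if_neg hu, if_neg hu]
          simp
      · by_cases hu : v' = Fin.last (l + 1) ∧ v = 0
        · rw [if_pos hu, if_pos hu, hY]
        · rw [if_neg hu, if_neg hu]
          simp
    simp only [e]
    rw [dbl_sum (fun v' v => (ω r J)⁻¹ ^ v'.val * ω r' J ^ v.val)]
    have hg := geo_all hω h0 hi r r' J
    rw [Fin.sum_univ_castSucc] at hg
    have hz : z J = ω r' J ^ (l + 1) * ω r' J := by rw [← hω r' J, pow_succ]
    have h2 := ne_two l
    have key : ∑ u : Fin (l + 1), (ω r J)⁻¹ ^ (u.castSucc : Fin (l + 2)).val *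
          ω r' J ^ (u.succ : Fin (l + 2)).val * ((l : ℂ) + 2) +
        (ω r J)⁻¹ ^ (Fin.last (l + 1)).val * ω r' J ^ (0 : Fin (l + 2)).val *
          (((l : ℂ) + 2) * z J) =
        ((l : ℂ) + 2) * (ω r' J * (∑ u : Fin (l + 1), (ω r J)⁻¹ ^ (u.castSucc : Fin (l + 2)).val *
          ω r' J ^ (u.castSucc : Fin (l + 2)).val +
          (ω r J)⁻¹ ^ (Fin.last (l + 1)).val * ω r' J ^ (Fin.last (l + 1)).val)) := by
      rw [mul_add, mul_add, Finset.mul_sum, Finset.mul_sum, hz]
      congr 1
      · refine Finset.sum_congr rfl fun u _ => ?_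
        simp only [Fin.val_castSucc, Fin.val_succ, pow_succ]
        ring
      · simp only [Fin.val_last, Fin.val_zero, pow_zero]
        ring
    rw [key, hg, ← mul_assoc, inv_mul_cancel₀ h2, one_mul]
    by_cases hr : r = r'
    · subst hr
      rw [if_pos rfl, if_pos rfl]
      ring
    · rw [if_neg hr, if_neg hr, mul_zero]
  · intro p q
    simp only [kk, Matrix.add_apply, Matrix.sum_apply]
    congr 1
    · refine Finset.sum_congr rfl fun u _ => ?_
      by_cases hu : p.1 = u.castSucc ∧ q.1 = u.succ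
      · rw [if_pos hu, if_pos hu]
      · rw [if_neg hu, if_neg hu]
        rfl
    · by_cases hu : p.1 = Fin.last (l + 1) ∧ q.1 = 0
      · rw [if_pos hu, if_pos hu]
      · rw [if_neg hu, if_neg hu]
        rfl

private theorem val_sum {R : Type} [AddCommMonoid R] (C : R) (v' v : Fin (l + 2)) :
    (if v'.val = v.val + 1 then C else 0) =
      ∑ u : Fin (l + 1), if v' = u.succ ∧ v = u.castSucc then C else 0 := by
  by_cases h : v'.val = v.val + 1
  · rw [if_pos h]
    have hv : v.val < l + 1 := by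
      have := v'.isLt
      omega
    rw [Finset.sum_eq_single (⟨v.val, hv⟩ : Fin (l + 1))]
    · rw [if_pos]
      constructor
      · apply Fin.ext
        simpa using h
      · apply Fin.ext
        simp
    · intro u _ hu
      rw [if_neg]
      rintro ⟨h1, h2⟩
      apply hu
      apply Fin.ext
      have h8 := congrArg Fin.val h2
      simpa using h8.symm
    · intro h
      exact absurd (Finset.mem_univ _) h
  · rw [if_neg h]
    symm
    refine Finset.sum_eq_zero fun u _ => ?_
    rw [if_neg]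
    rintro ⟨h1, h2⟩
    apply h
    rw [h1, h2]
    simp

theorem four_tt (hω : ∀ r J, ω r J ^ (l + 2) = z J) (h0 : ∀ r J, ω r J ≠ 0)
    (hi : ∀ J r r', r ≠ r' → ω r J ≠ ω r' J) (hP : P' * P = 1) {κ : ℂ} {a : W → ℂ}
    {T : Matrix W W ℂ} (hT : P' * T * P = Matrix.diagonal a) (ha : ∀ J, κ * a J = z J) :
    W0 ω P' * tt l κ T * V0 ω P = Matrix.diagonal (fun p => ω p.1 p.2 ^ (l + 1)) := by
  classical
  ext ⟨r, J⟩ ⟨r', J'⟩
  rw [four_gen ω P P' (fun v' v => (∑ u : Fin (l + 1), if v' = u.succ ∧ v = u.castSucc then κ • T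
    else 0) + (if v' = 0 ∧ v = Fin.last (l + 1) then 1 else 0)) (tt l κ T)]
  · have e : ∀ v' v : Fin (l + 2), (P' * ((∑ u : Fin (l + 1),
        if v' = u.succ ∧ v = u.castSucc then κ • T else 0) +
        (if v' = 0 ∧ v = Fin.last (l + 1) then 1 else 0)) * P) J J' =
        (∑ u : Fin (l + 1), if v' = u.succ ∧ v = u.castSucc then
          (if J = J' then z J else 0) else 0) +
        (if v' = 0 ∧ v = Fin.last (l + 1) then (if J = J' then (1 : ℂ) else 0) else 0) := by
      intro v' v
      rw [Matrix.mul_add, Matrix.add_mul, Matrix.add_apply, Matrix.mul_sum, Matrix.sum_mul,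
        Matrix.sum_apply]
      congr 1
      · refine Finset.sum_congr rfl fun u _ => ?_
        by_cases hu : v' = u.succ ∧ v = u.castSucc
        · rw [if_pos hu, if_pos hu, Matrix.mul_smul, Matrix.smul_mul, hT, Matrix.smul_apply,
            Matrix.diagonal_apply, smul_eq_mul]
          by_cases hJ : J = J'
          · rw [if_pos hJ, if_pos hJ, ha]
          · rw [if_neg hJ, if_neg hJ, mul_zero]
        · rw [if_neg hu, if_neg hu]
          simp
      · by_cases hu : v' = 0 ∧ v = Fin.last (l + 1)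
        · rw [if_pos hu, if_pos hu, Matrix.mul_one, hP, Matrix.one_apply]
        · rw [if_neg hu, if_neg hu]
          simp
    simp only [e]
    rw [dbl_sum (fun v' v => (ω r J)⁻¹ ^ v'.val * ω r' J' ^ v.val), Matrix.diagonal_apply]
    by_cases hJ : J = J'
    · subst hJ
      simp only [if_true]
      have hg := geo_all hω h0 hi r r' J
      rw [Fin.sum_univ_castSucc] at hg
      have hz : z J = ω r J ^ (l + 1) * ω r J := by rw [← hω r J, pow_succ]
      have h2 := ne_two l
      have h3 : ω r J * (ω r J)⁻¹ = 1 := mul_inv_cancel₀ (h0 r J)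
      have h4 : ω r J ^ (l + 1) * (ω r J)⁻¹ ^ (l + 1) = 1 := by
        rw [← mul_pow, h3, one_pow]
      have key : ∑ u : Fin (l + 1), (ω r J)⁻¹ ^ (u.succ : Fin (l + 2)).val *
            ω r' J ^ (u.castSucc : Fin (l + 2)).val * z J +
          (ω r J)⁻¹ ^ (0 : Fin (l + 2)).val * ω r' J ^ (Fin.last (l + 1)).val * 1 =
          (ω r J ^ (l + 1) * (∑ u : Fin (l + 1), (ω r J)⁻¹ ^ (u.castSucc : Fin (l + 2)).val *
            ω r' J ^ (u.castSucc : Fin (l + 2)).val +
            (ω r J)⁻¹ ^ (Fin.last (l + 1)).val * ω r' J ^ (Fin.last (l + 1)).val)) := by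
        rw [mul_add, Finset.mul_sum, hz]
        congr 1
        · refine Finset.sum_congr rfl fun u _ => ?_
          simp only [Fin.val_castSucc, Fin.val_succ, pow_succ]
          linear_combination ((ω r J)⁻¹ ^ u.val * ω r' J ^ u.val * (ω r J ^ l * ω r J)) * h3
        · simp only [Fin.val_last, Fin.val_zero, pow_zero]
          linear_combination (-(ω r' J ^ (l + 1))) * h4
      rw [key, hg]
      by_cases hr : r = r'
      · subst hr
        rw [if_pos rfl, if_pos rfl, mul_comm (ω r J ^ (l + 1)), ← mul_assoc, inv_mul_cancel₀ h2,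
          one_mul]
      · rw [if_neg hr, mul_zero, mul_zero, if_neg]
        intro e3
        exact hr (congrArg Prod.fst e3)
    · simp only [if_neg hJ, mul_zero, Finset.sum_const_zero, add_zero]
      rw [if_neg]
      intro e3
      exact hJ (congrArg Prod.snd e3)
  · intro p q
    simp only [tt, Matrix.add_apply]
    congr 1
    · have h5 := val_sum (κ • T) p.1 q.1
      rw [← h5]
      by_cases hu : p.1.val = q.1.val + 1
      · rw [if_pos hu, if_pos hu, Matrix.smul_apply, smul_eq_mul]
      · rw [if_neg hu, if_neg hu]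
        rfl
    · by_cases hu : p.1 = 0 ∧ q.1 = Fin.last (l + 1)
      · rw [if_pos hu, Matrix.one_apply]
        by_cases h6 : p.2 = q.2
        · rw [if_pos ⟨hu.2, hu.1, h6⟩, if_pos h6]
        · rw [if_neg (fun h7 => h6 h7.2.2), if_neg h6]
      · rw [if_neg hu, if_neg (fun h7 => hu ⟨h7.2.1, h7.1⟩)]
        rfl

end Pool.Agent.FLE
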