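import Mathlib

/-!
# FLE-GER: eigenvectors of a small perturbation of a diagonal matrix
-/

set_option autoImplicit false

noncomputable section

namespace Pool.Agent.FLE

/-- the contraction -/
private def gerΨ {ι : Type} [Fintype ι] [DecidableEq ι] (lam : ι → ℂ) (D : Matrix ι ι ℂ) (i : ι)
    (v : ι → ℂ) : ι → ℂ :=
  fun k => if k = i then 1 else D.mulVec v k / (lam i + D.mulVec v i - lam k)

private theorem mulVec_bd {ι : Type} [Fintype ι] {D : Matrix ι ι ℂ} {ε : ℝ}
    (hD : ∀ i, ∑ j, ‖D i j‖ ≤ ε) (v : ι → ℂ) (k : ι) : ‖D.mulVec v k‖ ≤ ε * ‖v‖ := by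
  calc ‖D.mulVec v k‖ ≤ ∑ j, ‖D k j * v j‖ := norm_sum_le _ _
    _ ≤ ∑ j, ‖D k j‖ * ‖v‖ := Finset.sum_le_sum fun j _ => by
        rw [norm_mul]
        exact mul_le_mul_of_nonneg_left (norm_le_pi_norm v j) (norm_nonneg _)
    _ = (∑ j, ‖D k j‖) * ‖v‖ := by rw [Finset.sum_mul]
    _ ≤ ε * ‖v‖ := mul_le_mul_of_nonneg_right (hD k) (norm_nonneg _)

private theorem ger_one {ι : Type} [Fintype ι] [DecidableEq ι] (lam : ι → ℂ) (D : Matrix ι ι ℂ)
    {ε g : ℝ} (hg : 0 < g) (hgap : ∀ i j, i ≠ j → g ≤ ‖lam i - lam j‖) (hε : 8 * ε ≤ g)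
    (hD : ∀ i, ∑ j, ‖D i j‖ ≤ ε) (i : ι) :
    ∃ (u : ℂ) (v : ι → ℂ), ‖u - lam i‖ ≤ ε ∧ v i = 1 ∧ (∀ k, k ≠ i → ‖v k‖ ≤ 2 * ε / g) ∧
      (Matrix.diagonal lam + D).mulVec v = u • v := by
  have hε0 : 0 ≤ ε := (Finset.sum_nonneg fun j _ => norm_nonneg (D i j)).trans (hD i)
  have hN : ∀ v : ι → ℂ, ‖v‖ ≤ 1 → ∀ k, ‖D.mulVec v k‖ ≤ ε := fun v hv k =>
    (mulVec_bd hD v k).trans (by nlinarith)
  have hN' : ∀ (v v' : ι → ℂ) k, ‖D.mulVec v k - D.mulVec v' k‖ ≤ ε * ‖v - v'‖ := by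
    intro v v' k
    have h := mulVec_bd hD (v - v') k
    rwa [Matrix.mulVec_sub, Pi.sub_apply] at h
  have hden : ∀ v : ι → ℂ, ‖v‖ ≤ 1 → ∀ k, k ≠ i → 7 / 8 * g ≤ ‖lam i + D.mulVec v i - lam k‖ := by
    intro v hv k hk
    have h1 : lam i - lam k = (lam i + D.mulVec v i - lam k) - D.mulVec v i := by ring
    have h2 := hgap i k (Ne.symm hk)
    rw [h1] at h2
    have h3 := h2.trans (norm_sub_le _ _)
    have h4 := hN v hv i
    linarith
  have hval : ∀ v : ι → ℂ, ‖v‖ ≤ 1 → ∀ k, k ≠ i →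
      ‖D.mulVec v k / (lam i + D.mulVec v i - lam k)‖ ≤ 8 / 7 * ε / g := by
    intro v hv k hk
    have h1 := hden v hv k hk
    have h2 := hN v hv k
    have h3 : 0 < ‖lam i + D.mulVec v i - lam k‖ := lt_of_lt_of_le (by positivity) h1
    rw [norm_div, div_le_div_iff₀ h3 hg]
    nlinarith
  have hεg : ε / g ≤ 1 / 8 := by
    rw [div_le_div_iff₀ hg (by norm_num)]
    linarith
  have hmaps : Set.MapsTo (gerΨ lam D i) (Metric.closedBall 0 1) (Metric.closedBall 0 1) := by
    intro v hv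
    rw [mem_closedBall_zero_iff] at hv ⊢
    rw [pi_norm_le_iff_of_nonneg zero_le_one]
    intro k
    unfold gerΨ
    by_cases hk : k = i
    · rw [if_pos hk, norm_one]
    · rw [if_neg hk]
      refine (hval v hv k hk).trans ?_
      have : 8 / 7 * ε / g = 8 / 7 * (ε / g) := by ring
      rw [this]
      linarith
  have hlip : ∀ v v' : ι → ℂ, ‖v‖ ≤ 1 → ‖v'‖ ≤ 1 →
      ‖gerΨ lam D i v - gerΨ lam D i v'‖ ≤ 1 / 2 * ‖v - v'‖ := by
    intro v v' hv hv'
    rw [pi_norm_le_iff_of_nonneg (by positivity)]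
    intro k
    rw [Pi.sub_apply]
    unfold gerΨ
    by_cases hk : k = i
    · rw [if_pos hk, if_pos hk, sub_self, norm_zero]
      positivity
    · rw [if_neg hk, if_neg hk]
      have h1 := hden v hv k hk
      have h1' := hden v' hv' k hk
      have h2 := hN v' hv' k
      have hs : lam i + D.mulVec v i - lam k ≠ 0 := by
        intro h
        rw [h, norm_zero] at h1
        linarith
      have hs' : lam i + D.mulVec v' i - lam k ≠ 0 := by
        intro h
        rw [h, norm_zero] at h1'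
        linarith
      have h3 : D.mulVec v k / (lam i + D.mulVec v i - lam k) -
          D.mulVec v' k / (lam i + D.mulVec v' i - lam k) =
          (D.mulVec v k - D.mulVec v' k) / (lam i + D.mulVec v i - lam k) +
          D.mulVec v' k / (lam i + D.mulVec v' i - lam k) *
            ((D.mulVec v' i - D.mulVec v i) / (lam i + D.mulVec v i - lam k)) := by
        field_simp
        ring
      have hq : ∀ a : ℂ, ‖a‖ ≤ ε * ‖v - v'‖ → ‖a / (lam i + D.mulVec v i - lam k)‖ ≤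
          1 / 7 * ‖v - v'‖ := by
        intro a ha
        rw [norm_div, div_le_iff₀ (norm_pos_iff.2 hs)]
        have h4 : 0 ≤ ‖v - v'‖ := norm_nonneg _
        calc ‖a‖ ≤ ε * ‖v - v'‖ := ha
          _ ≤ (g / 8) * ‖v - v'‖ := mul_le_mul_of_nonneg_right (by linarith) h4
          _ = 1 / 7 * ‖v - v'‖ * (7 / 8 * g) := by ring
          _ ≤ _ := mul_le_mul_of_nonneg_left h1 (by positivity)
      rw [h3]
      have h4 := hq _ (hN' v v' k)
      have h5 := hq (D.mulVec v' i - D.mulVec v i) (by rw [norm_sub_rev]; exact hN' v v' i)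
      have h6 : ‖D.mulVec v' k / (lam i + D.mulVec v' i - lam k)‖ ≤ 1 / 7 := by
        refine (hval v' hv' k hk).trans ?_
        have : 8 / 7 * ε / g = 8 / 7 * (ε / g) := by ring
        rw [this]
        linarith
      refine (norm_add_le _ _).trans ?_
      rw [norm_mul]
      have h7 : 0 ≤ ‖v - v'‖ := norm_nonneg _
      have h8 := mul_le_mul h6 h5 (norm_nonneg _) (by norm_num)
      linarith
  have hc : ContractingWith (1 / 2) (hmaps.restrict (gerΨ lam D i) _ _) := by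
    refine ⟨by norm_num, LipschitzWith.of_dist_le_mul fun x y => ?_⟩
    have hx := mem_closedBall_zero_iff.1 x.2
    have hy := mem_closedBall_zero_iff.1 y.2
    rw [Subtype.dist_eq, Subtype.dist_eq, dist_eq_norm, dist_eq_norm]
    have h := hlip x y hx hy
    simpa using h
  obtain ⟨v, hv, hfix, -⟩ := hc.exists_fixedPoint' (x := 0) Metric.isClosed_closedBall.isComplete hmaps
    (by rw [mem_closedBall_zero_iff, norm_zero]; exact zero_le_one) (edist_ne_top _ _)
  rw [mem_closedBall_zero_iff] at hv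
  have hvi : v i = 1 := by
    have h := congrFun hfix i
    rw [← h]
    unfold gerΨ
    rw [if_pos rfl]
  have hvk : ∀ k, k ≠ i → v k = D.mulVec v k / (lam i + D.mulVec v i - lam k) := by
    intro k hk
    have h := congrFun hfix k
    unfold gerΨ at h
    rw [if_neg hk] at h
    exact h.symm
  refine ⟨lam i + D.mulVec v i, v, ?_, hvi, ?_, ?_⟩
  · rw [add_sub_cancel_left]
    exact hN v hv i
  · intro k hk
    rw [hvk k hk]
    refine (hval v hv k hk).trans ?_
    rw [div_le_div_iff_of_pos_right hg]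
    linarith
  · funext k
    rw [Matrix.add_mulVec, Pi.add_apply, Matrix.mulVec_diagonal, Pi.smul_apply, smul_eq_mul]
    by_cases hk : k = i
    · rw [hk, hvi]
      ring
    · have hs : lam i + D.mulVec v i - lam k ≠ 0 := by
        intro h
        have h1 := hden v hv k hk
        rw [h, norm_zero] at h1
        linarith
      have h2 := hvk k hk
      rw [eq_div_iff hs] at h2
      linear_combination -h2

theorem ger {ι : Type} [Fintype ι] [DecidableEq ι] (lam : ι → ℂ) (D : Matrix ι ι ℂ) {ε g : ℝ}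
    (hg : 0 < g) (hgap : ∀ i j, i ≠ j → g ≤ ‖lam i - lam j‖) (hε : 8 * ε ≤ g)
    (hD : ∀ i, ∑ j, ‖D i j‖ ≤ ε) :
    ∃ (u : ι → ℂ) (Z : Matrix ι ι ℂ), (∀ i, ‖u i - lam i‖ ≤ ε) ∧ (∀ i, Z i i = 1) ∧
      (∀ i k, k ≠ i → ‖Z k i‖ ≤ 2 * ε / g) ∧
      (Matrix.diagonal lam + D) * Z = Z * Matrix.diagonal u := by
  choose u v h1 h2 h3 h4 using ger_one lam D hg hgap hε hD
  refine ⟨u, Matrix.of fun k i => v i k, h1, h2, h3, ?_⟩
  ext k i
  rw [Matrix.mul_diagonal]
  have h := congrFun (h4 i) k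
  rw [Pi.smul_apply, smul_eq_mul, mul_comm] at h
  exact h

end Pool.Agent.FLE
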