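import Pool.Agent.FLE.Defs

/-!
# FLE-INS: permutations with given last value
-/

set_option autoImplicit false

noncomputable section

namespace Pool.Agent.FLE

open Equiv

variable {m : ℕ}

@[simp] theorem ins_last (v : Fin (m + 1)) (w : Perm (Fin m)) : ins v w (Fin.last m) = v := by
  simp [ins]

@[simp] theorem ins_castSucc (v : Fin (m + 1)) (w : Perm (Fin m)) (i : Fin m) :
    ins v w i.castSucc = v.succAbove (w i) := by
  simp [ins, finSuccEquiv'_last_apply_castSucc]

theorem ins_inj {v v' : Fin (m + 1)} {w w' : Perm (Fin m)} :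
    ins v w = ins v' w' ↔ v = v' ∧ w = w' := by
  constructor
  · intro h
    have h1 : v = v' := by
      rw [← ins_last v w, h, ins_last]
    subst h1
    refine ⟨rfl, Equiv.ext fun i => ?_⟩
    have h2 := congrArg (fun f : Perm (Fin (m + 1)) => f i.castSucc) h
    simp only [ins_castSucc] at h2
    exact Fin.succAbove_right_injective h2
  · rintro ⟨rfl, rfl⟩
    rfl

theorem ins_surj (u : Perm (Fin (m + 1))) : ∃ v w, u = ins v w := by
  have h1 : Function.Injective (fun p : Fin (m + 1) × Perm (Fin m) => ins p.1 p.2) :=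
    fun p p' h => Prod.ext (ins_inj.mp h).1 (ins_inj.mp h).2
  have h2 : Function.Bijective (fun p : Fin (m + 1) × Perm (Fin m) => ins p.1 p.2) := by
    rw [Fintype.bijective_iff_injective_and_card]
    refine ⟨h1, ?_⟩
    rw [Fintype.card_prod, Fintype.card_perm, Fintype.card_perm, Fintype.card_fin,
      Fintype.card_fin, Nat.factorial_succ]
  obtain ⟨p, hp⟩ := h2.2 u
  exact ⟨p.1, p.2, hp.symm⟩

/-- `(v, w) ↦ ins v w` -/
def insEquiv (m : ℕ) : Fin (m + 1) × Perm (Fin m) ≃ Perm (Fin (m + 1)) :=
  Equiv.ofBijective (fun p => ins p.1 p.2)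
    ⟨fun p p' h => Prod.ext (ins_inj.mp h).1 (ins_inj.mp h).2, fun u => by
      obtain ⟨v, w, h⟩ := ins_surj u
      exact ⟨(v, w), h.symm⟩⟩

@[simp] theorem insEquiv_apply (m : ℕ) (p : Fin (m + 1) × Perm (Fin m)) :
    insEquiv m p = ins p.1 p.2 := rfl

theorem sum_perm {A : Type} [AddCommMonoid A] (f : Perm (Fin (m + 1)) → A) :
    ∑ u, f u = ∑ v, ∑ w, f (ins v w) := by
  rw [← (insEquiv m).sum_comp f, Fintype.sum_prod_type]
  rfl

theorem ins_mul_swap (v : Fin (m + 1)) (w : Perm (Fin m)) (a c : Fin m) :
    ins v w * swap a.castSucc c.castSucc = ins v (w * swap a c) := by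
  refine Equiv.ext (fun i => ?_)
  rw [Perm.mul_apply]
  refine Fin.lastCases ?_ (fun i => ?_) i
  · rw [swap_apply_of_ne_of_ne (Fin.castSucc_lt_last a).ne' (Fin.castSucc_lt_last c).ne',
      ins_last, ins_last]
  · rw [ins_castSucc, Perm.mul_apply]
    have h : swap a.castSucc c.castSucc i.castSucc = (swap a c i).castSucc := by
      rw [swap_apply_def, swap_apply_def]
      simp only [Fin.castSucc_inj]
      split_ifs <;> rfl
    rw [h, ins_castSucc]

theorem rot_ins_castSucc {l : ℕ} (v : Fin (l + 1)) (w : Perm (Fin (l + 1))) :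
    finRotate (l + 2) * ins v.castSucc w = ins v.succ (finRotate (l + 1) * w) := by
  refine Equiv.ext (fun i => ?_)
  rw [Perm.mul_apply]
  refine Fin.lastCases ?_ (fun i => ?_) i
  · rw [ins_last, ins_last, finRotate_succ_apply]
    ext
    rw [Fin.val_add_one_of_lt (Fin.castSucc_lt_last v)]
    simp
  · rw [ins_castSucc, ins_castSucc, Perm.mul_apply]
    generalize w i = y
    rw [finRotate_succ_apply, finRotate_succ_apply]
    rcases Fin.lt_or_ge y.castSucc v.castSucc with h | h
    · -- y < v
      have hy : y < v := h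
      rw [Fin.succAbove_of_castSucc_lt _ _ h]
      have hyl : y < Fin.last l := lt_of_lt_of_le hy (Fin.le_last v)
      have h1 : (y + 1).val = y.val + 1 := Fin.val_add_one_of_lt hyl
      rw [Fin.succAbove_of_castSucc_lt]
      · ext
        rw [Fin.val_add_one_of_lt (Fin.castSucc_lt_last y), Fin.val_castSucc, Fin.val_castSucc, h1]
      · rw [Fin.lt_def, Fin.val_castSucc, h1, Fin.val_succ]
        have : y.val < v.val := hy
        omega
    · rw [Fin.succAbove_of_le_castSucc _ _ h]
      have hy : v.val ≤ y.val := h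
      by_cases hyl : y = Fin.last l
      · subst hyl
        rw [Fin.succ_last, Fin.last_add_one, Fin.last_add_one, Fin.succAbove_of_castSucc_lt]
        · rfl
        · rw [Fin.lt_def]
          simp
      · have hyl' : y < Fin.last l := lt_of_le_of_ne (Fin.le_last y) hyl
        have h1 : (y + 1).val = y.val + 1 := Fin.val_add_one_of_lt hyl'
        have hys : y.succ < Fin.last (l + 1) := by
          rw [Fin.lt_def, Fin.val_succ, Fin.val_last]
          have : y.val < l := hyl'
          omega
        rw [Fin.succAbove_of_le_castSucc]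
        · ext
          rw [Fin.val_add_one_of_lt hys, Fin.val_succ, Fin.val_succ, h1]
        · rw [Fin.le_def, Fin.val_succ, Fin.val_castSucc, h1]
          omega

theorem rot_ins_last {l : ℕ} (w : Perm (Fin (l + 1))) :
    finRotate (l + 2) * ins (Fin.last (l + 1)) w = ins 0 w := by
  refine Equiv.ext (fun i => ?_)
  rw [Perm.mul_apply]
  refine Fin.lastCases ?_ (fun i => ?_) i
  · rw [ins_last, ins_last, finRotate_last]
  · rw [ins_castSucc, ins_castSucc, Fin.succAbove_last, Fin.zero_succAbove, finRotate_succ_apply]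
    ext
    rw [Fin.val_add_one_of_lt (Fin.castSucc_lt_last _)]
    simp

end Pool.Agent.FLE
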