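import Pool.Agent.FLE.Defs

/-!
# FLE-INV: the length form and the local form of the quantum Chevalley formula agree

Both sums are compared pair by pair.
-/

set_option autoImplicit false

noncomputable section

namespace Pool.Agent.FLE

open Equiv

private lemma sum_fst {n : ℕ} (a : Fin n) (X : Fin n → ℤ) :
    ∑ i : Fin n, ∑ j : Fin n, (if i = a then X j else 0) = ∑ j, X j := by
  rw [Finset.sum_comm]
  simp

private lemma sum_snd {n : ℕ} (a : Fin n) (X : Fin n → ℤ) :
    ∑ i : Fin n, ∑ j : Fin n, (if j = a then X i else 0) = ∑ i, X i := by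
  simp

private lemma pt {n : ℕ} (g : Fin n → Fin n → ℤ) {a c : Fin n} (hac : a < c) (i j : Fin n) :
    g i j * ((if swap a c i < swap a c j then 1 else 0) - (if i < j then 1 else 0)) =
      - (if i = a then (if j = c then g a c else 0) else 0)
      + (if i = c then (if j = a then g c a else 0) else 0)
      - (if i = a then (if a < j ∧ j < c then g a j else 0) else 0)
      + (if i = c then (if a < j ∧ j < c then g c j else 0) else 0)
      + (if j = a then (if a < i ∧ i < c then g i a else 0) else 0)
      - (if j = c then (if a < i ∧ i < c then g i c else 0) else 0) := by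
  have hne : a ≠ c := hac.ne
  have hca : ¬ c < a := hac.asymm
  by_cases hia : i = a
  · subst hia
    by_cases hja : j = i
    · subst hja
      simp [hne]
    · by_cases hjc : j = c
      · subst hjc
        simp [hne, hne.symm, hac, hca]
      · rw [swap_apply_left, swap_apply_of_ne_of_ne hja hjc]
        simp only [hja, hjc, hne, if_true, if_false, and_self]
        rcases lt_trichotomy j i with h | h | h
        · have h1 : ¬ c < j := (h.trans hac).asymm
          have h2 : ¬ i < j := h.asymm
          simp [h1, h2]
        · exact absurd h hja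
        · rcases lt_trichotomy j c with h' | h' | h'
          · simp [h, h', h'.asymm]
          · exact absurd h' hjc
          · simp [h, h', h'.asymm]
  · by_cases hic : i = c
    · subst hic
      by_cases hjc : j = i
      · subst hjc
        simp [hne, hne.symm]
      · by_cases hja : j = a
        · subst hja
          simp [hne, hne.symm, hac, hca]
        · rw [swap_apply_right, swap_apply_of_ne_of_ne hja hjc]
          simp only [hja, hjc, hia, if_true, if_false, and_self]
          rcases lt_trichotomy j i with h | h | h
          · rcases lt_trichotomy j a with h' | h' | h'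
            · simp [h, h', h'.asymm, h.asymm]
            · exact absurd h' hja
            · simp [h, h', h.asymm]
          · exact absurd h hjc
          · have h1 : a < j := hac.trans h
            simp [h1, h, h.asymm]
    · rw [swap_apply_of_ne_of_ne hia hic]
      by_cases hja : j = a
      · subst hja
        rw [swap_apply_left]
        simp only [hia, hic, hne, if_true, if_false, and_self]
        rcases lt_trichotomy i j with h | h | h
        · have h1 : i < c := h.trans hac
          simp [h, h1, h.asymm]
        · exact absurd h hia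
        · rcases lt_trichotomy i c with h' | h' | h'
          · simp [h, h', h.asymm]
          · exact absurd h' hic
          · simp [h, h', h.asymm, h'.asymm]
      · by_cases hjc : j = c
        · subst hjc
          rw [swap_apply_right]
          simp only [hia, hic, hne.symm, if_true, if_false, and_self]
          rcases lt_trichotomy i a with h | h | h
          · have h1 : i < j := h.trans hac
            simp [h, h1, h.asymm]
          · exact absurd h hia
          · rcases lt_trichotomy i j with h' | h' | h'
            · simp [h, h', h.asymm]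
            · exact absurd h' hic
            · simp [h, h.asymm, h'.asymm]
        · rw [swap_apply_of_ne_of_ne hja hjc]
          simp [hia, hic, hja, hjc]

private lemma inv_sum {n : ℕ} (w : Perm (Fin n)) :
    (inv w : ℤ) = ∑ i : Fin n, ∑ j : Fin n,
      (if w j < w i then (1 : ℤ) else 0) * (if i < j then 1 else 0) := by
  unfold inv
  rw [Finset.card_filter, Fintype.sum_prod_type]
  push_cast
  refine Finset.sum_congr rfl fun i _ => Finset.sum_congr rfl fun j _ => ?_
  by_cases h1 : i < j <;> by_cases h2 : w j < w i <;> simp [h1, h2]

private lemma inv_sum_swap {n : ℕ} (w : Perm (Fin n)) (s : Perm (Fin n)) (hs : ∀ i, s (s i) = i) :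
    (inv (w * s) : ℤ) = ∑ i : Fin n, ∑ j : Fin n,
      (if w j < w i then (1 : ℤ) else 0) * (if s i < s j then 1 else 0) := by
  rw [inv_sum]
  rw [← Equiv.sum_comp s]
  refine Finset.sum_congr rfl fun i _ => ?_
  rw [← Equiv.sum_comp s]
  refine Finset.sum_congr rfl fun j _ => ?_
  rw [Perm.mul_apply, Perm.mul_apply, hs, hs]

theorem inv_mul_swap {n : ℕ} (w : Perm (Fin n)) {a c : Fin n} (hac : a < c) (h : w a < w c) :
    inv (w * swap a c) = inv w + 1 +
      2 * (Finset.univ.filter (fun b : Fin n => a < b ∧ b < c ∧ w a < w b ∧ w b < w c)).card := by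
  obtain ⟨g, hg⟩ : ∃ g : Fin n → Fin n → ℤ, g = fun i j => if w j < w i then 1 else 0 := ⟨_, rfl⟩
  have h1 := inv_sum_swap w (swap a c) (fun i => by simp)
  have h2 := inv_sum w
  have h3 : (inv (w * swap a c) : ℤ) - inv w = ∑ i : Fin n, ∑ j : Fin n,
      g i j * ((if swap a c i < swap a c j then 1 else 0) - (if i < j then 1 else 0)) := by
    rw [h1, h2, ← Finset.sum_sub_distrib]
    refine Finset.sum_congr rfl fun i _ => ?_
    rw [← Finset.sum_sub_distrib]
    refine Finset.sum_congr rfl fun j _ => ?_
    rw [hg]
    ring
  have h4 : (inv (w * swap a c) : ℤ) - inv w = - g a c + g c a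
      - (∑ b, if a < b ∧ b < c then g a b else 0) + (∑ b, if a < b ∧ b < c then g c b else 0)
      + (∑ b, if a < b ∧ b < c then g b a else 0) - (∑ b, if a < b ∧ b < c then g b c else 0) := by
    rw [h3]
    simp only [pt g hac, Finset.sum_add_distrib, Finset.sum_sub_distrib, Finset.sum_neg_distrib]
    rw [sum_fst a (fun j => if j = c then g a c else 0),
      sum_fst c (fun j => if j = a then g c a else 0),
      sum_fst a (fun j => if a < j ∧ j < c then g a j else 0),
      sum_fst c (fun j => if a < j ∧ j < c then g c j else 0),
      sum_snd a (fun i => if a < i ∧ i < c then g i a else 0),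
      sum_snd c (fun i => if a < i ∧ i < c then g i c else 0)]
    simp
  have e1 : g a c = 0 := by rw [hg]; simp [h.asymm]
  have e2 : g c a = 1 := by rw [hg]; simp [h]
  have e3 : - (∑ b, if a < b ∧ b < c then g a b else 0) + (∑ b, if a < b ∧ b < c then g c b else 0)
      + (∑ b, if a < b ∧ b < c then g b a else 0) - (∑ b, if a < b ∧ b < c then g b c else 0) =
      2 * ((Finset.univ.filter
        (fun b : Fin n => a < b ∧ b < c ∧ w a < w b ∧ w b < w c)).card : ℤ) := by
    rw [Finset.card_filter]
    push_cast
    rw [Finset.mul_sum, ← Finset.sum_neg_distrib, ← Finset.sum_add_distrib,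
      ← Finset.sum_add_distrib, ← Finset.sum_sub_distrib]
    refine Finset.sum_congr rfl fun b _ => ?_
    by_cases hb : a < b ∧ b < c
    · have n1 : w b ≠ w a := fun h => hb.1.ne' (w.injective h)
      have n2 : w b ≠ w c := fun h => hb.2.ne (w.injective h)
      rw [hg]
      simp only [hb, if_true, and_self, true_and]
      rcases lt_trichotomy (w b) (w a) with k | k | k
      · have k1 : w b < w c := k.trans h
        simp [k, k1, k.asymm, k1.asymm]
      · exact absurd k n1
      · rcases lt_trichotomy (w b) (w c) with k' | k' | k'
        · simp [k, k', k.asymm, k'.asymm]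
        · exact absurd k' n2
        · simp [k, k', k.asymm, k'.asymm]
    · have hb' : ¬ (a < b ∧ b < c ∧ w a < w b ∧ w b < w c) := fun h => hb ⟨h.1, h.2.1⟩
      simp [hb, hb']
  have h5 : (inv (w * swap a c) : ℤ) = inv w + 1 + 2 * ((Finset.univ.filter
      (fun b : Fin n => a < b ∧ b < c ∧ w a < w b ∧ w b < w c)).card : ℤ) := by
    rw [← e3]
    linarith
  exact_mod_cast h5

private lemma up_iff {n : ℕ} (w : Perm (Fin n)) {a c : Fin n} (hac : a < c) :
    (inv (w * swap a c) = inv w + 1 ↔ Up w a c) ∧
    (inv (w * swap a c) + 2 * (c.val - a.val) = inv w + 1 ↔ Dn w a c) := by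
  have hac' : a.val < c.val := hac
  rcases lt_trichotomy (w a) (w c) with h | h | h
  · have h1 := inv_mul_swap w hac h
    refine ⟨?_, ?_⟩
    · constructor
      · intro h2
        have h3 : (Finset.univ.filter
            (fun b : Fin n => a < b ∧ b < c ∧ w a < w b ∧ w b < w c)).card = 0 := by omega
        rw [Finset.card_eq_zero, Finset.filter_eq_empty_iff] at h3
        exact ⟨h, fun b hb1 hb2 hb3 => h3 (Finset.mem_univ b) ⟨hb1, hb2, hb3.1, hb3.2⟩⟩
      · rintro ⟨_, h2⟩
        have h3 : (Finset.univ.filter
            (fun b : Fin n => a < b ∧ b < c ∧ w a < w b ∧ w b < w c)).card = 0 := by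
          rw [Finset.card_eq_zero, Finset.filter_eq_empty_iff]
          rintro b _ ⟨hb1, hb2, hb3, hb4⟩
          exact h2 b hb1 hb2 ⟨hb3, hb4⟩
        omega
    · constructor
      · intro h2
        omega
      · rintro ⟨h2, _⟩
        exact absurd h h2.asymm
  · exact absurd (w.injective h) hac.ne
  · have h1 := inv_mul_swap (w * swap a c) hac (by
      rw [Perm.mul_apply, Perm.mul_apply, swap_apply_left, swap_apply_right]
      exact h)
    rw [mul_assoc, swap_mul_self, mul_one, Perm.mul_apply, Perm.mul_apply, swap_apply_left,
      swap_apply_right] at h1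
    have h2 : (Finset.univ.filter (fun b : Fin n => a < b ∧ b < c ∧ w c < (w * swap a c) b ∧
        (w * swap a c) b < w a)) = (Finset.Ioo a c).filter (fun b => w c < w b ∧ w b < w a) := by
      ext b
      simp only [Finset.mem_filter, Finset.mem_univ, true_and, Finset.mem_Ioo]
      constructor
      · rintro ⟨k1, k2, k3⟩
        rw [Perm.mul_apply, swap_apply_of_ne_of_ne k1.ne' k2.ne] at k3
        exact ⟨⟨k1, k2⟩, k3⟩
      · rintro ⟨⟨k1, k2⟩, k3⟩
        rw [Perm.mul_apply, swap_apply_of_ne_of_ne k1.ne' k2.ne]
        exact ⟨k1, k2, k3⟩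
    rw [h2] at h1
    have h3 : (Finset.Ioo a c).card = c.val - a.val - 1 := Fin.card_Ioo a c
    have h4 := Finset.card_filter_le (Finset.Ioo a c) (fun b => w c < w b ∧ w b < w a)
    refine ⟨?_, ?_⟩
    · constructor
      · intro h5
        omega
      · rintro ⟨h5, _⟩
        exact absurd h h5.asymm
    · constructor
      · intro h5
        have h6 : ((Finset.Ioo a c).filter (fun b => w c < w b ∧ w b < w a)).card =
            (Finset.Ioo a c).card := by omega
        rw [Finset.card_filter_eq_iff] at h6
        exact ⟨h, fun b hb1 hb2 => h6 b (Finset.mem_Ioo.2 ⟨hb1, hb2⟩)⟩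
      · rintro ⟨_, h5⟩
        have h6 : ((Finset.Ioo a c).filter (fun b => w c < w b ∧ w b < w a)).card =
            (Finset.Ioo a c).card := by
          rw [Finset.card_filter_eq_iff]
          intro b hb
          rw [Finset.mem_Ioo] at hb
          exact h5 b hb.1 hb.2
        omega

theorem qc_eq (n : ℕ) (q h : ℕ → ℂ) : qc n q h = M n q h := by
  funext u w
  unfold qc M
  refine Finset.sum_congr rfl fun p _ => ?_
  by_cases hp : p.1 < p.2 ∧ u = w * swap p.1 p.2
  · rw [if_pos hp, if_pos hp]
    obtain ⟨h1, h2⟩ := up_iff w hp.1
    rw [← hp.2] at h1 h2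
    congr 2
    · by_cases hU : Up w p.1 p.2
      · rw [if_pos (h1.2 hU), if_pos hU]
      · rw [if_neg (fun k => hU (h1.1 k)), if_neg hU]
    · by_cases hU : Dn w p.1 p.2
      · rw [if_pos (h2.2 hU), if_pos hU]
      · rw [if_neg (fun k => hU (h2.1 k)), if_neg hU]
  · rw [if_neg hp, if_neg hp]

end Pool.Agent.FLE
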