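import Pool.Agent.FLE.Step
import Pool.Agent.FLE.Cont

/-!
# FLE-MAIN: the nested spectrum of `c_1` on the complete flag varieties
-/

set_option autoImplicit false

noncomputable section

namespace Pool.Agent.FLE

open Equiv

/-- the quantum parameters with moduli `σ k` and phases `x k` -/
def qq (σ : ℕ → ℝ) (x : ℕ → ℝ) : ℕ → ℂ := fun k => σ k * Complex.exp (x k * Complex.I)

/-- the angle of the `k`-th polygon -/
def th (k : ℕ) (x : ℕ → ℝ) : ℝ :=
  (∑ i ∈ Finset.range (k + 1), ((i : ℝ) + 1) * x i) / (((k : ℝ) + 1) * (k + 2))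

/-- the argument of the eigenvalue of `T l` -/
def ang (l : ℕ) (x : ℕ → ℝ) : ℝ := (∑ i ∈ Finset.range l, ((i : ℝ) + 1) * x i) / ((l : ℝ) + 1)

theorem th_mul_one (k : ℕ) (x : ℕ → ℝ) : ((k : ℝ) + 1) * th k x = ang (k + 1) x := by
  unfold th ang
  have h1 : (k : ℝ) + 1 ≠ 0 := by positivity
  have h2 : (k : ℝ) + 2 ≠ 0 := by positivity
  have h3 : ((k + 1 : ℕ) : ℝ) + 1 ≠ 0 := by positivity
  push_cast at h3 ⊢
  field_simp
  ring

theorem th_mul_two (k : ℕ) (x : ℕ → ℝ) : ((k : ℝ) + 2) * th k x = x k + ang k x := by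
  unfold th ang
  rw [Finset.sum_range_succ]
  have h1 : (k : ℝ) + 1 ≠ 0 := by positivity
  have h2 : (k : ℝ) + 2 ≠ 0 := by positivity
  field_simp
  ring

theorem th_cont (k : ℕ) : Continuous (th k) := by
  unfold th
  fun_prop

theorem x_per {k : ℕ} {x x' : ℕ → ℝ}
    (h : ∀ i ≤ k, ∃ m : ℤ, th i x' - th i x = 2 * Real.pi * m) :
    ∀ i ≤ k, ∃ m : ℤ, x' i - x i = 2 * Real.pi * m := by
  intro i hi
  obtain ⟨m, hm⟩ := h i hi
  rcases Nat.eq_zero_or_pos i with h0 | h0
  · subst h0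
    refine ⟨2 * m, ?_⟩
    have e1 := th_mul_two 0 x
    have e2 := th_mul_two 0 x'
    simp only [ang, Finset.range_zero, Finset.sum_empty, zero_div, Nat.cast_zero] at e1 e2
    push_cast
    linear_combination e1 - e2 + 2 * hm
  · obtain ⟨j, rfl⟩ := Nat.exists_eq_succ_of_ne_zero h0.ne'
    obtain ⟨m', hm'⟩ := h j (by omega)
    refine ⟨((j : ℤ) + 3) * m - ((j : ℤ) + 1) * m', ?_⟩
    have e1 := th_mul_two (j + 1) x
    have e2 := th_mul_two (j + 1) x'
    have e3 := th_mul_one j x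
    have e4 := th_mul_one j x'
    push_cast at e1 e2 ⊢
    simp only [Nat.succ_eq_add_one] at hm ⊢
    linear_combination e1 - e2 + (j + 3) * hm - e3 + e4 - (j + 1) * hm'

theorem exp_per {a a' : ℝ} {m : ℤ} (h : a' - a = 2 * Real.pi * m) :
    Complex.exp (a' * Complex.I) = Complex.exp (a * Complex.I) := by
  have h1 : (a' : ℂ) * Complex.I = a * Complex.I + m * (2 * Real.pi * Complex.I) := by
    have : a' = a + 2 * Real.pi * m := by linarith
    rw [this]
    push_cast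
    ring
  rw [h1]
  exact Complex.exp_periodic.int_mul m _

theorem m_cont {X : Type} [TopologicalSpace X] (n : ℕ) (h : ℕ → ℂ) {q : X → ℕ → ℂ}
    (hq : ∀ k, Continuous fun x => q x k) : Continuous fun x => M n (q x) h := by
  classical
  refine continuous_matrix (fun u w => ?_)
  unfold M
  refine continuous_finsetSum _ (fun p _ => ?_)
  have hp : Continuous fun x => ∏ k ∈ Finset.Ico p.1.val p.2.val, q x k :=
    continuous_finsetProd _ (fun k _ => hq k)
  split_ifs
  all_goals first | exact continuous_const | fun_prop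

theorem Lev.congr {l : ℕ} {q q' : ℕ → ℂ} {b γ α : ℝ}
    {P P' : Matrix (Perm (Fin (l + 1))) (Perm (Fin (l + 1))) ℂ} {c a : Perm (Fin (l + 1)) → ℂ}
    (h : Lev l q b γ α P P' c a) (hq : ∀ k, k < l → q k = q' k) : Lev l q' b γ α P P' c a := by
  have h1 : E l q = E l q' := m_congr (fun k hk => hq k (by omega)) (fun _ _ => rfl)
  have h2 : T l q = T l q' := t_congr hq
  refine ⟨h.inv, ?_, ?_, h.bd, h.bd', h.gap, h.abs⟩
  · rw [← h1]
    exact h.hE
  · rw [← h1, ← h2]
    exact h.hT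

/-- eigenvectors from `Lev` -/
theorem Lev.eig {l : ℕ} {q : ℕ → ℂ} {b γ α : ℝ}
    {P P' : Matrix (Perm (Fin (l + 1))) (Perm (Fin (l + 1))) ℂ} {c a : Perm (Fin (l + 1)) → ℂ}
    (h : Lev l q b γ α P P' c a) (i : Perm (Fin (l + 1))) :
    ∃ v : Perm (Fin (l + 1)) → ℂ, v ≠ 0 ∧ (E l q).mulVec v = c i • v := by
  have h1 : P * P' = 1 := mul_eq_one_comm.mp h.inv
  have h2 : E l q * P = P * Matrix.diagonal c := by
    rw [← h.hE, Matrix.mul_assoc, ← Matrix.mul_assoc P, h1, Matrix.one_mul]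
  refine ⟨fun x => P x i, fun h3 => ?_, ?_⟩
  · have h4 := congrFun (congrFun h.inv i) i
    rw [Matrix.mul_apply, Matrix.one_apply_eq, Finset.sum_eq_zero] at h4
    · exact zero_ne_one h4
    · intro x _
      rw [congrFun h3 x, Pi.zero_apply, mul_zero]
  · funext x
    have h4 := congrFun (congrFun h2 x) i
    rw [Matrix.mul_diagonal, Matrix.mul_apply] at h4
    rw [Matrix.mulVec, Pi.smul_apply, smul_eq_mul, mul_comm (c i), ← h4]
    rfl

theorem Lev.all {l : ℕ} {q : ℕ → ℂ} {b γ α : ℝ}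
    {P P' : Matrix (Perm (Fin (l + 1))) (Perm (Fin (l + 1))) ℂ} {c a : Perm (Fin (l + 1)) → ℂ}
    (h : Lev l q b γ α P P' c a) {u : ℂ}
    (hu : ∃ v : Perm (Fin (l + 1)) → ℂ, v ≠ 0 ∧ (E l q).mulVec v = u • v) : ∃ j, c j = u := by
  obtain ⟨v, hv, hE⟩ := hu
  have h1 : P * P' = 1 := mul_eq_one_comm.mp h.inv
  have h2 : P' * E l q = Matrix.diagonal c * P' := by
    rw [← h.hE, Matrix.mul_assoc, h1, Matrix.mul_one]
  have h3 : P'.mulVec v ≠ 0 := fun h4 => by
    apply hv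
    have h5 : P.mulVec (P'.mulVec v) = v := by
      rw [Matrix.mulVec_mulVec, h1, Matrix.one_mulVec]
    rw [← h5, h4, Matrix.mulVec_zero]
  obtain ⟨j, hj⟩ := Function.ne_iff.mp h3
  refine ⟨j, ?_⟩
  have h4 : (Matrix.diagonal c).mulVec (P'.mulVec v) = u • P'.mulVec v := by
    rw [Matrix.mulVec_mulVec, ← h2, ← Matrix.mulVec_mulVec, hE, Matrix.mulVec_smul]
  have h5 := congrFun h4 j
  rw [Matrix.mulVec_diagonal, Pi.smul_apply, smul_eq_mul] at h5
  exact mul_right_cancel₀ hj h5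

/-- the state of the induction -/
structure St (δ : ℝ) (l : ℕ) (ρ σ : ℕ → ℝ) (g : ℕ → (ℕ → ℝ) → ℂ) (b γ α : ℝ) : Prop where
  ρpos : ∀ k, 0 < ρ k
  σpos : ∀ k, 0 < σ k
  dec : ∀ k, k + 1 < l → ρ (k + 1) ≤ δ * ρ k
  cont : ∀ k < l, Continuous (g k)
  per : ∀ k < l, ∀ x x' : ℕ → ℝ, (∀ i ≤ k, ∃ m : ℤ, th i x' - th i x = 2 * Real.pi * m) →
    g k x' = g k x
  app : ∀ k < l, ∀ x, ‖g k x - ((k : ℂ) + 2) * ρ k * Complex.exp (th k x * Complex.I)‖ ≤ δ * ρ k
  hb : 0 ≤ b
  hγ : 0 < γ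
  hα : 0 < α
  lev : ∀ x, ∃ P P' c a, Lev l (qq σ x) b γ α P P' c a ∧ ∃ i,
    c i = ∑ k ∈ Finset.range l, g k x ∧ a i = α * Complex.exp (ang l x * Complex.I)

theorem st_zero (δ : ℝ) : St δ 0 1 1 0 1 1 1 := by
  have hsub : Subsingleton (Perm (Fin (0 + 1))) := by
    rw [Nat.zero_add]
    infer_instance
  refine ⟨fun _ => one_pos, fun _ => one_pos, fun k hk => absurd hk (by omega),
    fun k hk => absurd hk (by omega), fun k hk => absurd hk (by omega),
    fun k hk => absurd hk (by omega), zero_le_one, one_pos, one_pos, fun x => ?_⟩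
  refine ⟨1, 1, 0, fun _ => 1, ⟨?_, ?_, ?_, ?_, ?_, ?_, ?_⟩, 1, ?_, ?_⟩
  · rw [Matrix.mul_one]
  · rw [Matrix.mul_one, Matrix.one_mul]
    ext u w
    rw [E, M, Finset.sum_eq_zero]
    · simp
    · intro p _
      rw [if_neg]
      rintro ⟨h, _⟩
      have h1 := p.1.isLt
      have h2 := p.2.isLt
      have h3 : p.1.val < p.2.val := h
      omega
  · intro _
    rw [Matrix.mul_one, Matrix.one_mul]
    ext u w
    have h1 : u = w := Subsingleton.elim _ _
    subst h1
    rw [T, if_pos (Subsingleton.elim _ _), Matrix.diagonal_apply_eq]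
    rw [Finset.Ico_eq_empty (by omega), Finset.prod_empty]
  · intro i j
    rw [Subsingleton.elim j i, Matrix.one_apply_eq]
    simp
  · intro i j
    rw [Subsingleton.elim j i, Matrix.one_apply_eq]
    simp
  · intro i j hij
    exact absurd (Subsingleton.elim i j) hij
  · intro i
    simp
  · simp
  · simp [ang]

theorem st_succ {δ : ℝ} (hδ : 0 < δ) {l : ℕ} {ρ σ : ℕ → ℝ} {g : ℕ → (ℕ → ℝ) → ℂ} {b γ α : ℝ}
    (hc : ∀ q h h' : ℕ → ℂ, M (l + 2) q h * M (l + 2) q h' = M (l + 2) q h' * M (l + 2) q h)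
    (h : St δ l ρ σ g b γ α) : ∃ ρ' σ' g' b' γ' α', St δ (l + 1) ρ' σ' g' b' γ' α' := by
  classical
  set S : ℝ := ∑ k ∈ Finset.range l, σ k with hS
  have hS0 : 0 ≤ S := Finset.sum_nonneg (fun k _ => (h.σpos k).le)
  obtain ⟨s₀, hs₀, Cst, hC, hstep⟩ := step l h.hb h.hγ h.hα hS0
  set s : ℝ := min s₀ (min (δ * ρ (l - 1)) (δ / Cst)) with hs
  have hspos : 0 < s := by
    refine lt_min hs₀ (lt_min (mul_pos hδ (h.ρpos _)) (div_pos hδ hC))
  have hs1 : s ≤ s₀ := min_le_left _ _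
  have hs2 : s ≤ δ * ρ (l - 1) := (min_le_right _ _).trans (min_le_left _ _)
  have hs3 : s ≤ δ / Cst := (min_le_right _ _).trans (min_le_right _ _)
  have hs4 : Cst * s ^ 2 ≤ δ * s := by
    have : Cst * s ≤ δ := by
      rw [mul_comm]
      exact (le_div_iff₀ hC).mp hs3
    nlinarith
  obtain ⟨b₁, γ₁, hb₁, hγ₁, hCγ, hmain⟩ := hstep s hspos hs1
  set ρ' := Function.update ρ l s with hρ'
  set σ' := Function.update σ l (s ^ (l + 2) / α) with hσ'
  set B : (ℕ → ℝ) → ℂ := fun x => (∑ k ∈ Finset.range l, g k x) +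
    s * (((l : ℂ) + 2) * Complex.exp (th l x * Complex.I)) with hB
  have hαC : (α : ℂ) ≠ 0 := by exact_mod_cast h.hα.ne'
  have hql : ∀ x, qq σ' x l = Complex.exp (x l * Complex.I) / α * (s : ℂ) ^ (l + 2) := by
    intro x
    simp only [qq, hσ', Function.update_self]
    push_cast
    field_simp
  have hqk : ∀ x k, k < l → qq σ x k = qq σ' x k := by
    intro x k hk
    simp only [qq, hσ', Function.update_of_ne hk.ne]
  have hqn : ∀ x, ∀ k < l, ‖qq σ' x k‖ ≤ S := by
    intro x k hk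
    rw [← hqk x k hk, qq, norm_mul, Complex.norm_real, Real.norm_eq_abs, abs_of_pos (h.σpos k),
      Complex.norm_exp_ofReal_mul_I, mul_one]
    exact Finset.single_le_sum (fun k _ => (h.σpos k).le) (Finset.mem_range.mpr hk)
  have key : ∀ x, ∃ P₁ P₁' c₁ a₁ i₁, Lev (l + 1) (qq σ' x) b₁ γ₁ (s ^ (l + 1)) P₁ P₁' c₁ a₁ ∧
      ‖c₁ i₁ - B x‖ ≤ Cst * s ^ 2 ∧
      a₁ i₁ = ((s ^ (l + 1) : ℝ) : ℂ) * Complex.exp (ang (l + 1) x * Complex.I) := by
    intro x
    obtain ⟨P, P', c, a, hL, i, hci, hai⟩ := h.lev x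
    obtain ⟨P₁, P₁', c₁, a₁, hL₁, hbr⟩ := hmain (qq σ' x) (Complex.exp (x l * Complex.I)) P P' c a
      (hqn x) (Complex.norm_exp_ofReal_mul_I _) (hql x) hc (hL.congr (hqk x))
    obtain ⟨i₁, hi₁, hi₁'⟩ := hbr i (Complex.exp (th l x * Complex.I)) (by
      rw [← Complex.exp_nat_mul, hai]
      have e1 : ((l + 2 : ℕ) : ℂ) * (th l x * Complex.I) =
          x l * Complex.I + ang l x * Complex.I := by
        have := th_mul_two l x
        have h2 : (((l : ℝ) + 2 : ℝ) : ℂ) * (th l x : ℂ) = ((x l + ang l x : ℝ) : ℂ) := by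
          rw [← this]
          push_cast
          ring
        push_cast at h2 ⊢
        linear_combination Complex.I * h2
      rw [e1, Complex.exp_add]
      field_simp)
    refine ⟨P₁, P₁', c₁, a₁, i₁, hL₁, ?_, ?_⟩
    · rw [hci] at hi₁
      exact hi₁
    · rw [hi₁', mul_pow, ← Complex.exp_nat_mul]
      have e1 : ((l + 1 : ℕ) : ℂ) * (th l x * Complex.I) = ang (l + 1) x * Complex.I := by
        have := th_mul_one l x
        have h2 : (((l : ℝ) + 1 : ℝ) : ℂ) * (th l x : ℂ) = ((ang (l + 1) x : ℝ) : ℂ) := by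
          rw [← this]
          push_cast
          ring
        push_cast at h2 ⊢
        linear_combination Complex.I * h2
      rw [e1]
      push_cast
      rfl
  choose P₁ P₁' c₁ a₁ i₁ hL₁ hc₁ ha₁ using key
  set U : (ℕ → ℝ) → ℂ := fun x => c₁ x (i₁ x) with hU
  have huniq : ∀ x u, (∃ v : Perm (Fin (l + 1 + 1)) → ℂ, v ≠ 0 ∧
      (E (l + 1) (qq σ' x)).mulVec v = u • v) → ‖u - B x‖ ≤ Cst * s ^ 2 → u = U x := by
    intro x u hu hub
    obtain ⟨j, hj⟩ := (hL₁ x).all hu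
    by_contra hne
    have hji : j ≠ i₁ x := fun h' => hne (by rw [← hj, h'])
    have h5 := (hL₁ x).gap j (i₁ x) hji
    have h6 : ‖c₁ x j - c₁ x (i₁ x)‖ ≤ 2 * (Cst * s ^ 2) := by
      have e1 : c₁ x j - c₁ x (i₁ x) = (u - B x) - (c₁ x (i₁ x) - B x) := by
        rw [hj]
        ring
      rw [e1]
      refine (norm_sub_le _ _).trans ?_
      linarith [hc₁ x]
    linarith
  have hqc : ∀ k, Continuous fun x => qq σ' x k := by
    intro k
    unfold qq
    fun_prop
  have hBc : Continuous B := by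
    refine (continuous_finsetSum _ (fun k hk => h.cont k (Finset.mem_range.mp hk))).add ?_
    have := th_cont l
    fun_prop
  have hUc : Continuous U :=
    cont_eig (m_cont (l + 1 + 1) two hqc) hBc (fun x => (hL₁ x).eig (i₁ x)) hc₁ huniq
  have hUp : ∀ x x' : ℕ → ℝ, (∀ i ≤ l, ∃ m : ℤ, th i x' - th i x = 2 * Real.pi * m) →
      B x' = B x ∧ U x' = U x := by
    intro x x' hx
    have hBB : B x' = B x := by
      simp only [hB]
      obtain ⟨m, hm⟩ := hx l le_rfl
      rw [exp_per hm]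
      congr 1
      refine Finset.sum_congr rfl (fun k hk => ?_)
      have hk' := Finset.mem_range.mp hk
      exact h.per k hk' x x' (fun i hi => hx i (by omega))
    refine ⟨hBB, ?_⟩
    have hEE : E (l + 1) (qq σ' x') = E (l + 1) (qq σ' x) := by
      refine m_congr (fun k hk => ?_) (fun _ _ => rfl)
      obtain ⟨m, hm⟩ := x_per hx k (by omega)
      simp only [qq]
      rw [exp_per hm]
    refine huniq x (U x') ?_ ?_
    · rw [← hEE]
      exact (hL₁ x').eig (i₁ x')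
    · rw [← hBB]
      exact hc₁ x'
  set g' := Function.update g l (fun x => U x - ∑ k ∈ Finset.range l, g k x) with hg'
  have hg'k : ∀ k, k < l → g' k = g k := fun k hk => Function.update_of_ne hk.ne _ _
  have hg'l : g' l = fun x => U x - ∑ k ∈ Finset.range l, g k x := Function.update_self _ _ _
  have hρ'k : ∀ k, k < l → ρ' k = ρ k := fun k hk => Function.update_of_ne hk.ne _ _
  have hρ'l : ρ' l = s := Function.update_self _ _ _
  refine ⟨ρ', σ', g', b₁, γ₁, s ^ (l + 1), ⟨?_, ?_, ?_, ?_, ?_, ?_, hb₁, hγ₁, by positivity, ?_⟩⟩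
  · intro k
    by_cases hk : k = l
    · rw [hk, hρ'l]
      exact hspos
    · rw [hρ', Function.update_of_ne hk]
      exact h.ρpos k
  · intro k
    by_cases hk : k = l
    · rw [hk, hσ', Function.update_self]
      have := h.hα
      positivity
    · rw [hσ', Function.update_of_ne hk]
      exact h.σpos k
  · intro k hk
    by_cases hkl : k + 1 < l
    · rw [hρ'k _ hkl, hρ'k k (by omega)]
      exact h.dec k hkl
    · have hkl' : l = k + 1 := by omega
      rw [← hkl', hρ'l, hρ'k k (by omega)]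
      have : l - 1 = k := by omega
      rw [← this]
      exact hs2
  · intro k hk
    rcases Nat.lt_succ_iff_lt_or_eq.mp hk with hk | hk
    · rw [hg'k k hk]
      exact h.cont k hk
    · rw [hk, hg'l]
      exact hUc.sub (continuous_finsetSum _ (fun k hk => h.cont k (Finset.mem_range.mp hk)))
  · intro k hk x x' hx
    rcases Nat.lt_succ_iff_lt_or_eq.mp hk with hk | hk
    · rw [hg'k k hk]
      exact h.per k hk x x' hx
    · subst hk
      rw [hg'l]
      simp only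
      rw [(hUp x x' hx).2]
      congr 1
      refine Finset.sum_congr rfl (fun k' hk' => ?_)
      have hk'' := Finset.mem_range.mp hk'
      exact h.per k' hk'' x x' (fun i hi => hx i (by omega))
  · intro k hk x
    rcases Nat.lt_succ_iff_lt_or_eq.mp hk with hk | hk
    · rw [hg'k k hk, hρ'k k hk]
      exact h.app k hk x
    · subst hk
      rw [hg'l, hρ'l]
      refine le_trans (le_of_eq ?_) ((hc₁ x).trans hs4)
      congr 1
      simp only [hB, hU]
      ring
  · intro x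
    refine ⟨P₁ x, P₁' x, c₁ x, a₁ x, hL₁ x, i₁ x, ?_, ha₁ x⟩
    rw [Finset.sum_range_succ, hg'l]
    have : ∑ k ∈ Finset.range l, g' k x = ∑ k ∈ Finset.range l, g k x :=
      Finset.sum_congr rfl (fun k hk => by rw [hg'k k (Finset.mem_range.mp hk)])
    rw [this]
    simp only [hU]
    ring

theorem com_all {r : ℕ} (hc : ∀ q h h' : ℕ → ℂ, M (r + 1) q h * M (r + 1) q h' =
    M (r + 1) q h' * M (r + 1) q h) : ∀ j l, l + j = r → ∀ q h h' : ℕ → ℂ,
      M (l + 1) q h * M (l + 1) q h' = M (l + 1) q h' * M (l + 1) q h := by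
  intro j
  induction j with
  | zero =>
    intro l hl
    have : l = r := by omega
    subst this
    exact hc
  | succ j ih =>
    intro l hl q h h'
    exact com0 (ih (l + 1) (by omega)) q h h'

/-- The spectrum of `c_1` on `Fl_(r+1)` is nested: for all phases `x` of the quantum parameters with
suitable moduli `σ` there is the eigenvalue `∑ k < r, g k x`, `g k x ≈ (k + 2) ρ k e^{i th k x}`. -/
theorem nest_main (r : ℕ) (hc : ∀ q h h' : ℕ → ℂ, M (r + 1) q h * M (r + 1) q h' =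
    M (r + 1) q h' * M (r + 1) q h) {δ : ℝ} (hδ : 0 < δ) :
    ∃ (ρ σ : ℕ → ℝ) (g : ℕ → (ℕ → ℝ) → ℂ), (∀ k, 0 < ρ k) ∧ (∀ k, 0 < σ k) ∧
      (∀ k, k + 1 < r → ρ (k + 1) ≤ δ * ρ k) ∧ (∀ k < r, Continuous (g k)) ∧
      (∀ k < r, ∀ x x' : ℕ → ℝ, (∀ i ≤ k, ∃ m : ℤ, th i x' - th i x = 2 * Real.pi * m) →
        g k x' = g k x) ∧
      (∀ k < r, ∀ x, ‖g k x - ((k : ℂ) + 2) * ρ k * Complex.exp (th k x * Complex.I)‖ ≤ δ * ρ k) ∧
      ∀ x, ∃ v : Perm (Fin (r + 1)) → ℂ, v ≠ 0 ∧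
        (E r (fun k => σ k * Complex.exp (x k * Complex.I))).mulVec v =
          (∑ k ∈ Finset.range r, g k x) • v := by
  have main : ∀ l ≤ r, ∃ ρ σ g b γ α, St δ l ρ σ g b γ α := by
    intro l
    induction l with
    | zero => exact fun _ => ⟨1, 1, 0, 1, 1, 1, st_zero δ⟩
    | succ l ih =>
      intro hl
      obtain ⟨ρ, σ, g, b, γ, α, h⟩ := ih (by omega)
      exact st_succ hδ (com_all hc (r - (l + 1)) (l + 1) (by omega)) h
  obtain ⟨ρ, σ, g, b, γ, α, h⟩ := main r le_rfl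
  refine ⟨ρ, σ, g, h.ρpos, h.σpos, h.dec, h.cont, h.per, h.app, fun x => ?_⟩
  obtain ⟨P, P', c, a, hL, i, hci, _⟩ := h.lev x
  rw [← hci]
  exact hL.eig i

end Pool.Agent.FLE
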