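import Pool.Agent.FLE.Main
import Pool.Agent.FLE.Inv
import Pool.Agent.FLO.NOut

/-!
# FLE-NEST: the nested spectrum in the form of `FLO.NOut`
-/

set_option autoImplicit false

noncomputable section

namespace Pool.Agent.FLE

open Equiv

theorem nest (r : ℕ) (hc : ∀ q h h' : ℕ → ℂ,
    qc (r + 1) q h * qc (r + 1) q h' = qc (r + 1) q h' * qc (r + 1) q h) :
    ∀ δ : ℝ, 0 < δ → FLO.NOut r δ := by
  intro δ hδ
  obtain ⟨ρ, σ, g, h1, h2, h3, h4, h5, h6, h7⟩ := nest_main r (fun q h h' => by
    have := hc q h h'
    rwa [qc_eq, qc_eq] at this) hδ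
  classical
  refine ⟨fun k => if k < r then ρ k else δ ^ (k + 1 - r) * ρ (r - 1), σ, fun k => ?_, h2,
    fun k => ?_, fun k => if k < r then g k else 0, fun k => ?_, fun k x x' hx => ?_,
    fun k hk x => ?_, fun x => ?_⟩
  · simp only
    split_ifs
    · exact h1 k
    · exact mul_pos (pow_pos hδ _) (h1 _)
  · simp only
    by_cases hk : k + 1 < r
    · rw [if_pos hk, if_pos (by omega)]
      exact h3 k hk
    · rw [if_neg hk]
      by_cases hk' : k < r
      · rw [if_pos hk']
        have e1 : k + 1 + 1 - r = 1 := by omega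
        have e2 : r - 1 = k := by omega
        rw [e1, e2, pow_one]
      · rw [if_neg hk']
        have e1 : k + 1 + 1 - r = (k + 1 - r) + 1 := by omega
        rw [e1, pow_succ]
        apply le_of_eq
        ring
  · simp only
    split_ifs with hk
    · exact h4 k hk
    · exact continuous_zero
  · simp only
    split_ifs with hk
    · exact h5 k hk x x' hx
    · rfl
  · simp only
    rw [if_pos hk, if_pos hk, mul_comm Complex.I]
    exact h6 k hk x
  · obtain ⟨v, hv, hE⟩ := h7 x
    refine ⟨v, hv, ?_⟩
    have e1 : ∀ k : ℕ, Complex.exp (Complex.I * (x k : ℂ)) = Complex.exp (x k * Complex.I) :=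
      fun k => by rw [mul_comm]
    simp only [e1]
    rw [hE]
    congr 1
    refine Finset.sum_congr rfl (fun k hk => ?_)
    rw [if_pos (Finset.mem_range.mp hk)]

end Pool.Agent.FLE
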