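import Pool.Agent.FLE.Bd
import Pool.Agent.FLE.Ger

/-!
# FLE-PERT: second order perturbation of a diagonal matrix with multiple eigenvalues

PLAN.  `N = card ι`.  Let `Y i j = K i j / (c j - c i)` if `c i ≠ c j`, `Y i j = 0` otherwise;
`Bd Y (b / γ)`.  Entrywise `diagonal c * Y + K = Y * diagonal c + diagonal κ` (if `c i = c j`, `i ≠ j`,
then `K i j = 0`).  So
`(C + s K + s² R)(1 + s Y) = (1 + s Y)(C + s κ) + s² Q`, `Q = K Y + R + s R Y - Y κ`
(`C = diagonal c`, `κ = diagonal κ`), `Bd Q q₀` with `q₀ = N b²/γ + b + N b²/γ + N b²/γ`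
(`Bd.mul`, `s ≤ 1`; `Bd (diagonal κ) b` since `κ i = K i i`).  If `2 N s b / γ ≤ 1` then
`Bd.inv_one_add` gives `Y₁ = (1 + s Y)⁻¹`, `Bd Y₁ 2`, and
`Y₁ (C + s K + s² R)(1 + s Y) = diagonal lam + D`, `lam = c + s κ`, `D = s² Y₁ Q`,
`Bd D (2 N q₀ s²)`, row sums `≤ ε := 2 N² q₀ s²`.  The gap of `lam`: `≥ γ - 2 s b ≥ γ / 2` if
`c i ≠ c j`, `≥ s μ` otherwise; `g := s μ ≤ γ / 2` for small `s`.  `ger` (needs `8 ε ≤ g`) gives
`u`, `Z = 1 + X`, `Bd X (2 ε / g)`; for small `s` `2 N (2 ε / g) ≤ 1`, so `Z` has an inverse `Z'`,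
`Bd Z' 2`.  `V = (1 + s Y) Z`, `V' = Z' Y₁`.  `V i i = 1 + (s Y Z) i i`, as
`‖(s Y Z) i i‖ ≤ s N (b / γ) 2 < 1` it is not `0`.  Bounds: `Bd (1 + s Y) 2`, `Bd Z 2`, so
`Bd V (4 N)`, `Bd V' (4 N)`.  `‖u i - u j‖ ≥ g - 2 ε ≥ s μ / 2`.  `Cst = 2 N² q₀ + 1`.
Choose `s₀ ≤ 1` such that `2 N s₀ (b + 1) / γ ≤ 1/4`, `4 s₀ b ≤ γ`, `2 s₀ μ ≤ γ`,
`32 N Cst s₀ ≤ μ` etc.
-/

set_option autoImplicit false

noncomputable section

namespace Pool.Agent.FLE

private theorem pe_smul {ι : Type} [Fintype ι] {A : Matrix ι ι ℂ} {a : ℝ} (hA : Bd A a) {s : ℝ} (hs : 0 ≤ s) :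
    Bd ((s : ℂ) • A) (s * a) := by
  have h := hA.smul (s : ℂ)
  rwa [Complex.norm_real, Real.norm_of_nonneg hs] at h

/-- the algebraic identity -/
private theorem pe_id {ι : Type} [Fintype ι] [DecidableEq ι] (c κ : ι → ℂ) (K R : Matrix ι ι ℂ) (s : ℂ)
    (hK : ∀ i j, i ≠ j → c i = c j → K i j = 0) (hκ : ∀ i, K i i = κ i) {Y : Matrix ι ι ℂ}
    (hY : ∀ i j, Y i j = if c i = c j then 0 else K i j / (c j - c i)) :
    (Matrix.diagonal c + s • K + (s ^ 2) • R) * (1 + s • Y) =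
      (1 + s • Y) * (Matrix.diagonal fun i => c i + s * κ i) +
        (s ^ 2) • (K * Y + R + s • (R * Y) - Y * Matrix.diagonal κ) := by
  have h1 : Matrix.diagonal c * Y + K = Y * Matrix.diagonal c + Matrix.diagonal κ := by
    ext i j
    rw [Matrix.add_apply, Matrix.add_apply, Matrix.diagonal_mul, Matrix.mul_diagonal, hY]
    by_cases h : c i = c j
    · rw [if_pos h, mul_zero, zero_mul, zero_add, zero_add]
      by_cases hij : i = j
      · subst hij
        rw [Matrix.diagonal_apply_eq, hκ]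
      · rw [Matrix.diagonal_apply_ne _ hij, hK i j hij h]
    · rw [if_neg h]
      have hij : i ≠ j := fun e => h (by rw [e])
      rw [Matrix.diagonal_apply_ne _ hij, add_zero]
      have h2 : c j - c i ≠ 0 := fun e => h (sub_eq_zero.1 e).symm
      field_simp
      ring
  have h2 : (Matrix.diagonal fun i => c i + s * κ i) = Matrix.diagonal c + s • Matrix.diagonal κ := by
    ext i j
    rw [Matrix.add_apply, Matrix.smul_apply, smul_eq_mul]
    by_cases hij : i = j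
    · subst hij
      rw [Matrix.diagonal_apply_eq, Matrix.diagonal_apply_eq, Matrix.diagonal_apply_eq]
    · rw [Matrix.diagonal_apply_ne _ hij, Matrix.diagonal_apply_ne _ hij, Matrix.diagonal_apply_ne _ hij,
        mul_zero, add_zero]
  have h3 : Matrix.diagonal c * Y = Y * Matrix.diagonal c + Matrix.diagonal κ - K := by
    rw [← h1, add_sub_cancel_right]
  rw [h2]
  simp only [mul_add, add_mul, mul_one, one_mul, Matrix.smul_mul, Matrix.mul_smul, smul_add, smul_sub,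
    smul_smul, h3]
  rw [show s * s = s ^ 2 by ring, show s ^ 2 * s = s * s ^ 2 by ring]
  abel

theorem pert (ι : Type) [Fintype ι] [DecidableEq ι] {γ b μ : ℝ} (hγ : 0 < γ) (hb : 0 ≤ b)
    (hμ : 0 < μ) : ∃ s₀ > 0, ∃ Cst > 0, ∀ s : ℝ, 0 < s → s ≤ s₀ →
      2 * (Cst * s ^ 2) < s * μ / 2 ∧
      ∀ (c κ : ι → ℂ) (K R : Matrix ι ι ℂ), Bd K b → Bd R b →
        (∀ i j, c i ≠ c j → γ ≤ ‖c i - c j‖) → (∀ i j, i ≠ j → c i = c j → K i j = 0) →
        (∀ i, K i i = κ i) → (∀ i j, i ≠ j → c i = c j → μ ≤ ‖κ i - κ j‖) →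
        ∃ (u : ι → ℂ) (V V' : Matrix ι ι ℂ), V' * V = 1 ∧
          V' * (Matrix.diagonal c + (s : ℂ) • K + ((s : ℂ) ^ 2) • R) * V = Matrix.diagonal u ∧
          Bd V (4 * Fintype.card ι) ∧ Bd V' (4 * Fintype.card ι) ∧ (∀ i, V i i ≠ 0) ∧
          (∀ i, ‖u i - (c i + s * κ i)‖ ≤ Cst * s ^ 2) ∧
          ∀ i j, i ≠ j → s * μ / 2 ≤ ‖u i - u j‖ := by
  obtain ⟨N, hN⟩ : ∃ N : ℝ, N = (Fintype.card ι : ℝ) := ⟨_, rfl⟩
  have hN0 : 0 ≤ N := by rw [hN]; exact Nat.cast_nonneg _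
  obtain ⟨y, hy⟩ : ∃ y : ℝ, y = b / γ := ⟨_, rfl⟩
  have hy0 : 0 ≤ y := by rw [hy]; positivity
  obtain ⟨q, hq⟩ : ∃ q : ℝ, q = b + 3 * (N * (b * y)) := ⟨_, rfl⟩
  have hq0 : 0 ≤ q := by rw [hq]; positivity
  obtain ⟨E, hE⟩ : ∃ E : ℝ, E = 2 * N ^ 2 * q := ⟨_, rfl⟩
  have hE0 : 0 ≤ E := by rw [hE]; positivity
  obtain ⟨s₀, hs₀⟩ : ∃ s₀ : ℝ, s₀ = min (min 1 (1 / (4 * (N + 1) * (y + 1))))
    (min (γ / (μ + 2 * b)) (μ / (8 * (N + 1) * (E + 1)))) := ⟨_, rfl⟩
  have hs₀pos : 0 < s₀ := by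
    rw [hs₀]
    refine lt_min (lt_min one_pos ?_) (lt_min ?_ ?_) <;> positivity
  refine ⟨s₀, hs₀pos, E + 1, by positivity, ?_⟩
  intro s hs hss
  have ha : s ≤ 1 := hss.trans (by rw [hs₀]; exact (min_le_left _ _).trans (min_le_left _ _))
  have hb' : s * (4 * (N + 1) * (y + 1)) ≤ 1 := by
    have h1 : s ≤ 1 / (4 * (N + 1) * (y + 1)) :=
      hss.trans (by rw [hs₀]; exact (min_le_left _ _).trans (min_le_right _ _))
    exact (le_div_iff₀ (by positivity)).1 h1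
  have hc' : s * (μ + 2 * b) ≤ γ := by
    have h1 : s ≤ γ / (μ + 2 * b) :=
      hss.trans (by rw [hs₀]; exact (min_le_right _ _).trans (min_le_left _ _))
    exact (le_div_iff₀ (by positivity)).1 h1
  have hd' : s * (8 * (N + 1) * (E + 1)) ≤ μ := by
    have h1 : s ≤ μ / (8 * (N + 1) * (E + 1)) :=
      hss.trans (by rw [hs₀]; exact (min_le_right _ _).trans (min_le_right _ _))
    exact (le_div_iff₀ (by positivity)).1 h1
  -- consequences
  have hb1 : 4 * (N * (s * y)) ≤ 1 := by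
    have e1 : 0 ≤ s * (4 * (N + y + 1)) := by positivity
    linarith only [hb', e1]
  have hb2 : s * y ≤ 1 := by
    have e1 : 0 ≤ s * (4 * N * (y + 1)) := by positivity
    have e2 : 0 ≤ s * y := by positivity
    linarith only [hb', e1, e2, hs]
  have hd1 : 8 * (s * E) ≤ μ := by
    have e1 : 0 ≤ s * (8 * N * (E + 1)) := by positivity
    linarith only [hd', e1, hs]
  have hd2 : 8 * (N * (s * E)) ≤ μ := by
    have e1 : 0 ≤ s * (8 * (N + E + 1)) := by positivity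
    linarith only [hd', e1]
  have hd3 : 4 * (s * (E + 1)) < μ := by
    have e1 : 0 ≤ s * (8 * N * (E + 1)) := by positivity
    have e2 : 0 < s * (E + 1) := by positivity
    linarith only [hd', e1, e2]
  constructor
  · have h1 := mul_lt_mul_of_pos_left hd3 hs
    rw [show 2 * ((E + 1) * s ^ 2) = s * (4 * (s * (E + 1))) / 2 by ring]
    linarith only [h1]
  intro c κ K R hK hR hgap hK0 hκ hκgap
  obtain ⟨Y, hY⟩ : ∃ Y : Matrix ι ι ℂ, ∀ i j, Y i j = if c i = c j then 0 else K i j / (c j - c i) :=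
    ⟨Matrix.of fun i j => if c i = c j then 0 else K i j / (c j - c i), fun i j => rfl⟩
  have hYb : Bd Y y := by
    intro i j
    rw [hY]
    by_cases h : c i = c j
    · rw [if_pos h, norm_zero]
      exact hy0
    · rw [if_neg h, norm_div, hy, norm_sub_rev]
      exact div_le_div₀ hb (hK i j) hγ (hgap i j h)
  have hκb : Bd (Matrix.diagonal κ) b := by
    intro i j
    by_cases hij : i = j
    · subst hij
      rw [Matrix.diagonal_apply_eq, ← hκ]
      exact hK i i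
    · rw [Matrix.diagonal_apply_ne _ hij, norm_zero]
      exact hb
  have hsY : Bd ((s : ℂ) • Y) (s * y) := pe_smul hYb hs.le
  obtain ⟨Y₁, hY1, hY2, hY3⟩ := Bd.inv_one_add hsY (by
    rw [← hN]
    have e1 : 0 ≤ N * (s * y) := by positivity
    linarith only [hb1, e1])
  obtain ⟨Q, hQ⟩ : ∃ Q : Matrix ι ι ℂ, Q = K * Y + R + (s : ℂ) • (R * Y) - Y * Matrix.diagonal κ :=
    ⟨_, rfl⟩
  have hQb : Bd Q q := by
    have e1 : Bd (K * Y) (N * (b * y)) := by
      rw [hN]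
      exact hK.mul hYb hb
    have e2 : Bd (R * Y) (N * (b * y)) := by
      rw [hN]
      exact hR.mul hYb hb
    have e3 : Bd (Y * Matrix.diagonal κ) (N * (y * b)) := by
      rw [hN]
      exact hYb.mul hκb hy0
    have e4 : Bd ((s : ℂ) • (R * Y)) (N * (b * y)) := by
      refine (pe_smul e2 hs.le).mono ?_
      have e5 : 0 ≤ N * (b * y) := by positivity
      exact mul_le_of_le_one_left e5 ha
    have e6 := ((e1.add hR).add e4).add e3.neg
    rw [← sub_eq_add_neg, ← hQ] at e6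
    refine e6.mono ?_
    rw [hq]
    exact le_of_eq (by ring)
  obtain ⟨D, hD⟩ : ∃ D : Matrix ι ι ℂ, D = ((s ^ 2 : ℝ) : ℂ) • (Y₁ * Q) := ⟨_, rfl⟩
  have hDb : Bd D (s ^ 2 * (N * (2 * q))) := by
    rw [hD, hN]
    exact pe_smul (hY3.mul hQb two_pos.le) (by positivity)
  have hDrow : ∀ i, ∑ j, ‖D i j‖ ≤ E * s ^ 2 := by
    intro i
    have h1 : ∑ j, ‖D i j‖ ≤ ∑ _j : ι, s ^ 2 * (N * (2 * q)) := Finset.sum_le_sum fun j _ => hDb i j
    rw [Finset.sum_const, Finset.card_univ, nsmul_eq_mul, ← hN] at h1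
    refine h1.trans (le_of_eq ?_)
    rw [hE]
    ring
  obtain ⟨lam, hlam⟩ : ∃ lam : ι → ℂ, lam = fun i => c i + (s : ℂ) * κ i := ⟨_, rfl⟩
  have hκn : ∀ i, ‖κ i‖ ≤ b := fun i => by rw [← hκ]; exact hK i i
  have hns : ‖(s : ℂ)‖ = s := by rw [Complex.norm_real, Real.norm_of_nonneg hs.le]
  have hlgap : ∀ i j, i ≠ j → s * μ ≤ ‖lam i - lam j‖ := by
    intro i j hij
    rw [hlam]
    show s * μ ≤ ‖c i + (s : ℂ) * κ i - (c j + (s : ℂ) * κ j)‖
    by_cases h : c i = c j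
    · have e1 : c i + (s : ℂ) * κ i - (c j + (s : ℂ) * κ j) = (s : ℂ) * (κ i - κ j) := by
        rw [h]
        ring
      rw [e1, norm_mul, hns]
      exact mul_le_mul_of_nonneg_left (hκgap i j hij h) hs.le
    · have e1 : c i + (s : ℂ) * κ i - (c j + (s : ℂ) * κ j) = (c i - c j) - (s : ℂ) * (κ j - κ i) := by
        ring
      have e2 := norm_sub_norm_le (c i - c j) ((s : ℂ) * (κ j - κ i))
      have e3 : ‖(s : ℂ) * (κ j - κ i)‖ ≤ s * (b + b) := by
        rw [norm_mul, hns]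
        exact mul_le_mul_of_nonneg_left ((norm_sub_le _ _).trans (add_le_add (hκn j) (hκn i))) hs.le
      have e4 := hgap i j h
      rw [e1]
      linarith only [e2, e3, e4, hc']
  obtain ⟨u, Z, hu, hZ1, hZ2, hZ3⟩ := ger lam D (ε := E * s ^ 2) (g := s * μ) (by positivity) hlgap (by
    have e1 := mul_le_mul_of_nonneg_left hd1 hs.le
    linarith only [e1]) hDrow
  have hxe : 2 * (E * s ^ 2) / (s * μ) = 2 * (s * E) / μ := by
    field_simp
  have hx0 : 0 ≤ 2 * (s * E) / μ := by positivity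
  have hx1 : 2 * (s * E) / μ ≤ 1 := by
    rw [div_le_one hμ]
    have e1 : 0 ≤ s * E := by positivity
    linarith only [hd1, e1]
  have hx2 : 2 * (N * (2 * (s * E) / μ)) ≤ 1 := by
    rw [← mul_div_assoc, ← mul_div_assoc, div_le_one hμ]
    have e1 : 0 ≤ N * (s * E) := by positivity
    linarith only [hd2, e1]
  have hXb : Bd (Z - 1) (2 * (s * E) / μ) := by
    intro i j
    rw [Matrix.sub_apply]
    by_cases hij : i = j
    · subst hij
      rw [hZ1, Matrix.one_apply_eq, sub_self, norm_zero]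
      exact hx0
    · rw [Matrix.one_apply_ne hij, sub_zero, ← hxe]
      exact hZ2 j i hij
  obtain ⟨Z', hZ'1, hZ'2, hZ'3⟩ := Bd.inv_one_add hXb (by rw [← hN]; exact hx2)
  rw [add_sub_cancel] at hZ'1 hZ'2
  have hZb : Bd Z 2 := by
    intro i j
    by_cases hij : i = j
    · subst hij
      rw [hZ1, norm_one]
      exact one_le_two
    · have e1 := hZ2 j i hij
      rw [hxe] at e1
      linarith only [e1, hx1]
  have h1Yb : Bd (1 + (s : ℂ) • Y) 2 := by
    intro i j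
    have e1 := hsY i j
    have e2 : ‖(1 : Matrix ι ι ℂ) i j‖ ≤ 1 := by
      by_cases hij : i = j
      · subst hij
        rw [Matrix.one_apply_eq, norm_one]
      · rw [Matrix.one_apply_ne hij, norm_zero]
        exact zero_le_one
    rw [Matrix.add_apply]
    have e3 := norm_add_le ((1 : Matrix ι ι ℂ) i j) (((s : ℂ) • Y) i j)
    linarith only [e1, e2, e3, hb2]
  have hN4 : (Fintype.card ι : ℝ) * (2 * 2) = 4 * (Fintype.card ι : ℝ) := by ring
  -- the conjugated matrix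
  have hid := pe_id c κ K R (s : ℂ) hK0 hκ hY
  rw [← hQ, ← hlam] at hid
  have hcon : Y₁ * (Matrix.diagonal c + (s : ℂ) • K + ((s : ℂ) ^ 2) • R) * (1 + (s : ℂ) • Y) =
      Matrix.diagonal lam + D := by
    rw [mul_assoc, hid, mul_add, ← mul_assoc, hY1, one_mul, Matrix.mul_smul, hD, Complex.ofReal_pow]
  refine ⟨u, (1 + (s : ℂ) • Y) * Z, Z' * Y₁, ?_, ?_, ?_, ?_, ?_, ?_, ?_⟩
  · calc Z' * Y₁ * ((1 + (s : ℂ) • Y) * Z) = Z' * (Y₁ * (1 + (s : ℂ) • Y)) * Z := by
          simp only [mul_assoc]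
      _ = 1 := by rw [hY1, mul_one, hZ'1]
  · calc Z' * Y₁ * (Matrix.diagonal c + (s : ℂ) • K + ((s : ℂ) ^ 2) • R) * ((1 + (s : ℂ) • Y) * Z)
        = Z' * ((Y₁ * (Matrix.diagonal c + (s : ℂ) • K + ((s : ℂ) ^ 2) • R) * (1 + (s : ℂ) • Y)) * Z) := by
          simp only [mul_assoc]
      _ = Matrix.diagonal u := by
          rw [hcon, hZ3, ← mul_assoc, hZ'1, one_mul]
  · rw [← hN4]
    exact h1Yb.mul hZb two_pos.le
  · rw [← hN4]
    exact hZ'3.mul hY3 two_pos.le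
  · intro i h0
    have e1 : Bd (((s : ℂ) • Y) * Z) (N * ((s * y) * 2)) := by
      rw [hN]
      exact hsY.mul hZb (by positivity)
    have e2 := e1 i i
    rw [add_mul, one_mul, Matrix.add_apply, hZ1] at h0
    have e3 : (((s : ℂ) • Y) * Z) i i = -1 := by
      linear_combination h0
    rw [e3, norm_neg, norm_one] at e2
    linarith only [e2, hb1]
  · intro i
    have e1 := hu i
    rw [hlam] at e1
    refine e1.trans ?_
    have e2 : 0 ≤ s ^ 2 := by positivity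
    linarith only [e2]
  · intro i j hij
    have e1 := hu i
    have e2 := hu j
    have e3 := hlgap i j hij
    have e4 : lam i - lam j = (u i - u j) - ((u i - lam i) - (u j - lam j)) := by ring
    have e5 := norm_sub_le (u i - u j) ((u i - lam i) - (u j - lam j))
    have e6 := norm_sub_le (u i - lam i) (u j - lam j)
    rw [e4] at e3
    have e7 := mul_le_mul_of_nonneg_left hd1 hs.le
    have e8 : 0 ≤ s * (s * E) := by positivity
    linarith only [e1, e2, e3, e5, e6, e7, e8]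

end Pool.Agent.FLE
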