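import Pool.Agent.FLE.Split

/-!
# FLE-RBD: bounds for the blocks
-/

set_option autoImplicit false

noncomputable section

namespace Pool.Agent.FLE

open Equiv

private theorem two_bd (a n : ℕ) : ‖∑ k ∈ Finset.Ico a n, two k‖ ≤ 2 * n := by
  refine (norm_sum_le _ _).trans ?_
  have h1 : ∀ k ∈ Finset.Ico a n, ‖two k‖ = 2 := by
    intro k _
    unfold two
    norm_num
  rw [Finset.sum_congr rfl h1, Finset.sum_const, Nat.card_Ico, nsmul_eq_mul]
  have h2 : ((n - a : ℕ) : ℝ) ≤ n := by exact_mod_cast Nat.sub_le n a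
  linarith

private theorem prod_bd (q : ℕ → ℂ) (S : ℝ) (hS : 0 ≤ S) (a l : ℕ) (hq : ∀ k < l, ‖q k‖ ≤ S) :
    ‖∏ k ∈ Finset.Ico a l, q k‖ ≤ (1 + S) ^ l := by
  rw [norm_prod]
  have h1 : ∏ k ∈ Finset.Ico a l, ‖q k‖ ≤ ∏ _k ∈ Finset.Ico a l, (1 + S) := by
    refine Finset.prod_le_prod (fun _ _ => norm_nonneg _) fun k hk => ?_
    have := hq k (Finset.mem_Ico.1 hk).2
    linarith
  refine h1.trans ?_
  rw [Finset.prod_const, Nat.card_Ico]
  exact pow_le_pow_right₀ (by linarith) (Nat.sub_le _ _)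

private theorem lo_bd {m : ℕ} (v' v : Fin (m + 1)) (u w : Perm (Fin m)) :
    ‖lo two v' v u w‖ ≤ m * (2 * m) := by
  unfold lo
  refine (norm_sum_le _ _).trans ((Finset.sum_le_card_nsmul _ _ (2 * (m : ℝ)) ?_).trans ?_)
  · intro a _
    split_ifs
    · exact two_bd _ _
    · rw [norm_zero]
      positivity
  · rw [Finset.card_univ, Fintype.card_fin, nsmul_eq_mul]

private theorem hi_bd {l : ℕ} {q : ℕ → ℂ} {S : ℝ} (hS : 0 ≤ S) (hq : ∀ k < l, ‖q k‖ ≤ S)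
    (v' v : Fin (l + 2)) (u w : Perm (Fin (l + 1))) :
    ‖hi q two v' v u w‖ ≤ ((l : ℝ) + 1) * (2 * ((l : ℝ) + 1) * (1 + S) ^ l) := by
  unfold hi
  refine (norm_sum_le _ _).trans ((Finset.sum_le_card_nsmul _ _
    (2 * ((l : ℝ) + 1) * (1 + S) ^ l) ?_).trans ?_)
  · intro a _
    split_ifs
    · rw [norm_mul]
      have h1 := two_bd a.val (l + 1)
      push_cast at h1
      exact mul_le_mul h1 (prod_bd q S hS _ _ hq) (norm_nonneg _) (by positivity)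
    · rw [norm_zero]
      positivity
  · rw [Finset.card_univ, Fintype.card_fin, nsmul_eq_mul]
    push_cast
    exact le_rfl

theorem r_bd (l : ℕ) (S k₀ : ℝ) (hS : 0 ≤ S) (hk : 0 ≤ k₀) : ∃ b₁ : ℝ, 0 ≤ b₁ ∧
    ∀ (q : ℕ → ℂ) (κ s : ℂ), (∀ k < l, ‖q k‖ ≤ S) → ‖κ‖ ≤ k₀ → ‖s‖ ≤ 1 →
      Bd (kk (fun v : Fin (l + 1) => lo two v.castSucc v.succ)
        (κ • hi q two (Fin.last (l + 1)) 0)) b₁ ∧ Bd (rr l q κ s) b₁ := by
  obtain ⟨L, hL0, hL⟩ : ∃ L : ℝ, 0 ≤ L ∧ ∀ (v' v : Fin (l + 2)) (u w : Perm (Fin (l + 1))),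
      ‖lo two v' v u w‖ ≤ L := by
    refine ⟨((l + 1 : ℕ) : ℝ) * (2 * ((l + 1 : ℕ) : ℝ)), by positivity, fun v' v u w => ?_⟩
    exact lo_bd v' v u w
  obtain ⟨H, hH0, hH⟩ : ∃ H : ℝ, 0 ≤ H ∧ ∀ (q : ℕ → ℂ), (∀ k < l, ‖q k‖ ≤ S) →
      ∀ (v' v : Fin (l + 2)) (u w : Perm (Fin (l + 1))), ‖hi q two v' v u w‖ ≤ H :=
    ⟨((l : ℝ) + 1) * (2 * ((l : ℝ) + 1) * (1 + S) ^ l), by positivity,
      fun q hq v' v u w => hi_bd hS hq v' v u w⟩
  refine ⟨((l : ℝ) + 1) * L + L + k₀ * H, by positivity, ?_⟩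
  intro q κ s hq hκ hs
  have hkH : 0 ≤ k₀ * H := mul_nonneg hk hH0
  have hlL : 0 ≤ ((l : ℝ) + 1) * L := by positivity
  have hpow : ∀ n : ℕ, ‖s ^ n‖ ≤ 1 := by
    intro n
    rw [norm_pow]
    exact pow_le_one₀ (norm_nonneg _) hs
  refine ⟨?_, ?_⟩
  · intro p r
    unfold kk
    refine (norm_add_le _ _).trans ?_
    have h1 : ‖∑ v : Fin (l + 1), (if p.1 = v.castSucc ∧ r.1 = v.succ then
        lo two v.castSucc v.succ p.2 r.2 else 0)‖ ≤ ((l : ℝ) + 1) * L := by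
      refine (norm_sum_le _ _).trans ((Finset.sum_le_card_nsmul _ _ L ?_).trans ?_)
      · intro v _
        split_ifs
        · exact hL _ _ _ _
        · rw [norm_zero]
          exact hL0
      · rw [Finset.card_univ, Fintype.card_fin, nsmul_eq_mul]
        push_cast
        exact le_rfl
    have h2 : ‖(if p.1 = Fin.last (l + 1) ∧ r.1 = 0 then
        (κ • hi q two (Fin.last (l + 1)) 0) p.2 r.2 else 0)‖ ≤ k₀ * H := by
      split_ifs
      · rw [Matrix.smul_apply, smul_eq_mul, norm_mul]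
        exact mul_le_mul hκ (hH q hq _ _ _ _) (norm_nonneg _) hk
      · rw [norm_zero]
        exact hkH
    linarith
  · intro p r
    unfold rr
    refine (norm_add_le _ _).trans ?_
    have h1 : ‖(if p.1.val + 1 < r.1.val then
        s ^ (r.1.val - p.1.val - 2) * lo two p.1 r.1 p.2 r.2 else 0)‖ ≤ L := by
      split_ifs
      · rw [norm_mul]
        calc _ ≤ 1 * L := mul_le_mul (hpow _) (hL _ _ _ _) (norm_nonneg _) zero_le_one
          _ = L := one_mul _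
      · rw [norm_zero]
        exact hL0
    have h2 : ‖(if r.1.val < p.1.val ∧ ¬(p.1 = Fin.last (l + 1) ∧ r.1 = 0) then
        κ * s ^ (l - (p.1.val - r.1.val)) * hi q two p.1 r.1 p.2 r.2 else 0)‖ ≤ k₀ * H := by
      split_ifs
      · rw [norm_mul, norm_mul]
        refine mul_le_mul ?_ (hH q hq _ _ _ _) (norm_nonneg _) hk
        calc _ ≤ k₀ * 1 := mul_le_mul hκ (hpow _) (norm_nonneg _) hk
          _ = k₀ := mul_one _
      · rw [norm_zero]
        exact hkH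
    linarith

end Pool.Agent.FLE
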