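import Pool.Agent.FLE.BlkA
import Pool.Agent.FLE.BlkC
import Pool.Agent.FLE.FDefs

/-!
# FLE-SPLIT: the scaled block form

PLAN.  `block`, `q l = κ s^(l+2)`.  Cases for `v' = p.1`, `v = r.1` (`lo_eq_zero`, `hi_eq_zero`):
`v' = v`: `E`; `v' + 1 = v`: `lo`, `s ^ v = s ^ v' * s`; `v' + 1 < v`: `s ^ v = s ^ v' * s ^ 2 *
s ^ (v - v' - 2)`; `v' = last`, `v = 0`: `q l * hi = κ s ^ (l+2) hi = s ^ (l+1) * s * κ hi`; otherwise
`v < v'`, `v' - v ≤ l`: `κ s ^ (l+2) * s ^ v = s ^ v' * s ^ 2 * κ * s ^ (l - (v' - v))`.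
`split_t`: `t_block`.
-/

set_option autoImplicit false

noncomputable section

namespace Pool.Agent.FLE

open Equiv

open Classical in
/-- the remainder of order `s ^ 2` -/
def rr (l : ℕ) (q : ℕ → ℂ) (κ s : ℂ) :
    Matrix (Fin (l + 2) × Perm (Fin (l + 1))) (Fin (l + 2) × Perm (Fin (l + 1))) ℂ := fun p r =>
  (if p.1.val + 1 < r.1.val then
    s ^ (r.1.val - p.1.val - 2) * lo two p.1 r.1 p.2 r.2 else 0) +
  (if r.1.val < p.1.val ∧ ¬(p.1 = Fin.last (l + 1) ∧ r.1 = 0) then
    κ * s ^ (l - (p.1.val - r.1.val)) * hi q two p.1 r.1 p.2 r.2 else 0)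

/-- the matrix of `E (l + 1)` in the scaled basis -/
def mm (l : ℕ) (q : ℕ → ℂ) (κ s : ℂ) :
    Matrix (Fin (l + 2) × Perm (Fin (l + 1))) (Fin (l + 2) × Perm (Fin (l + 1))) ℂ :=
  dg l (E l q) + s • kk (fun v : Fin (l + 1) => lo two v.castSucc v.succ)
    (κ • hi q two (Fin.last (l + 1)) 0) + s ^ 2 • rr l q κ s

private theorem sp_kk {l : ℕ} (q : ℕ → ℂ) (κ : ℂ) (v' v : Fin (l + 2)) (u w : Perm (Fin (l + 1))) :
    kk (fun v : Fin (l + 1) => lo two v.castSucc v.succ) (κ • hi q two (Fin.last (l + 1)) 0)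
      (v', u) (v, w) = (if v.val = v'.val + 1 then lo two v' v u w else 0) +
      (if v' = Fin.last (l + 1) ∧ v = 0 then κ * hi q two v' v u w else 0) := by
  unfold kk
  congr 1
  · by_cases h : v.val = v'.val + 1
    · rw [if_pos h]
      have hlt : v'.val < l + 1 := by have := v.isLt; omega
      have e1 : (⟨v'.val, hlt⟩ : Fin (l + 1)).castSucc = v' := Fin.ext rfl
      have e2 : (⟨v'.val, hlt⟩ : Fin (l + 1)).succ = v := Fin.ext (by rw [Fin.val_succ]; exact h.symm)
      rw [Finset.sum_eq_single (⟨v'.val, hlt⟩ : Fin (l + 1))]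
      · rw [if_pos ⟨e1.symm, e2.symm⟩]
        show lo two (⟨v'.val, hlt⟩ : Fin (l + 1)).castSucc (⟨v'.val, hlt⟩ : Fin (l + 1)).succ u w = _
        rw [e1, e2]
      · intro x _ hx
        rw [if_neg]
        rintro ⟨h1, -⟩
        apply hx
        apply Fin.ext
        have h2 : v'.val = x.val := congrArg Fin.val h1
        exact h2.symm
      · intro h1
        exact absurd (Finset.mem_univ _) h1
    · rw [if_neg h]
      refine Finset.sum_eq_zero fun x _ => ?_
      rw [if_neg]
      rintro ⟨h1, h2⟩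
      apply h
      have h1' : v'.val = x.val := congrArg Fin.val h1
      have h2' : v.val = x.val + 1 := by
        have h3 : v = x.succ := h2
        rw [h3, Fin.val_succ]
      omega
  · by_cases h : v' = Fin.last (l + 1) ∧ v = 0
    · rw [if_pos h, if_pos h, Matrix.smul_apply, smul_eq_mul, h.1, h.2]
    · rw [if_neg h, if_neg h]

theorem split_m {l : ℕ} {q : ℕ → ℂ} {κ s : ℂ} (hq : q l = κ * s ^ (l + 2))
    (p r : Fin (l + 2) × Perm (Fin (l + 1))) :
    E (l + 1) q (ins p.1 p.2) (ins r.1 r.2) * s ^ r.1.val = s ^ p.1.val * mm l q κ s p r := by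
  obtain ⟨v', u⟩ := p
  obtain ⟨v, w⟩ := r
  have hE : E (l + 1) q (ins v' u) (ins v w) = (if v' = v then E l q u w else 0) +
      lo two v' v u w + q l * hi q two v' v u w := block q two v' v u w
  have hM : mm l q κ s (v', u) (v, w) = (if v' = v then E l q u w else 0) +
      s * ((if v.val = v'.val + 1 then lo two v' v u w else 0) +
        (if v' = Fin.last (l + 1) ∧ v = 0 then κ * hi q two v' v u w else 0)) +
      s ^ 2 * ((if v'.val + 1 < v.val then s ^ (v.val - v'.val - 2) * lo two v' v u w else 0) +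
        (if v.val < v'.val ∧ ¬(v' = Fin.last (l + 1) ∧ v = 0) then
          κ * s ^ (l - (v'.val - v.val)) * hi q two v' v u w else 0)) := by
    unfold mm
    rw [Matrix.add_apply, Matrix.add_apply, Matrix.smul_apply, Matrix.smul_apply, smul_eq_mul,
      smul_eq_mul, sp_kk]
    rfl
  show E (l + 1) q (ins v' u) (ins v w) * s ^ v.val = s ^ v'.val * mm l q κ s (v', u) (v, w)
  rw [hE, hM, hq]
  have hlo : v.val ≤ v'.val → lo two v' v u w = 0 := fun h => by
    rw [lo_eq_zero two (v' := v') (v := v) h]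
    rfl
  have hhi : v'.val ≤ v.val → hi q two v' v u w = 0 := fun h => by
    rw [hi_eq_zero q two (v' := v') (v := v) h]
    rfl
  rcases Nat.lt_trichotomy v'.val v.val with h | h | h
  · have hne : v' ≠ v := fun e => by rw [e] at h; exact lt_irrefl _ h
    have hnc : ¬(v' = Fin.last (l + 1) ∧ v = 0) := by
      rintro ⟨-, e⟩
      rw [e] at h
      exact absurd h (Nat.not_lt_zero _)
    have c1 : ¬(v.val < v'.val ∧ ¬(v' = Fin.last (l + 1) ∧ v = 0)) := fun e => by
      have := e.1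
      omega
    rw [hhi h.le, if_neg hne, if_neg hnc, if_neg c1]
    by_cases h1 : v.val = v'.val + 1
    · have c2 : ¬ v'.val + 1 < v.val := by omega
      rw [if_pos h1, if_neg c2, h1]
      ring
    · have c2 : v'.val + 1 < v.val := by omega
      rw [if_neg h1, if_pos c2]
      have h2 : v.val = v'.val + 2 + (v.val - v'.val - 2) := by omega
      have h3 : s ^ v.val = s ^ v'.val * s ^ 2 * s ^ (v.val - v'.val - 2) := by
        rw [← pow_add, ← pow_add, ← h2]
      rw [h3]
      ring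
  · have he : v' = v := Fin.ext h
    have c1 : ¬(v.val < v'.val ∧ ¬(v' = Fin.last (l + 1) ∧ v = 0)) := fun e => by
      have := e.1
      omega
    have c2 : ¬ v'.val + 1 < v.val := by omega
    have c3 : ¬ v.val = v'.val + 1 := by omega
    rw [hlo h.ge, hhi h.le, if_pos he, if_neg c1, if_neg c2, if_neg c3, h]
    have hnc : ¬(v' = Fin.last (l + 1) ∧ v = 0) := by
      rintro ⟨e1, e2⟩
      rw [he, e2] at e1
      have := congrArg Fin.val e1
      simp at this
    rw [if_neg hnc]
    ring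
  · have hne : v' ≠ v := fun e => by rw [e] at h; exact lt_irrefl _ h
    have c2 : ¬ v'.val + 1 < v.val := by omega
    have c3 : ¬ v.val = v'.val + 1 := by omega
    rw [hlo h.le, if_neg hne, if_neg c2, if_neg c3]
    by_cases hc : v' = Fin.last (l + 1) ∧ v = 0
    · have h1 : v'.val = l + 1 := by rw [hc.1]; rfl
      have h2 : v.val = 0 := by rw [hc.2]; rfl
      rw [if_pos hc, if_neg (fun e => e.2 hc), h1, h2]
      ring
    · rw [if_neg hc, if_pos ⟨h, hc⟩]
      have hle : v'.val - v.val ≤ l := by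
        by_contra hcon
        apply hc
        have h1 := v'.isLt
        exact ⟨Fin.ext (by rw [Fin.val_last]; omega), Fin.ext (by rw [Fin.val_zero]; omega)⟩
      have h2 : s ^ (l + 2) * s ^ v.val = s ^ v'.val * s ^ 2 * s ^ (l - (v'.val - v.val)) := by
        rw [← pow_add, ← pow_add, ← pow_add]
        congr 1
        omega
      linear_combination (κ * hi q two v' v u w) * h2

theorem split_t {l : ℕ} {q : ℕ → ℂ} {κ s : ℂ} (hq : q l = κ * s ^ (l + 2))
    (p r : Fin (l + 2) × Perm (Fin (l + 1))) :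
    T (l + 1) q (ins p.1 p.2) (ins r.1 r.2) * s ^ r.1.val =
      s ^ p.1.val * (s ^ (l + 1) * tt l κ (T l q) p r) := by
  obtain ⟨v', u⟩ := p
  obtain ⟨v, w⟩ := r
  have hT : tt l κ (T l q) (v', u) (v, w) = (if v'.val = v.val + 1 then κ * T l q u w else 0) +
      (if v = Fin.last (l + 1) ∧ v' = 0 ∧ u = w then 1 else 0) := by
    unfold tt
    congr
  show T (l + 1) q (ins v' u) (ins v w) * s ^ v.val =
    s ^ v'.val * (s ^ (l + 1) * tt l κ (T l q) (v', u) (v, w))
  rw [hT, t_block, hq]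
  by_cases h1 : v'.val = v.val + 1
  · have h2 : ¬(v = Fin.last (l + 1) ∧ v' = 0 ∧ u = w) := by
      rintro ⟨-, e, -⟩
      rw [e] at h1
      simp at h1
    rw [if_pos h1, if_neg h2, if_pos h1, h1]
    ring
  · rw [if_neg h1, if_neg h1]
    by_cases h2 : v = Fin.last (l + 1) ∧ v' = 0 ∧ u = w
    · have h3 : v.val = l + 1 := by rw [h2.1]; rfl
      have h4 : v'.val = 0 := by rw [h2.2.1]; rfl
      rw [if_pos h2, h3, h4]
      ring
    · rw [if_neg h2]
      ring

end Pool.Agent.FLE
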