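import Pool.Agent.FLE.ComA
import Pool.Agent.FLE.Cmp
import Pool.Agent.FLE.FourB
import Pool.Agent.FLE.RBd
import Pool.Agent.FLE.Pert

/-!
# FLE-STEP: from rank `l` to rank `l + 1`
-/

set_option autoImplicit false

noncomputable section

namespace Pool.Agent.FLE

open Equiv

/-- Diagonalisation of `E l q` and `T l q` with bounds. -/
structure Lev (l : ℕ) (q : ℕ → ℂ) (b γ α : ℝ)
    (P P' : Matrix (Perm (Fin (l + 1))) (Perm (Fin (l + 1))) ℂ)
    (c a : Perm (Fin (l + 1)) → ℂ) : Prop where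
  inv : P' * P = 1
  hE : P' * E l q * P = Matrix.diagonal c
  hT : E l q * T l q = T l q * E l q → P' * T l q * P = Matrix.diagonal a
  bd : Bd P b
  bd' : Bd P' b
  gap : ∀ i j, i ≠ j → γ ≤ ‖c i - c j‖
  abs : ∀ i, ‖a i‖ = α

theorem diag_of_comm {ι : Type} [Fintype ι] [DecidableEq ι] {V V' : Matrix ι ι ℂ} {τ u : ι → ℂ}
    (hV : V' * V = 1) (hu : ∀ i j, i ≠ j → u i ≠ u j) (hVi : ∀ i, V i i ≠ 0)
    (hc : (V' * Matrix.diagonal τ * V) * Matrix.diagonal u =
      Matrix.diagonal u * (V' * Matrix.diagonal τ * V)) :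
    V' * Matrix.diagonal τ * V = Matrix.diagonal τ := by
  set G := V' * Matrix.diagonal τ * V with hG
  have hoff : ∀ i j, i ≠ j → G i j = 0 := by
    intro i j hij
    have h1 := congrFun (congrFun hc i) j
    rw [Matrix.mul_diagonal, Matrix.diagonal_mul] at h1
    have h2 : (u j - u i) * G i j = 0 := by
      rw [sub_mul, ← h1]
      ring
    rcases mul_eq_zero.mp h2 with h3 | h3
    · exact absurd (sub_eq_zero.mp h3).symm (hu i j hij)
    · exact h3
  have hVG : V * G = Matrix.diagonal τ * V := by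
    rw [hG, ← Matrix.mul_assoc, ← Matrix.mul_assoc, mul_eq_one_comm.mp hV, Matrix.one_mul]
  ext i j
  by_cases hij : i = j
  · subst hij
    have h1 := congrFun (congrFun hVG i) i
    rw [Matrix.mul_apply, Matrix.diagonal_mul, Finset.sum_eq_single i] at h1
    · rw [Matrix.diagonal_apply_eq]
      apply mul_left_cancel₀ (hVi i)
      rw [h1]
      ring
    · intro k _ hk
      rw [hoff k i hk, mul_zero]
    · intro h
      exact absurd (Finset.mem_univ i) h
  · rw [hoff i j hij, Matrix.diagonal_apply_ne _ hij]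

section conj

variable {l : ℕ} {s : ℂ} (X X' : Matrix (Fin (l + 2) × Perm (Fin (l + 1)))
  (Fin (l + 2) × Perm (Fin (l + 1))) ℂ)

/-- back to the original basis -/
def up (s : ℂ) : Matrix (Perm (Fin (l + 2))) (Perm (Fin (l + 2))) ℂ := fun x i =>
  s ^ ((insEquiv (l + 1)).symm x).1.val * X ((insEquiv (l + 1)).symm x) ((insEquiv (l + 1)).symm i)

/-- back to the original basis, the inverse -/
def up' (s : ℂ) : Matrix (Perm (Fin (l + 2))) (Perm (Fin (l + 2))) ℂ := fun i x =>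
  X' ((insEquiv (l + 1)).symm i) ((insEquiv (l + 1)).symm x) *
    (s ^ ((insEquiv (l + 1)).symm x).1.val)⁻¹

theorem up_mul (hs : s ≠ 0) : up' X' s * up X s =
    (X' * X).submatrix (insEquiv (l + 1)).symm (insEquiv (l + 1)).symm := by
  ext i j
  rw [Matrix.mul_apply, Matrix.submatrix_apply, Matrix.mul_apply,
    ← (insEquiv (l + 1)).symm.sum_comp]
  refine Finset.sum_congr rfl (fun x _ => ?_)
  have : s ^ ((insEquiv (l + 1)).symm x).1.val ≠ 0 := pow_ne_zero _ hs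
  simp only [up, up']
  field_simp

theorem up_conj (hs : s ≠ 0) (A : Matrix (Perm (Fin (l + 2))) (Perm (Fin (l + 2))) ℂ)
    (B : Matrix (Fin (l + 2) × Perm (Fin (l + 1))) (Fin (l + 2) × Perm (Fin (l + 1))) ℂ)
    (h : ∀ p r, A (ins p.1 p.2) (ins r.1 r.2) * s ^ r.1.val = s ^ p.1.val * B p r) :
    up' X' s * A * up X s =
      (X' * B * X).submatrix (insEquiv (l + 1)).symm (insEquiv (l + 1)).symm := by
  have h1 : A * up X s = up (B * X) s := by
    ext x j
    rw [Matrix.mul_apply]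
    simp only [up]
    rw [Matrix.mul_apply, Finset.mul_sum, ← (insEquiv (l + 1)).symm.sum_comp]
    refine Finset.sum_congr rfl (fun y _ => ?_)
    have h2 := h ((insEquiv (l + 1)).symm x) ((insEquiv (l + 1)).symm y)
    rw [← insEquiv_apply, ← insEquiv_apply, Equiv.apply_symm_apply, Equiv.apply_symm_apply] at h2
    rw [← mul_assoc, h2, mul_assoc]
  rw [Matrix.mul_assoc, h1, up_mul _ _ hs, Matrix.mul_assoc]

end conj

theorem step (l : ℕ) {b γ α S : ℝ} (hb : 0 ≤ b) (hγ : 0 < γ) (hα : 0 < α) (hS : 0 ≤ S) :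
    ∃ s₀ > 0, ∃ Cst > 0, ∀ s : ℝ, 0 < s → s ≤ s₀ → ∃ b₁ γ₁ : ℝ, 0 ≤ b₁ ∧ 0 < γ₁ ∧
      2 * (Cst * s ^ 2) < γ₁ ∧ ∀ (q : ℕ → ℂ) (κ : ℂ)
        (P P' : Matrix (Perm (Fin (l + 1))) (Perm (Fin (l + 1))) ℂ)
        (c a : Perm (Fin (l + 1)) → ℂ), (∀ k < l, ‖q k‖ ≤ S) → ‖κ‖ = 1 →
        q l = κ / α * (s : ℂ) ^ (l + 2) →
        (∀ q h h' : ℕ → ℂ, M (l + 2) q h * M (l + 2) q h' = M (l + 2) q h' * M (l + 2) q h) →
        Lev l q b γ α P P' c a →
        ∃ P₁ P₁' c₁ a₁, Lev (l + 1) q b₁ γ₁ (s ^ (l + 1)) P₁ P₁' c₁ a₁ ∧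
          ∀ i η, η ^ (l + 2) = κ / α * a i → ∃ i₁,
            ‖c₁ i₁ - (c i + s * ((l + 2) * η))‖ ≤ Cst * s ^ 2 ∧ a₁ i₁ = (s * η) ^ (l + 1) := by
  obtain ⟨μ, hμ, hgap⟩ := roots_gap (l + 2)
  obtain ⟨b₁, hb₁, hbd⟩ := r_bd l S (1 / α) hS (by positivity)
  set N : ℝ := (Fintype.card (Fin (l + 2) × Perm (Fin (l + 1))) : ℝ) with hN
  have hN0 : 0 ≤ N := Nat.cast_nonneg _
  have hl2 : (0 : ℝ) < (l : ℝ) + 2 := by positivity
  have hbb : 0 ≤ N * (N * (b * b₁) * b) := by positivity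
  have hμ' : 0 < ((l : ℝ) + 2) * μ := by positivity
  obtain ⟨s₁, hs₁, Cst, hC, hp⟩ := pert (Fin (l + 2) × Perm (Fin (l + 1))) hγ hbb hμ'
  refine ⟨min s₁ 1, lt_min hs₁ one_pos, Cst, hC, fun s hs hs' => ?_⟩
  have hs1 : s ≤ 1 := hs'.trans (min_le_right _ _)
  obtain ⟨hp0, hp⟩ := hp s hs (hs'.trans (min_le_left _ _))
  have hsC : (s : ℂ) ≠ 0 := by exact_mod_cast hs.ne'
  have hpow : 0 < s ^ (l + 1) := by positivity
  have hpow1 : s ^ (l + 1) ≤ 1 := pow_le_one₀ hs.le hs1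
  refine ⟨N * (b * (4 * N)) * (s ^ (l + 1))⁻¹, s * (((l : ℝ) + 2) * μ) / 2, by positivity,
    by positivity, hp0, ?_⟩
  intro q κ P P' c a hq hκ hql hcm hL
  have hTd := hL.hT (com1 hcm q)
  have hαC : (α : ℂ) ≠ 0 := by exact_mod_cast hα.ne'
  have hκα : ‖κ / (α : ℂ)‖ = 1 / α := by
    rw [norm_div, hκ, Complex.norm_real, Real.norm_eq_abs, abs_of_pos hα]
  have hz : ∀ J, ‖κ / (α : ℂ) * a J‖ = 1 := fun J => by
    rw [norm_mul, hκα, hL.abs J]
    field_simp
  choose ω hω1 hω2 hω3 hω4 using fun J => roots_exist (n := l + 2) (by omega) (hz J)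
  set Ω : Fin (l + 2) → Perm (Fin (l + 1)) → ℂ := fun r J => ω J r with hΩ
  have hΩ1 : ∀ r J, Ω r J ^ (l + 2) = κ / (α : ℂ) * a J := fun r J => hω1 J r
  have hΩn : ∀ r J, ‖Ω r J‖ = 1 := fun r J => hω2 J r
  have hΩ0 : ∀ r J, Ω r J ≠ 0 := fun r J h => by
    have := hΩn r J
    rw [h, norm_zero] at this
    exact zero_ne_one this
  have hΩi : ∀ J r r', r ≠ r' → Ω r J ≠ Ω r' J := fun J r r' h h' => h (hω3 J h')
  obtain ⟨hV0, hW0⟩ := four_bd (l := l) (ω := Ω) (P := P) (P' := P') hΩn hL.bd hL.bd'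
  have h1 : W0 Ω P' * V0 Ω P = 1 := four_one hΩ1 hΩ0 hΩi hL.inv
  have hdg := four_dg (l := l) hΩ1 hΩ0 hΩi hL.hE
  set KK := kk (fun v : Fin (l + 1) => lo two v.castSucc v.succ)
    ((κ / (α : ℂ)) • hi q two (Fin.last (l + 1)) 0) with hKK
  have hkk : ∀ (r r' : Fin (l + 2)) (J : Perm (Fin (l + 1))),
      (W0 Ω P' * KK * V0 Ω P) (r, J) (r', J) = if r = r' then ((l : ℂ) + 2) * Ω r J else 0 := by
    intro r r' J
    refine four_kk hΩ1 hΩ0 hΩi (fun v J => cmp_lo hcm q hL.inv hL.hE v J) (fun J => ?_) r r' J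
    rw [Matrix.mul_smul, Matrix.smul_mul, Matrix.smul_apply,
      cmp_hi hcm q hL.inv hL.hE hTd J, smul_eq_mul]
    ring
  have htt := four_tt (l := l) hΩ1 hΩ0 hΩi hL.inv hTd (fun J => rfl)
  obtain ⟨hbK, hbR⟩ := hbd q (κ / (α : ℂ)) s hq hκα.le (by
    rw [Complex.norm_real, Real.norm_eq_abs, abs_of_pos hs]
    exact hs1)
  set RR := rr l q (κ / (α : ℂ)) s with hRR
  have hKb : Bd (W0 Ω P' * KK * V0 Ω P) (N * (N * (b * b₁) * b)) :=
    Bd.mul (Bd.mul hW0 hbK hb) hV0 (by positivity)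
  have hRb : Bd (W0 Ω P' * RR * V0 Ω P) (N * (N * (b * b₁) * b)) :=
    Bd.mul (Bd.mul hW0 hbR hb) hV0 (by positivity)
  have hmm : W0 Ω P' * mm l q (κ / (α : ℂ)) s * V0 Ω P =
      Matrix.diagonal (fun p : Fin (l + 2) × Perm (Fin (l + 1)) => c p.2) +
        (s : ℂ) • (W0 Ω P' * KK * V0 Ω P) + ((s : ℂ) ^ 2) • (W0 Ω P' * RR * V0 Ω P) := by
    rw [mm, ← hKK, ← hRR, Matrix.mul_add, Matrix.mul_add, Matrix.add_mul, Matrix.add_mul, hdg,
      Matrix.mul_smul, Matrix.smul_mul, Matrix.mul_smul, Matrix.smul_mul]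
  have hsnd : ∀ i j : Fin (l + 2) × Perm (Fin (l + 1)), c i.2 = c j.2 → i.2 = j.2 := by
    intro i j h
    by_contra hne
    have := hL.gap i.2 j.2 hne
    rw [h, sub_self, norm_zero] at this
    exact absurd this (not_le.mpr hγ)
  obtain ⟨u, V, V', hVV, hVd, hVb, hVb', hVi, hu, hug⟩ := hp (fun p => c p.2)
    (fun p => ((l : ℂ) + 2) * Ω p.1 p.2) (W0 Ω P' * KK * V0 Ω P) (W0 Ω P' * RR * V0 Ω P) hKb hRb
    (fun i j h => hL.gap i.2 j.2 (fun h' => h (by simp only [h'])))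
    (fun i j hij h => by
      obtain ⟨r, J⟩ := i
      obtain ⟨r', J'⟩ := j
      have h' := hsnd (r, J) (r', J') h
      simp only at h'
      subst h'
      rw [hkk, if_neg]
      intro h''
      exact hij (by rw [h'']))
    (fun i => by
      obtain ⟨r, J⟩ := i
      rw [hkk, if_pos rfl])
    (fun i j hij h => by
      obtain ⟨r, J⟩ := i
      obtain ⟨r', J'⟩ := j
      have h' := hsnd (r, J) (r', J') h
      simp only at h'
      subst h'
      have hr : r ≠ r' := fun h'' => hij (by rw [h''])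
      simp only
      rw [← mul_sub, norm_mul]
      have h3 : ‖(l : ℂ) + 2‖ = (l : ℝ) + 2 := by
        have : (l : ℂ) + 2 = (((l : ℝ) + 2 : ℝ) : ℂ) := by push_cast; ring
        rw [this, Complex.norm_real, Real.norm_eq_abs, abs_of_pos hl2]
      rw [h3]
      refine mul_le_mul_of_nonneg_left ?_ hl2.le
      exact hgap _ _ (hΩn r J) (by rw [hΩ1, hΩ1]) (hΩi J r r' hr) (by omega))
  rw [← hmm] at hVd
  set X := V0 Ω P * V with hX
  set X' := V' * W0 Ω P' with hX'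
  have hXX : X' * X = 1 := by
    rw [hX, hX', Matrix.mul_assoc, ← Matrix.mul_assoc (W0 Ω P'), h1, Matrix.one_mul, hVV]
  have hXm : X' * mm l q (κ / (α : ℂ)) s * X = Matrix.diagonal u := by
    rw [← hVd, hX, hX']
    simp only [Matrix.mul_assoc]
  have hXt : X' * ((s : ℂ) ^ (l + 1) • tt l (κ / (α : ℂ)) (T l q)) * X =
      (s : ℂ) ^ (l + 1) • (V' * Matrix.diagonal (fun p : Fin (l + 2) × Perm (Fin (l + 1)) =>
        Ω p.1 p.2 ^ (l + 1)) * V) := by
    rw [← htt, hX, hX', Matrix.mul_smul, Matrix.smul_mul]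
    simp only [Matrix.mul_assoc]
  set e := insEquiv (l + 1) with he
  have hune : ∀ i j, i ≠ j → u i ≠ u j := fun i j hij h => by
    have h4 := hug i j hij
    rw [h, sub_self, norm_zero] at h4
    have : 0 < s * (((l : ℝ) + 2) * μ) / 2 := by positivity
    linarith
  have hdiag : ∀ f : Fin (l + 2) × Perm (Fin (l + 1)) → ℂ,
      (Matrix.diagonal f).submatrix e.symm e.symm = Matrix.diagonal (fun i => f (e.symm i)) :=
    fun f => Matrix.submatrix_diagonal_equiv f e.symm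
  have hE1 : up' X' (s : ℂ) * E (l + 1) q * up X (s : ℂ) =
      Matrix.diagonal (fun i => u (e.symm i)) := by
    rw [up_conj X X' hsC (E (l + 1) q) (mm l q (κ / (α : ℂ)) s) (fun p r => split_m hql p r), hXm,
      hdiag]
  have hT1 : up' X' (s : ℂ) * T (l + 1) q * up X (s : ℂ) =
      ((s : ℂ) ^ (l + 1) • (V' * Matrix.diagonal (fun p : Fin (l + 2) × Perm (Fin (l + 1)) =>
        Ω p.1 p.2 ^ (l + 1)) * V)).submatrix e.symm e.symm := by
    rw [up_conj X X' hsC (T (l + 1) q) ((s : ℂ) ^ (l + 1) • tt l (κ / (α : ℂ)) (T l q))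
      (fun p r => split_t hql p r), hXt]
  have hI1 : up' X' (s : ℂ) * up X (s : ℂ) = 1 := by
    rw [up_mul X X' hsC, hXX]
    exact Matrix.submatrix_one_equiv e.symm
  have hI2 : up X (s : ℂ) * up' X' (s : ℂ) = 1 := mul_eq_one_comm.mp hI1
  refine ⟨up X s, up' X' s, fun i => u (e.symm i),
    fun i => ((s : ℂ) * Ω (e.symm i).1 (e.symm i).2) ^ (l + 1),
    ⟨hI1, hE1, fun hcE => ?_, ?_, ?_, ?_, ?_⟩, ?_⟩
  · -- T
    set D := V' * Matrix.diagonal (fun p : Fin (l + 2) × Perm (Fin (l + 1)) =>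
        Ω p.1 p.2 ^ (l + 1)) * V with hD
    have hc1 : Matrix.diagonal (fun i => u (e.symm i)) * ((s : ℂ) ^ (l + 1) • D).submatrix e.symm
        e.symm = ((s : ℂ) ^ (l + 1) • D).submatrix e.symm e.symm *
          Matrix.diagonal (fun i => u (e.symm i)) := by
      rw [← hE1, ← hT1]
      calc up' X' (s : ℂ) * E (l + 1) q * up X (s : ℂ) *
            (up' X' (s : ℂ) * T (l + 1) q * up X (s : ℂ))
          = up' X' (s : ℂ) * E (l + 1) q * (up X (s : ℂ) * up' X' (s : ℂ)) * T (l + 1) q *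
            up X (s : ℂ) := by simp only [Matrix.mul_assoc]
        _ = up' X' (s : ℂ) * (E (l + 1) q * T (l + 1) q) * up X (s : ℂ) := by
            rw [hI2, Matrix.mul_one]
            simp only [Matrix.mul_assoc]
        _ = up' X' (s : ℂ) * T (l + 1) q * (up X (s : ℂ) * up' X' (s : ℂ)) * E (l + 1) q *
            up X (s : ℂ) := by
            rw [hI2, Matrix.mul_one, hcE]
            simp only [Matrix.mul_assoc]
        _ = _ := by simp only [Matrix.mul_assoc]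
    have hc2 : D * Matrix.diagonal u = Matrix.diagonal u * D := by
      ext i j
      have h5 := congrFun (congrFun hc1 (e i)) (e j)
      rw [Matrix.diagonal_mul, Matrix.mul_diagonal, Matrix.submatrix_apply, Matrix.smul_apply,
        smul_eq_mul] at h5
      simp only [Equiv.symm_apply_apply] at h5
      rw [Matrix.mul_diagonal, Matrix.diagonal_mul]
      have h6 : (s : ℂ) ^ (l + 1) ≠ 0 := pow_ne_zero _ hsC
      apply mul_left_cancel₀ h6
      rw [← mul_assoc, ← h5]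
      ring
    have hD2 : D = Matrix.diagonal (fun p : Fin (l + 2) × Perm (Fin (l + 1)) =>
        Ω p.1 p.2 ^ (l + 1)) := diag_of_comm hVV hune hVi hc2
    rw [hT1, hD2]
    ext i j
    rw [Matrix.submatrix_apply, Matrix.smul_apply]
    by_cases hij : i = j
    · subst hij
      rw [Matrix.diagonal_apply_eq, Matrix.diagonal_apply_eq, smul_eq_mul, mul_pow]
    · rw [Matrix.diagonal_apply_ne _ hij, Matrix.diagonal_apply_ne, smul_zero]
      intro h7
      exact hij (e.symm.injective h7)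
  · -- bound of P₁
    intro x i
    have h5 : Bd X (N * (b * (4 * N))) := Bd.mul hV0 hVb hb
    have h6 := h5 (e.symm x) (e.symm i)
    simp only [up]
    rw [norm_mul, norm_pow, Complex.norm_real, Real.norm_eq_abs, abs_of_pos hs]
    have h7 : s ^ (e.symm x).1.val ≤ (s ^ (l + 1))⁻¹ :=
      (pow_le_one₀ hs.le hs1).trans ((one_le_inv₀ hpow).mpr hpow1)
    calc s ^ (e.symm x).1.val * ‖X (e.symm x) (e.symm i)‖
        ≤ (s ^ (l + 1))⁻¹ * (N * (b * (4 * N))) :=
          mul_le_mul h7 h6 (norm_nonneg _) (by positivity)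
      _ = _ := by ring
  · intro i x
    have h5 : Bd X' (N * ((4 * N) * b)) := Bd.mul hVb' hW0 (by positivity)
    have h6 := h5 (e.symm i) (e.symm x)
    simp only [up']
    rw [norm_mul, norm_inv, norm_pow, Complex.norm_real, Real.norm_eq_abs, abs_of_pos hs]
    have h7 : (s ^ (e.symm x).1.val)⁻¹ ≤ (s ^ (l + 1))⁻¹ := by
      apply inv_anti₀ hpow
      exact pow_le_pow_of_le_one hs.le hs1 (by have := (e.symm x).1.isLt; omega)
    calc ‖X' (e.symm i) (e.symm x)‖ * (s ^ (e.symm x).1.val)⁻¹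
        ≤ (N * ((4 * N) * b)) * (s ^ (l + 1))⁻¹ :=
          mul_le_mul h6 h7 (by positivity) (by positivity)
      _ = _ := by ring
  · intro i j hij
    exact hug _ _ (fun h => hij (e.symm.injective h))
  · intro i
    rw [norm_pow, norm_mul, Complex.norm_real, Real.norm_eq_abs, abs_of_pos hs, hΩn, mul_one]
  · intro i η hη
    obtain ⟨r, hr⟩ := hω4 i η hη
    refine ⟨e (r, i), ?_, ?_⟩
    · have h5 := hu (r, i)
      simp only [Equiv.symm_apply_apply]
      simp only [hΩ, hr] at h5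
      exact h5
    · simp only [Equiv.symm_apply_apply, hΩ, hr]

end Pool.Agent.FLE
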